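import Mathlib

/-!
# The Weyl group of type `E₆` as the group of the 27 lines
-/

namespace Pool.Agent.Lib.MP_12adaf_nt

/-- The coefficient vectors of the 27 linear forms `x i`, `x i - s`, `s - x i - x j` (`i < j`) in
the six variables `x 0, …, x 5`, where `3 s = x 0 + ⋯ + x 5`. -/
def lines27 : Set (Fin 6 → ℚ) :=
  {c | (∃ i, c = Pi.single i 1) ∨ (∃ i, c = Pi.single i 1 - fun _ => 1 / 3) ∨
    ∃ i j, i < j ∧ c = (fun _ => 1 / 3) - Pi.single i 1 - Pi.single j 1}

/-- The Weyl group of type `E₆`: the rational `6 × 6` matrices which permute the 27 linear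
forms. -/
def weylE6 : Set (Matrix (Fin 6) (Fin 6) ℚ) :=
  {A | Set.BijOn (fun c => Matrix.vecMul c A) lines27 lines27}

end Pool.Agent.Lib.MP_12adaf_nt
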