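import Mathlib

/-!
# The 27 weights and the 36 reflections of `E₆`: tables

Coordinates `(η₁, η₂, η₃, η₄, B₁, B₂)`, `B₃ = -B₁-B₂`.  The weights are `±ηᵢ±ηⱼ+B_t` (`t = 1` for
`{i,j} = {1,2},{3,4}`, `t = 2` for `{1,3},{2,4}`, `t = 3` for `{1,4},{2,3}`) and `-2B_t`.
-/

namespace Pool.Agent.Lib.MP_12adaf_nt.E6

/-- table of the weights -/
def wtL : List (List ℤ) := [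
  [1, 1, 0, 0, 1, 0],
  [1, -1, 0, 0, 1, 0],
  [-1, 1, 0, 0, 1, 0],
  [-1, -1, 0, 0, 1, 0],
  [0, 0, 1, 1, 1, 0],
  [0, 0, 1, -1, 1, 0],
  [0, 0, -1, 1, 1, 0],
  [0, 0, -1, -1, 1, 0],
  [1, 0, 1, 0, 0, 1],
  [1, 0, -1, 0, 0, 1],
  [-1, 0, 1, 0, 0, 1],
  [-1, 0, -1, 0, 0, 1],
  [0, 1, 0, 1, 0, 1],
  [0, 1, 0, -1, 0, 1],
  [0, -1, 0, 1, 0, 1],
  [0, -1, 0, -1, 0, 1],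
  [1, 0, 0, 1, -1, -1],
  [1, 0, 0, -1, -1, -1],
  [-1, 0, 0, 1, -1, -1],
  [-1, 0, 0, -1, -1, -1],
  [0, 1, 1, 0, -1, -1],
  [0, 1, -1, 0, -1, -1],
  [0, -1, 1, 0, -1, -1],
  [0, -1, -1, 0, -1, -1],
  [0, 0, 0, 0, -2, 0],
  [0, 0, 0, 0, 0, -2],
  [0, 0, 0, 0, 2, 2]]

/-- The 27 weights, as integer linear forms in six variables. -/
def wt (a : Fin 27) (j : Fin 6) : ℤ := (wtL.getD a []).getD j 0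

/-- table of the positive roots -/
def rhoL : List (List ℤ) := [
  [2, 0, 0, 0, 0, 0],
  [0, 2, 0, 0, 0, 0],
  [0, 0, 2, 0, 0, 0],
  [0, 0, 0, 2, 0, 0],
  [1, 1, 1, 1, 0, 0],
  [1, 1, 1, -1, 0, 0],
  [1, 1, -1, 1, 0, 0],
  [1, 1, -1, -1, 0, 0],
  [1, -1, 1, 1, 0, 0],
  [1, -1, 1, -1, 0, 0],
  [1, -1, -1, 1, 0, 0],
  [1, -1, -1, -1, 0, 0],
  [1, 1, 0, 0, 1, 2],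
  [1, -1, 0, 0, 1, 2],
  [-1, 1, 0, 0, 1, 2],
  [-1, -1, 0, 0, 1, 2],
  [0, 0, 1, 1, 1, 2],
  [0, 0, 1, -1, 1, 2],
  [0, 0, -1, 1, 1, 2],
  [0, 0, -1, -1, 1, 2],
  [1, 0, 1, 0, -2, -1],
  [1, 0, -1, 0, -2, -1],
  [-1, 0, 1, 0, -2, -1],
  [-1, 0, -1, 0, -2, -1],
  [0, 1, 0, 1, -2, -1],
  [0, 1, 0, -1, -2, -1],
  [0, -1, 0, 1, -2, -1],
  [0, -1, 0, -1, -2, -1],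
  [1, 0, 0, 1, 1, -1],
  [1, 0, 0, -1, 1, -1],
  [-1, 0, 0, 1, 1, -1],
  [-1, 0, 0, -1, 1, -1],
  [0, 1, 1, 0, 1, -1],
  [0, 1, -1, 0, 1, -1],
  [0, -1, 1, 0, 1, -1],
  [0, -1, -1, 0, 1, -1]]

/-- The 36 positive roots, as integer linear forms. -/
def rho (i : Fin 36) (j : Fin 6) : ℤ := (rhoL.getD i []).getD j 0

/-- table of `m i a`, the pairing of the weight `a` with the coroot `i` -/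
def mL : List (List ℤ) := [
  [1, 1, -1, -1, 0, 0, 0, 0, 1, 1, -1, -1, 0, 0, 0, 0, 1, 1, -1, -1, 0, 0, 0, 0, 0, 0, 0],
  [1, -1, 1, -1, 0, 0, 0, 0, 0, 0, 0, 0, 1, 1, -1, -1, 0, 0, 0, 0, 1, 1, -1, -1, 0, 0, 0],
  [0, 0, 0, 0, 1, 1, -1, -1, 1, -1, 1, -1, 0, 0, 0, 0, 0, 0, 0, 0, 1, -1, 1, -1, 0, 0, 0],
  [0, 0, 0, 0, 1, -1, 1, -1, 0, 0, 0, 0, 1, -1, 1, -1, 1, -1, 1, -1, 0, 0, 0, 0, 0, 0, 0],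
  [1, 0, 0, -1, 1, 0, 0, -1, 1, 0, 0, -1, 1, 0, 0, -1, 1, 0, 0, -1, 1, 0, 0, -1, 0, 0, 0],
  [1, 0, 0, -1, 0, 1, -1, 0, 1, 0, 0, -1, 0, 1, -1, 0, 0, 1, -1, 0, 1, 0, 0, -1, 0, 0, 0],
  [1, 0, 0, -1, 0, -1, 1, 0, 0, 1, -1, 0, 1, 0, 0, -1, 1, 0, 0, -1, 0, 1, -1, 0, 0, 0, 0],
  [1, 0, 0, -1, -1, 0, 0, 1, 0, 1, -1, 0, 0, 1, -1, 0, 0, 1, -1, 0, 0, 1, -1, 0, 0, 0, 0],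
  [0, 1, -1, 0, 1, 0, 0, -1, 1, 0, 0, -1, 0, -1, 1, 0, 1, 0, 0, -1, 0, -1, 1, 0, 0, 0, 0],
  [0, 1, -1, 0, 0, 1, -1, 0, 1, 0, 0, -1, -1, 0, 0, 1, 0, 1, -1, 0, 0, -1, 1, 0, 0, 0, 0],
  [0, 1, -1, 0, 0, -1, 1, 0, 0, 1, -1, 0, 0, -1, 1, 0, 1, 0, 0, -1, -1, 0, 0, 1, 0, 0, 0],
  [0, 1, -1, 0, -1, 0, 0, 1, 0, 1, -1, 0, -1, 0, 0, 1, 0, 1, -1, 0, -1, 0, 0, 1, 0, 0, 0],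
  [1, 0, 0, -1, 0, 0, 0, 0, 1, 1, 0, 0, 1, 1, 0, 0, 0, 0, -1, -1, 0, 0, -1, -1, 0, -1, 1],
  [0, 1, -1, 0, 0, 0, 0, 0, 1, 1, 0, 0, 0, 0, 1, 1, 0, 0, -1, -1, -1, -1, 0, 0, 0, -1, 1],
  [0, -1, 1, 0, 0, 0, 0, 0, 0, 0, 1, 1, 1, 1, 0, 0, -1, -1, 0, 0, 0, 0, -1, -1, 0, -1, 1],
  [-1, 0, 0, 1, 0, 0, 0, 0, 0, 0, 1, 1, 0, 0, 1, 1, -1, -1, 0, 0, -1, -1, 0, 0, 0, -1, 1],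
  [0, 0, 0, 0, 1, 0, 0, -1, 1, 0, 1, 0, 1, 0, 1, 0, 0, -1, 0, -1, 0, -1, 0, -1, 0, -1, 1],
  [0, 0, 0, 0, 0, 1, -1, 0, 1, 0, 1, 0, 0, 1, 0, 1, -1, 0, -1, 0, 0, -1, 0, -1, 0, -1, 1],
  [0, 0, 0, 0, 0, -1, 1, 0, 0, 1, 0, 1, 1, 0, 1, 0, 0, -1, 0, -1, -1, 0, -1, 0, 0, -1, 1],
  [0, 0, 0, 0, -1, 0, 0, 1, 0, 1, 0, 1, 0, 1, 0, 1, -1, 0, -1, 0, -1, 0, -1, 0, 0, -1, 1],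
  [0, 0, -1, -1, 0, 0, -1, -1, 1, 0, 0, -1, 0, 0, 0, 0, 1, 1, 0, 0, 1, 0, 1, 0, 1, 0, -1],
  [0, 0, -1, -1, -1, -1, 0, 0, 0, 1, -1, 0, 0, 0, 0, 0, 1, 1, 0, 0, 0, 1, 0, 1, 1, 0, -1],
  [-1, -1, 0, 0, 0, 0, -1, -1, 0, -1, 1, 0, 0, 0, 0, 0, 0, 0, 1, 1, 1, 0, 1, 0, 1, 0, -1],
  [-1, -1, 0, 0, -1, -1, 0, 0, -1, 0, 0, 1, 0, 0, 0, 0, 0, 0, 1, 1, 0, 1, 0, 1, 1, 0, -1],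
  [0, -1, 0, -1, 0, -1, 0, -1, 0, 0, 0, 0, 1, 0, 0, -1, 1, 0, 1, 0, 1, 1, 0, 0, 1, 0, -1],
  [0, -1, 0, -1, -1, 0, -1, 0, 0, 0, 0, 0, 0, 1, -1, 0, 0, 1, 0, 1, 1, 1, 0, 0, 1, 0, -1],
  [-1, 0, -1, 0, 0, -1, 0, -1, 0, 0, 0, 0, 0, -1, 1, 0, 1, 0, 1, 0, 0, 0, 1, 1, 1, 0, -1],
  [-1, 0, -1, 0, -1, 0, -1, 0, 0, 0, 0, 0, -1, 0, 0, 1, 0, 1, 0, 1, 0, 0, 1, 1, 1, 0, -1],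
  [1, 1, 0, 0, 1, 0, 1, 0, 0, 0, -1, -1, 0, -1, 0, -1, 1, 0, 0, -1, 0, 0, 0, 0, -1, 1, 0],
  [1, 1, 0, 0, 0, 1, 0, 1, 0, 0, -1, -1, -1, 0, -1, 0, 0, 1, -1, 0, 0, 0, 0, 0, -1, 1, 0],
  [0, 0, 1, 1, 1, 0, 1, 0, -1, -1, 0, 0, 0, -1, 0, -1, 0, -1, 1, 0, 0, 0, 0, 0, -1, 1, 0],
  [0, 0, 1, 1, 0, 1, 0, 1, -1, -1, 0, 0, -1, 0, -1, 0, -1, 0, 0, 1, 0, 0, 0, 0, -1, 1, 0],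
  [1, 0, 1, 0, 1, 1, 0, 0, 0, -1, 0, -1, 0, 0, -1, -1, 0, 0, 0, 0, 1, 0, 0, -1, -1, 1, 0],
  [1, 0, 1, 0, 0, 0, 1, 1, -1, 0, -1, 0, 0, 0, -1, -1, 0, 0, 0, 0, 0, 1, -1, 0, -1, 1, 0],
  [0, 1, 0, 1, 1, 1, 0, 0, 0, -1, 0, -1, -1, -1, 0, 0, 0, 0, 0, 0, 0, -1, 1, 0, -1, 1, 0],
  [0, 1, 0, 1, 0, 0, 1, 1, -1, 0, -1, 0, -1, -1, 0, 0, 0, 0, 0, 0, -1, 0, 0, 1, -1, 1, 0]]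

/-- The pairing of the weight `a` with the coroot `i`. -/
def mm (i : Fin 36) (a : Fin 27) : ℤ := (mL.getD i []).getD a 0

/-- table of the reflections acting on the weights -/
def sL : List (List ℕ) := [
  [2, 3, 0, 1, 4, 5, 6, 7, 10, 11, 8, 9, 12, 13, 14, 15, 18, 19, 16, 17, 20, 21, 22, 23, 24, 25, 26],
  [1, 0, 3, 2, 4, 5, 6, 7, 8, 9, 10, 11, 14, 15, 12, 13, 16, 17, 18, 19, 22, 23, 20, 21, 24, 25, 26],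
  [0, 1, 2, 3, 6, 7, 4, 5, 9, 8, 11, 10, 12, 13, 14, 15, 16, 17, 18, 19, 21, 20, 23, 22, 24, 25, 26],
  [0, 1, 2, 3, 5, 4, 7, 6, 8, 9, 10, 11, 13, 12, 15, 14, 17, 16, 19, 18, 20, 21, 22, 23, 24, 25, 26],
  [7, 1, 2, 4, 3, 5, 6, 0, 15, 9, 10, 12, 11, 13, 14, 8, 23, 17, 18, 20, 19, 21, 22, 16, 24, 25, 26],
  [6, 1, 2, 5, 4, 3, 0, 7, 14, 9, 10, 13, 12, 11, 8, 15, 16, 23, 20, 19, 18, 21, 22, 17, 24, 25, 26],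
  [5, 1, 2, 6, 4, 0, 3, 7, 8, 15, 12, 11, 10, 13, 14, 9, 22, 17, 18, 21, 20, 19, 16, 23, 24, 25, 26],
  [4, 1, 2, 7, 0, 5, 6, 3, 8, 14, 13, 11, 12, 10, 9, 15, 16, 22, 21, 19, 20, 18, 17, 23, 24, 25, 26],
  [0, 7, 4, 3, 2, 5, 6, 1, 13, 9, 10, 14, 12, 8, 11, 15, 21, 17, 18, 22, 20, 16, 19, 23, 24, 25, 26],
  [0, 6, 5, 3, 4, 2, 1, 7, 12, 9, 10, 15, 8, 13, 14, 11, 16, 21, 22, 19, 20, 17, 18, 23, 24, 25, 26],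
  [0, 5, 6, 3, 4, 1, 2, 7, 8, 13, 14, 11, 12, 9, 10, 15, 20, 17, 18, 23, 16, 21, 22, 19, 24, 25, 26],
  [0, 4, 7, 3, 1, 5, 6, 2, 8, 12, 15, 11, 9, 13, 14, 10, 16, 20, 23, 19, 17, 21, 22, 18, 24, 25, 26],
  [25, 1, 2, 26, 4, 5, 6, 7, 22, 23, 10, 11, 18, 19, 14, 15, 16, 17, 12, 13, 20, 21, 8, 9, 24, 0, 3],
  [0, 25, 26, 3, 4, 5, 6, 7, 20, 21, 10, 11, 12, 13, 18, 19, 16, 17, 14, 15, 8, 9, 22, 23, 24, 1, 2],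
  [0, 26, 25, 3, 4, 5, 6, 7, 8, 9, 22, 23, 16, 17, 14, 15, 12, 13, 18, 19, 20, 21, 10, 11, 24, 2, 1],
  [26, 1, 2, 25, 4, 5, 6, 7, 8, 9, 20, 21, 12, 13, 16, 17, 14, 15, 18, 19, 10, 11, 22, 23, 24, 3, 0],
  [0, 1, 2, 3, 25, 5, 6, 26, 17, 9, 19, 11, 21, 13, 23, 15, 16, 8, 18, 10, 20, 12, 22, 14, 24, 4, 7],
  [0, 1, 2, 3, 4, 25, 26, 7, 16, 9, 18, 11, 12, 21, 14, 23, 8, 17, 10, 19, 20, 13, 22, 15, 24, 5, 6],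
  [0, 1, 2, 3, 4, 26, 25, 7, 8, 17, 10, 19, 20, 13, 22, 15, 16, 9, 18, 11, 12, 21, 14, 23, 24, 6, 5],
  [0, 1, 2, 3, 26, 5, 6, 25, 8, 16, 10, 18, 12, 20, 14, 22, 9, 17, 11, 19, 13, 21, 15, 23, 24, 7, 4],
  [0, 1, 20, 22, 4, 5, 16, 17, 26, 9, 10, 24, 12, 13, 14, 15, 6, 7, 18, 19, 2, 21, 3, 23, 11, 25, 8],
  [0, 1, 21, 23, 16, 17, 6, 7, 8, 26, 24, 11, 12, 13, 14, 15, 4, 5, 18, 19, 20, 2, 22, 3, 10, 25, 9],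
  [20, 22, 2, 3, 4, 5, 18, 19, 8, 24, 26, 11, 12, 13, 14, 15, 16, 17, 6, 7, 0, 21, 1, 23, 9, 25, 10],
  [21, 23, 2, 3, 18, 19, 6, 7, 24, 9, 10, 26, 12, 13, 14, 15, 16, 17, 4, 5, 20, 0, 22, 1, 8, 25, 11],
  [0, 16, 2, 18, 4, 20, 6, 21, 8, 9, 10, 11, 26, 13, 14, 24, 1, 17, 3, 19, 5, 7, 22, 23, 15, 25, 12],
  [0, 17, 2, 19, 20, 5, 21, 7, 8, 9, 10, 11, 12, 26, 24, 15, 16, 1, 18, 3, 4, 6, 22, 23, 14, 25, 13],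
  [16, 1, 18, 3, 4, 22, 6, 23, 8, 9, 10, 11, 12, 24, 26, 15, 0, 17, 2, 19, 20, 21, 5, 7, 13, 25, 14],
  [17, 1, 19, 3, 22, 5, 23, 7, 8, 9, 10, 11, 24, 13, 14, 26, 16, 0, 18, 2, 20, 21, 4, 6, 12, 25, 15],
  [13, 15, 2, 3, 10, 5, 11, 7, 8, 9, 4, 6, 12, 0, 14, 1, 24, 17, 18, 25, 20, 21, 22, 23, 16, 19, 26],
  [12, 14, 2, 3, 4, 10, 6, 11, 8, 9, 5, 7, 0, 13, 1, 15, 16, 24, 25, 19, 20, 21, 22, 23, 17, 18, 26],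
  [0, 1, 13, 15, 8, 5, 9, 7, 4, 6, 10, 11, 12, 2, 14, 3, 16, 25, 24, 19, 20, 21, 22, 23, 18, 17, 26],
  [0, 1, 12, 14, 4, 8, 6, 9, 5, 7, 10, 11, 2, 13, 3, 15, 25, 17, 18, 24, 20, 21, 22, 23, 19, 16, 26],
  [9, 1, 11, 3, 14, 15, 6, 7, 8, 0, 10, 2, 12, 13, 4, 5, 16, 17, 18, 19, 24, 21, 22, 25, 20, 23, 26],
  [8, 1, 10, 3, 4, 5, 14, 15, 0, 9, 2, 11, 12, 13, 6, 7, 16, 17, 18, 19, 20, 24, 25, 23, 21, 22, 26],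
  [0, 9, 2, 11, 12, 13, 6, 7, 8, 1, 10, 3, 4, 5, 14, 15, 16, 17, 18, 19, 20, 25, 24, 23, 22, 21, 26],
  [0, 8, 2, 10, 4, 5, 12, 13, 1, 9, 3, 11, 6, 7, 14, 15, 16, 17, 18, 19, 25, 21, 22, 24, 23, 20, 26]]

/-- The reflection `i` acting on the (indices of the) weights. -/
def sT (i : Fin 36) (a : Fin 27) : Fin 27 := Fin.ofNat 27 ((sL.getD i []).getD a 0)

/-- tables with `rho i = wt (aT i) - wt (bT i)` -/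
def aL : List ℕ := [0, 0, 4, 4, 0, 0, 0, 0, 1, 1, 1, 1, 0, 1, 2, 3, 4, 5, 6, 7, 8, 9, 10, 11, 12, 13, 14, 15, 0, 0, 2, 2, 0, 0, 1, 1]
/-- see `aL` -/
def bL : List ℕ := [2, 1, 6, 5, 7, 6, 5, 4, 7, 6, 5, 4, 25, 25, 25, 25, 25, 25, 25, 25, 26, 26, 26, 26, 26, 26, 26, 26, 13, 12, 13, 12, 9, 8, 9, 8]
/-- first weight of the root `i` -/
def aT (i : Fin 36) : Fin 27 := Fin.ofNat 27 (aL.getD i 0)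
/-- second weight of the root `i` -/
def bT (i : Fin 36) : Fin 27 := Fin.ofNat 27 (bL.getD i 0)

/-- table of `gg` -/
def gL : List (List ℤ) := [
  [2, 1, 1, 0, 1, 1, 1, 1, 1, 1, 0, 0, 1, 1, 0, 0, 1, 1, 0, 0, 1, 1, 0, 0, 0, 1, 1],
  [1, 2, 0, 1, 1, 1, 1, 1, 1, 1, 0, 0, 0, 0, 1, 1, 1, 1, 0, 0, 0, 0, 1, 1, 0, 1, 1],
  [1, 0, 2, 1, 1, 1, 1, 1, 0, 0, 1, 1, 1, 1, 0, 0, 0, 0, 1, 1, 1, 1, 0, 0, 0, 1, 1],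
  [0, 1, 1, 2, 1, 1, 1, 1, 0, 0, 1, 1, 0, 0, 1, 1, 0, 0, 1, 1, 0, 0, 1, 1, 0, 1, 1],
  [1, 1, 1, 1, 2, 1, 1, 0, 1, 0, 1, 0, 1, 0, 1, 0, 1, 0, 1, 0, 1, 0, 1, 0, 0, 1, 1],
  [1, 1, 1, 1, 1, 2, 0, 1, 1, 0, 1, 0, 0, 1, 0, 1, 0, 1, 0, 1, 1, 0, 1, 0, 0, 1, 1],
  [1, 1, 1, 1, 1, 0, 2, 1, 0, 1, 0, 1, 1, 0, 1, 0, 1, 0, 1, 0, 0, 1, 0, 1, 0, 1, 1],
  [1, 1, 1, 1, 0, 1, 1, 2, 0, 1, 0, 1, 0, 1, 0, 1, 0, 1, 0, 1, 0, 1, 0, 1, 0, 1, 1],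
  [1, 1, 0, 0, 1, 1, 0, 0, 2, 1, 1, 0, 1, 1, 1, 1, 1, 1, 0, 0, 1, 0, 1, 0, 1, 0, 1],
  [1, 1, 0, 0, 0, 0, 1, 1, 1, 2, 0, 1, 1, 1, 1, 1, 1, 1, 0, 0, 0, 1, 0, 1, 1, 0, 1],
  [0, 0, 1, 1, 1, 1, 0, 0, 1, 0, 2, 1, 1, 1, 1, 1, 0, 0, 1, 1, 1, 0, 1, 0, 1, 0, 1],
  [0, 0, 1, 1, 0, 0, 1, 1, 0, 1, 1, 2, 1, 1, 1, 1, 0, 0, 1, 1, 0, 1, 0, 1, 1, 0, 1],
  [1, 0, 1, 0, 1, 0, 1, 0, 1, 1, 1, 1, 2, 1, 1, 0, 1, 0, 1, 0, 1, 1, 0, 0, 1, 0, 1],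
  [1, 0, 1, 0, 0, 1, 0, 1, 1, 1, 1, 1, 1, 2, 0, 1, 0, 1, 0, 1, 1, 1, 0, 0, 1, 0, 1],
  [0, 1, 0, 1, 1, 0, 1, 0, 1, 1, 1, 1, 1, 0, 2, 1, 1, 0, 1, 0, 0, 0, 1, 1, 1, 0, 1],
  [0, 1, 0, 1, 0, 1, 0, 1, 1, 1, 1, 1, 0, 1, 1, 2, 0, 1, 0, 1, 0, 0, 1, 1, 1, 0, 1],
  [1, 1, 0, 0, 1, 0, 1, 0, 1, 1, 0, 0, 1, 0, 1, 0, 2, 1, 1, 0, 1, 1, 1, 1, 1, 1, 0],
  [1, 1, 0, 0, 0, 1, 0, 1, 1, 1, 0, 0, 0, 1, 0, 1, 1, 2, 0, 1, 1, 1, 1, 1, 1, 1, 0],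
  [0, 0, 1, 1, 1, 0, 1, 0, 0, 0, 1, 1, 1, 0, 1, 0, 1, 0, 2, 1, 1, 1, 1, 1, 1, 1, 0],
  [0, 0, 1, 1, 0, 1, 0, 1, 0, 0, 1, 1, 0, 1, 0, 1, 0, 1, 1, 2, 1, 1, 1, 1, 1, 1, 0],
  [1, 0, 1, 0, 1, 1, 0, 0, 1, 0, 1, 0, 1, 1, 0, 0, 1, 1, 1, 1, 2, 1, 1, 0, 1, 1, 0],
  [1, 0, 1, 0, 0, 0, 1, 1, 0, 1, 0, 1, 1, 1, 0, 0, 1, 1, 1, 1, 1, 2, 0, 1, 1, 1, 0],
  [0, 1, 0, 1, 1, 1, 0, 0, 1, 0, 1, 0, 0, 0, 1, 1, 1, 1, 1, 1, 1, 0, 2, 1, 1, 1, 0],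
  [0, 1, 0, 1, 0, 0, 1, 1, 0, 1, 0, 1, 0, 0, 1, 1, 1, 1, 1, 1, 0, 1, 1, 2, 1, 1, 0],
  [0, 0, 0, 0, 0, 0, 0, 0, 1, 1, 1, 1, 1, 1, 1, 1, 1, 1, 1, 1, 1, 1, 1, 1, 2, 0, 0],
  [1, 1, 1, 1, 1, 1, 1, 1, 0, 0, 0, 0, 0, 0, 0, 0, 1, 1, 1, 1, 1, 1, 1, 1, 0, 2, 0],
  [1, 1, 1, 1, 1, 1, 1, 1, 1, 1, 1, 1, 1, 1, 1, 1, 0, 0, 0, 0, 0, 0, 0, 0, 0, 0, 2]]

/-- `gg a b = 2` if `a = b`, `0` if `a`, `b` are collinear (`wt a + wt b` is minus a weight),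
and `1` otherwise (`wt a - wt b` is a root). -/
def gg (a b : Fin 27) : ℤ := (gL.getD a []).getD b 0

/-- table of root indices of pairs of weights -/
def ixL : List (List ℕ) := [
  [0, 1, 0, 0, 7, 6, 5, 4, 33, 32, 0, 0, 29, 28, 0, 0, 26, 27, 0, 0, 22, 23, 0, 0, 0, 12, 15],
  [1, 0, 0, 0, 11, 10, 9, 8, 35, 34, 0, 0, 0, 0, 29, 28, 24, 25, 0, 0, 0, 0, 22, 23, 0, 13, 14],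
  [0, 0, 0, 1, 8, 9, 10, 11, 0, 0, 33, 32, 31, 30, 0, 0, 0, 0, 26, 27, 20, 21, 0, 0, 0, 14, 13],
  [0, 0, 1, 0, 4, 5, 6, 7, 0, 0, 35, 34, 0, 0, 31, 30, 0, 0, 24, 25, 0, 0, 20, 21, 0, 15, 12],
  [7, 11, 8, 4, 0, 3, 2, 0, 30, 0, 28, 0, 34, 0, 32, 0, 21, 0, 23, 0, 25, 0, 27, 0, 0, 16, 19],
  [6, 10, 9, 5, 3, 0, 0, 2, 31, 0, 29, 0, 0, 34, 0, 32, 0, 21, 0, 23, 24, 0, 26, 0, 0, 17, 18],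
  [5, 9, 10, 6, 2, 0, 0, 3, 0, 30, 0, 28, 35, 0, 33, 0, 20, 0, 22, 0, 0, 25, 0, 27, 0, 18, 17],
  [4, 8, 11, 7, 0, 2, 3, 0, 0, 31, 0, 29, 0, 35, 0, 33, 0, 20, 0, 22, 0, 24, 0, 26, 0, 19, 16],
  [33, 35, 0, 0, 30, 31, 0, 0, 0, 2, 0, 0, 9, 8, 5, 4, 17, 16, 0, 0, 13, 0, 12, 0, 23, 0, 20],
  [32, 34, 0, 0, 0, 0, 30, 31, 2, 0, 0, 0, 11, 10, 7, 6, 19, 18, 0, 0, 0, 13, 0, 12, 22, 0, 21],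
  [0, 0, 33, 35, 28, 29, 0, 0, 0, 0, 0, 2, 6, 7, 10, 11, 0, 0, 17, 16, 15, 0, 14, 0, 21, 0, 22],
  [0, 0, 32, 34, 0, 0, 28, 29, 0, 0, 2, 0, 4, 5, 8, 9, 0, 0, 19, 18, 0, 15, 0, 14, 20, 0, 23],
  [29, 0, 31, 0, 34, 0, 35, 0, 9, 11, 6, 4, 0, 3, 1, 0, 14, 0, 12, 0, 18, 16, 0, 0, 27, 0, 24],
  [28, 0, 30, 0, 0, 34, 0, 35, 8, 10, 7, 5, 3, 0, 0, 1, 0, 14, 0, 12, 19, 17, 0, 0, 26, 0, 25],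
  [0, 29, 0, 31, 32, 0, 33, 0, 5, 7, 10, 8, 1, 0, 0, 3, 15, 0, 13, 0, 0, 0, 18, 16, 25, 0, 26],
  [0, 28, 0, 30, 0, 32, 0, 33, 4, 6, 11, 9, 0, 1, 3, 0, 0, 15, 0, 13, 0, 0, 19, 17, 24, 0, 27],
  [26, 24, 0, 0, 21, 0, 20, 0, 17, 19, 0, 0, 14, 0, 15, 0, 0, 3, 0, 0, 10, 8, 6, 4, 28, 31, 0],
  [27, 25, 0, 0, 0, 21, 0, 20, 16, 18, 0, 0, 0, 14, 0, 15, 3, 0, 0, 0, 11, 9, 7, 5, 29, 30, 0],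
  [0, 0, 26, 24, 23, 0, 22, 0, 0, 0, 17, 19, 12, 0, 13, 0, 0, 0, 0, 3, 5, 7, 9, 11, 30, 29, 0],
  [0, 0, 27, 25, 0, 23, 0, 22, 0, 0, 16, 18, 0, 12, 0, 13, 0, 0, 3, 0, 4, 6, 8, 10, 31, 28, 0],
  [22, 0, 20, 0, 25, 24, 0, 0, 13, 0, 15, 0, 18, 19, 0, 0, 10, 11, 5, 4, 0, 2, 1, 0, 32, 35, 0],
  [23, 0, 21, 0, 0, 0, 25, 24, 0, 13, 0, 15, 16, 17, 0, 0, 8, 9, 7, 6, 2, 0, 0, 1, 33, 34, 0],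
  [0, 22, 0, 20, 27, 26, 0, 0, 12, 0, 14, 0, 0, 0, 18, 19, 6, 7, 9, 8, 1, 0, 0, 2, 34, 33, 0],
  [0, 23, 0, 21, 0, 0, 27, 26, 0, 12, 0, 14, 0, 0, 16, 17, 4, 5, 11, 10, 0, 1, 2, 0, 35, 32, 0],
  [0, 0, 0, 0, 0, 0, 0, 0, 23, 22, 21, 20, 27, 26, 25, 24, 28, 29, 30, 31, 32, 33, 34, 35, 0, 0, 0],
  [12, 13, 14, 15, 16, 17, 18, 19, 0, 0, 0, 0, 0, 0, 0, 0, 31, 30, 29, 28, 35, 34, 33, 32, 0, 0, 0],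
  [15, 14, 13, 12, 19, 18, 17, 16, 20, 21, 22, 23, 24, 25, 26, 27, 0, 0, 0, 0, 0, 0, 0, 0, 0, 0, 0]]
/-- the index of the root `±(wt a - wt b)` if `gg a b = 1` -/
def ix (a b : Fin 27) : Fin 36 := Fin.ofNat 36 ((ixL.getD a []).getD b 0)

/-- table of signs -/
def sgL : List (List ℤ) := [
  [0, 1, 1, 0, 1, 1, 1, 1, 1, 1, 0, 0, 1, 1, 0, 0, -1, -1, 0, 0, -1, -1, 0, 0, 0, 1, -1],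
  [-1, 0, 0, 1, 1, 1, 1, 1, 1, 1, 0, 0, 0, 0, 1, 1, -1, -1, 0, 0, 0, 0, -1, -1, 0, 1, -1],
  [-1, 0, 0, 1, -1, -1, -1, -1, 0, 0, 1, 1, 1, 1, 0, 0, 0, 0, -1, -1, -1, -1, 0, 0, 0, 1, -1],
  [0, -1, -1, 0, -1, -1, -1, -1, 0, 0, 1, 1, 0, 0, 1, 1, 0, 0, -1, -1, 0, 0, -1, -1, 0, 1, -1],
  [-1, -1, 1, 1, 0, 1, 1, 0, 1, 0, 1, 0, 1, 0, 1, 0, -1, 0, -1, 0, -1, 0, -1, 0, 0, 1, -1],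
  [-1, -1, 1, 1, -1, 0, 0, 1, 1, 0, 1, 0, 0, 1, 0, 1, 0, -1, 0, -1, -1, 0, -1, 0, 0, 1, -1],
  [-1, -1, 1, 1, -1, 0, 0, 1, 0, 1, 0, 1, 1, 0, 1, 0, -1, 0, -1, 0, 0, -1, 0, -1, 0, 1, -1],
  [-1, -1, 1, 1, 0, -1, -1, 0, 0, 1, 0, 1, 0, 1, 0, 1, 0, -1, 0, -1, 0, -1, 0, -1, 0, 1, -1],
  [-1, -1, 0, 0, -1, -1, 0, 0, 0, 1, 1, 0, 1, 1, 1, 1, 1, 1, 0, 0, 1, 0, 1, 0, -1, 0, 1],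
  [-1, -1, 0, 0, 0, 0, -1, -1, -1, 0, 0, 1, 1, 1, 1, 1, 1, 1, 0, 0, 0, 1, 0, 1, -1, 0, 1],
  [0, 0, -1, -1, -1, -1, 0, 0, -1, 0, 0, 1, -1, -1, -1, -1, 0, 0, 1, 1, 1, 0, 1, 0, -1, 0, 1],
  [0, 0, -1, -1, 0, 0, -1, -1, 0, -1, -1, 0, -1, -1, -1, -1, 0, 0, 1, 1, 0, 1, 0, 1, -1, 0, 1],
  [-1, 0, -1, 0, -1, 0, -1, 0, -1, -1, 1, 1, 0, 1, 1, 0, 1, 0, 1, 0, 1, 1, 0, 0, -1, 0, 1],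
  [-1, 0, -1, 0, 0, -1, 0, -1, -1, -1, 1, 1, -1, 0, 0, 1, 0, 1, 0, 1, 1, 1, 0, 0, -1, 0, 1],
  [0, -1, 0, -1, -1, 0, -1, 0, -1, -1, 1, 1, -1, 0, 0, 1, 1, 0, 1, 0, 0, 0, 1, 1, -1, 0, 1],
  [0, -1, 0, -1, 0, -1, 0, -1, -1, -1, 1, 1, 0, -1, -1, 0, 0, 1, 0, 1, 0, 0, 1, 1, -1, 0, 1],
  [1, 1, 0, 0, 1, 0, 1, 0, -1, -1, 0, 0, -1, 0, -1, 0, 0, 1, 1, 0, 1, 1, 1, 1, 1, -1, 0],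
  [1, 1, 0, 0, 0, 1, 0, 1, -1, -1, 0, 0, 0, -1, 0, -1, -1, 0, 0, 1, 1, 1, 1, 1, 1, -1, 0],
  [0, 0, 1, 1, 1, 0, 1, 0, 0, 0, -1, -1, -1, 0, -1, 0, -1, 0, 0, 1, -1, -1, -1, -1, 1, -1, 0],
  [0, 0, 1, 1, 0, 1, 0, 1, 0, 0, -1, -1, 0, -1, 0, -1, 0, -1, -1, 0, -1, -1, -1, -1, 1, -1, 0],
  [1, 0, 1, 0, 1, 1, 0, 0, -1, 0, -1, 0, -1, -1, 0, 0, -1, -1, 1, 1, 0, 1, 1, 0, 1, -1, 0],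
  [1, 0, 1, 0, 0, 0, 1, 1, 0, -1, 0, -1, -1, -1, 0, 0, -1, -1, 1, 1, -1, 0, 0, 1, 1, -1, 0],
  [0, 1, 0, 1, 1, 1, 0, 0, -1, 0, -1, 0, 0, 0, -1, -1, -1, -1, 1, 1, -1, 0, 0, 1, 1, -1, 0],
  [0, 1, 0, 1, 0, 0, 1, 1, 0, -1, 0, -1, 0, 0, -1, -1, -1, -1, 1, 1, 0, -1, -1, 0, 1, -1, 0],
  [0, 0, 0, 0, 0, 0, 0, 0, 1, 1, 1, 1, 1, 1, 1, 1, -1, -1, -1, -1, -1, -1, -1, -1, 0, 0, 0],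
  [-1, -1, -1, -1, -1, -1, -1, -1, 0, 0, 0, 0, 0, 0, 0, 0, 1, 1, 1, 1, 1, 1, 1, 1, 0, 0, 0],
  [1, 1, 1, 1, 1, 1, 1, 1, -1, -1, -1, -1, -1, -1, -1, -1, 0, 0, 0, 0, 0, 0, 0, 0, 0, 0, 0]]
/-- the sign with `wt a - wt b = sg a b * rho (ix a b)` if `gg a b = 1` -/
def sg (a b : Fin 27) : ℤ := (sgL.getD a []).getD b 0

/-- table of the action of the reflections on the positive roots up to sign -/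
def riL : List (List ℕ) := [
  [0, 1, 2, 3, 11, 10, 9, 8, 7, 6, 5, 4, 14, 15, 12, 13, 16, 17, 18, 19, 22, 23, 20, 21, 24, 25, 26, 27, 30, 31, 28, 29, 32, 33, 34, 35],
  [0, 1, 2, 3, 8, 9, 10, 11, 4, 5, 6, 7, 13, 12, 15, 14, 16, 17, 18, 19, 20, 21, 22, 23, 26, 27, 24, 25, 28, 29, 30, 31, 34, 35, 32, 33],
  [0, 1, 2, 3, 6, 7, 4, 5, 10, 11, 8, 9, 12, 13, 14, 15, 18, 19, 16, 17, 21, 20, 23, 22, 24, 25, 26, 27, 28, 29, 30, 31, 33, 32, 35, 34],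
  [0, 1, 2, 3, 5, 4, 7, 6, 9, 8, 11, 10, 12, 13, 14, 15, 17, 16, 19, 18, 20, 21, 22, 23, 25, 24, 27, 26, 29, 28, 31, 30, 32, 33, 34, 35],
  [11, 8, 6, 5, 4, 3, 2, 7, 1, 9, 10, 0, 19, 13, 14, 16, 15, 17, 18, 12, 27, 21, 22, 24, 23, 25, 26, 20, 35, 29, 30, 32, 31, 33, 34, 28],
  [10, 9, 7, 4, 3, 5, 6, 2, 8, 1, 0, 11, 18, 13, 14, 17, 16, 15, 12, 19, 26, 21, 22, 25, 24, 23, 20, 27, 28, 35, 32, 31, 30, 33, 34, 29],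
  [9, 10, 4, 7, 2, 5, 6, 3, 8, 0, 1, 11, 17, 13, 14, 18, 16, 12, 15, 19, 20, 27, 24, 23, 22, 25, 26, 21, 34, 29, 30, 33, 32, 31, 28, 35],
  [8, 11, 5, 6, 4, 2, 3, 7, 0, 9, 10, 1, 16, 13, 14, 19, 12, 17, 18, 15, 20, 26, 25, 23, 24, 22, 21, 27, 28, 34, 33, 31, 32, 30, 29, 35],
  [7, 4, 10, 9, 1, 5, 6, 0, 8, 3, 2, 11, 12, 19, 16, 15, 14, 17, 18, 13, 25, 21, 22, 26, 24, 20, 23, 27, 33, 29, 30, 34, 32, 28, 31, 35],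
  [6, 5, 11, 8, 4, 1, 0, 7, 3, 9, 10, 2, 12, 18, 17, 15, 16, 14, 13, 19, 24, 21, 22, 27, 20, 25, 26, 23, 28, 33, 34, 31, 32, 29, 30, 35],
  [5, 6, 8, 11, 4, 0, 1, 7, 2, 9, 10, 3, 12, 17, 18, 15, 16, 13, 14, 19, 20, 25, 26, 23, 24, 21, 22, 27, 32, 29, 30, 35, 28, 33, 34, 31],
  [4, 7, 9, 10, 0, 5, 6, 1, 8, 2, 3, 11, 12, 16, 19, 15, 13, 17, 18, 14, 20, 24, 27, 23, 21, 25, 26, 22, 28, 32, 35, 31, 29, 33, 34, 30],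
  [14, 13, 2, 3, 19, 18, 17, 16, 8, 9, 10, 11, 12, 1, 0, 15, 7, 6, 5, 4, 20, 21, 35, 34, 24, 25, 31, 30, 28, 29, 27, 26, 32, 33, 23, 22],
  [15, 12, 2, 3, 4, 5, 6, 7, 19, 18, 17, 16, 1, 13, 14, 0, 11, 10, 9, 8, 20, 21, 33, 32, 31, 30, 26, 27, 28, 29, 25, 24, 23, 22, 34, 35],
  [12, 15, 2, 3, 4, 5, 6, 7, 16, 17, 18, 19, 0, 13, 14, 1, 8, 9, 10, 11, 35, 34, 22, 23, 24, 25, 29, 28, 27, 26, 30, 31, 32, 33, 21, 20],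
  [13, 14, 2, 3, 16, 17, 18, 19, 8, 9, 10, 11, 12, 0, 1, 15, 4, 5, 6, 7, 33, 32, 22, 23, 29, 28, 26, 27, 25, 24, 30, 31, 21, 20, 34, 35],
  [0, 1, 18, 17, 15, 5, 6, 12, 14, 9, 10, 13, 7, 11, 8, 4, 16, 3, 2, 19, 20, 31, 22, 29, 24, 35, 26, 33, 28, 23, 30, 21, 32, 27, 34, 25],
  [0, 1, 19, 16, 4, 15, 12, 7, 8, 14, 13, 11, 6, 10, 9, 5, 3, 17, 18, 2, 20, 30, 22, 28, 35, 25, 33, 27, 23, 29, 21, 31, 32, 26, 34, 24],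
  [0, 1, 16, 19, 4, 12, 15, 7, 8, 13, 14, 11, 5, 9, 10, 6, 2, 17, 18, 3, 31, 21, 29, 23, 24, 34, 26, 32, 28, 22, 30, 20, 27, 33, 25, 35],
  [0, 1, 17, 18, 12, 5, 6, 15, 13, 9, 10, 14, 4, 8, 11, 7, 16, 2, 3, 19, 30, 21, 28, 23, 34, 25, 32, 27, 22, 29, 20, 31, 26, 33, 24, 35],
  [22, 1, 21, 3, 27, 26, 6, 7, 25, 24, 10, 11, 12, 13, 35, 33, 16, 17, 31, 30, 20, 2, 0, 23, 9, 8, 5, 4, 28, 29, 19, 18, 32, 15, 34, 14],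
  [23, 1, 20, 3, 4, 5, 27, 26, 8, 9, 25, 24, 12, 13, 34, 32, 31, 30, 18, 19, 2, 21, 22, 0, 11, 10, 7, 6, 28, 29, 17, 16, 15, 33, 14, 35],
  [20, 1, 23, 3, 4, 5, 24, 25, 8, 9, 26, 27, 35, 33, 14, 15, 16, 17, 29, 28, 0, 21, 22, 2, 6, 7, 10, 11, 19, 18, 30, 31, 32, 13, 34, 12],
  [21, 1, 22, 3, 24, 25, 6, 7, 26, 27, 10, 11, 34, 32, 14, 15, 29, 28, 18, 19, 20, 0, 2, 23, 4, 5, 8, 9, 17, 16, 30, 31, 13, 33, 12, 35],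
  [0, 26, 2, 25, 23, 5, 22, 7, 8, 20, 10, 21, 12, 31, 14, 29, 16, 35, 18, 34, 9, 11, 6, 4, 24, 3, 1, 27, 28, 15, 30, 13, 32, 33, 19, 17],
  [0, 27, 2, 24, 4, 23, 6, 22, 20, 9, 21, 11, 12, 30, 14, 28, 35, 17, 34, 19, 8, 10, 7, 5, 3, 25, 26, 1, 15, 29, 13, 31, 32, 33, 18, 16],
  [0, 24, 2, 27, 4, 20, 6, 21, 23, 9, 22, 11, 31, 13, 29, 15, 16, 33, 18, 32, 5, 7, 10, 8, 1, 25, 26, 3, 28, 14, 30, 12, 19, 17, 34, 35],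
  [0, 25, 2, 26, 20, 5, 21, 7, 8, 23, 10, 22, 30, 13, 28, 15, 33, 17, 32, 19, 4, 6, 11, 9, 24, 1, 3, 27, 14, 29, 12, 31, 18, 16, 34, 35],
  [30, 1, 2, 29, 35, 5, 34, 7, 33, 9, 32, 11, 12, 13, 27, 25, 16, 23, 18, 22, 20, 21, 19, 17, 24, 15, 26, 14, 28, 3, 0, 31, 10, 8, 6, 4],
  [31, 1, 2, 28, 4, 35, 6, 34, 8, 33, 10, 32, 12, 13, 26, 24, 23, 17, 22, 19, 20, 21, 18, 16, 15, 25, 14, 27, 3, 29, 30, 0, 11, 9, 7, 5],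
  [28, 1, 2, 31, 4, 32, 6, 33, 8, 34, 10, 35, 27, 25, 14, 15, 16, 21, 18, 20, 19, 17, 22, 23, 24, 13, 26, 12, 0, 29, 30, 3, 5, 7, 9, 11],
  [29, 1, 2, 30, 32, 5, 33, 7, 34, 9, 35, 11, 26, 24, 14, 15, 21, 17, 20, 19, 18, 16, 22, 23, 13, 25, 12, 27, 28, 0, 3, 31, 4, 6, 8, 10],
  [0, 34, 33, 3, 31, 30, 6, 7, 8, 9, 28, 29, 12, 23, 14, 21, 16, 17, 27, 26, 20, 15, 22, 13, 24, 25, 19, 18, 10, 11, 5, 4, 32, 2, 1, 35],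
  [0, 35, 32, 3, 4, 5, 31, 30, 28, 29, 10, 11, 12, 22, 14, 20, 27, 26, 18, 19, 15, 21, 13, 23, 24, 25, 17, 16, 8, 9, 7, 6, 2, 33, 34, 1],
  [0, 32, 35, 3, 4, 5, 28, 29, 31, 30, 10, 11, 23, 13, 21, 15, 16, 17, 25, 24, 20, 14, 22, 12, 19, 18, 26, 27, 6, 7, 9, 8, 1, 33, 34, 2],
  [0, 33, 34, 3, 28, 29, 6, 7, 8, 9, 31, 30, 22, 13, 20, 15, 25, 24, 18, 19, 14, 21, 12, 23, 17, 16, 26, 27, 4, 5, 11, 10, 32, 1, 2, 35]]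
/-- the index of the root `± s_i (rho j)` -/
def ri (i j : Fin 36) : Fin 36 := Fin.ofNat 36 ((riL.getD i []).getD j 0)

/-- table of signs -/
def rsL : List (List ℤ) := [
  [-1, 1, 1, 1, -1, -1, -1, -1, -1, -1, -1, -1, 1, 1, 1, 1, 1, 1, 1, 1, 1, 1, 1, 1, 1, 1, 1, 1, 1, 1, 1, 1, 1, 1, 1, 1],
  [1, -1, 1, 1, 1, 1, 1, 1, 1, 1, 1, 1, 1, 1, 1, 1, 1, 1, 1, 1, 1, 1, 1, 1, 1, 1, 1, 1, 1, 1, 1, 1, 1, 1, 1, 1],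
  [1, 1, -1, 1, 1, 1, 1, 1, 1, 1, 1, 1, 1, 1, 1, 1, 1, 1, 1, 1, 1, 1, 1, 1, 1, 1, 1, 1, 1, 1, 1, 1, 1, 1, 1, 1],
  [1, 1, 1, -1, 1, 1, 1, 1, 1, 1, 1, 1, 1, 1, 1, 1, 1, 1, 1, 1, 1, 1, 1, 1, 1, 1, 1, 1, 1, 1, 1, 1, 1, 1, 1, 1],
  [1, -1, -1, -1, -1, -1, -1, 1, -1, 1, 1, 1, 1, 1, 1, 1, 1, 1, 1, 1, 1, 1, 1, 1, 1, 1, 1, 1, 1, 1, 1, 1, 1, 1, 1, 1],
  [1, -1, -1, 1, 1, -1, 1, -1, 1, -1, 1, 1, 1, 1, 1, 1, 1, 1, 1, 1, 1, 1, 1, 1, 1, 1, 1, 1, 1, 1, 1, 1, 1, 1, 1, 1],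
  [1, -1, 1, -1, 1, 1, -1, -1, 1, 1, -1, 1, 1, 1, 1, 1, 1, 1, 1, 1, 1, 1, 1, 1, 1, 1, 1, 1, 1, 1, 1, 1, 1, 1, 1, 1],
  [1, -1, 1, 1, 1, 1, 1, -1, 1, 1, 1, -1, 1, 1, 1, 1, 1, 1, 1, 1, 1, 1, 1, 1, 1, 1, 1, 1, 1, 1, 1, 1, 1, 1, 1, 1],
  [1, 1, -1, -1, 1, 1, 1, 1, -1, -1, -1, 1, 1, 1, 1, 1, 1, 1, 1, 1, 1, 1, 1, 1, 1, 1, 1, 1, 1, 1, 1, 1, 1, 1, 1, 1],
  [1, 1, -1, 1, 1, 1, 1, 1, 1, -1, 1, -1, 1, 1, 1, 1, 1, 1, 1, 1, 1, 1, 1, 1, 1, 1, 1, 1, 1, 1, 1, 1, 1, 1, 1, 1],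
  [1, 1, 1, -1, 1, 1, 1, 1, 1, 1, -1, -1, 1, 1, 1, 1, 1, 1, 1, 1, 1, 1, 1, 1, 1, 1, 1, 1, 1, 1, 1, 1, 1, 1, 1, 1],
  [1, 1, 1, 1, 1, 1, 1, 1, 1, 1, 1, -1, 1, 1, 1, 1, 1, 1, 1, 1, 1, 1, 1, 1, 1, 1, 1, 1, 1, 1, 1, 1, 1, 1, 1, 1],
  [-1, -1, 1, 1, -1, -1, -1, -1, 1, 1, 1, 1, -1, -1, -1, 1, -1, -1, -1, -1, 1, 1, -1, -1, 1, 1, -1, -1, 1, 1, -1, -1, 1, 1, -1, -1],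
  [-1, 1, 1, 1, 1, 1, 1, 1, -1, -1, -1, -1, 1, -1, 1, -1, -1, -1, -1, -1, 1, 1, -1, -1, -1, -1, 1, 1, 1, 1, -1, -1, -1, -1, 1, 1],
  [1, -1, 1, 1, 1, 1, 1, 1, 1, 1, 1, 1, 1, 1, -1, -1, 1, 1, 1, 1, -1, -1, 1, 1, 1, 1, -1, -1, -1, -1, 1, 1, 1, 1, -1, -1],
  [1, 1, 1, 1, 1, 1, 1, 1, 1, 1, 1, 1, 1, 1, 1, -1, 1, 1, 1, 1, -1, -1, 1, 1, -1, -1, 1, 1, -1, -1, 1, 1, -1, -1, 1, 1],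
  [1, 1, -1, -1, -1, 1, 1, 1, -1, 1, 1, 1, 1, 1, -1, -1, -1, -1, -1, 1, 1, -1, 1, -1, 1, -1, 1, -1, 1, -1, 1, -1, 1, -1, 1, -1],
  [1, 1, -1, 1, 1, -1, 1, 1, 1, -1, 1, 1, 1, 1, -1, -1, 1, -1, 1, -1, 1, -1, 1, -1, -1, 1, -1, 1, -1, 1, -1, 1, 1, -1, 1, -1],
  [1, 1, 1, -1, 1, 1, -1, 1, 1, 1, -1, 1, 1, 1, -1, -1, 1, 1, -1, -1, -1, 1, -1, 1, 1, -1, 1, -1, 1, -1, 1, -1, -1, 1, -1, 1],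
  [1, 1, 1, 1, 1, 1, 1, -1, 1, 1, 1, -1, 1, 1, -1, -1, 1, 1, 1, -1, -1, 1, -1, 1, -1, 1, -1, 1, -1, 1, -1, 1, -1, 1, -1, 1],
  [-1, 1, -1, 1, -1, -1, 1, 1, -1, -1, 1, 1, 1, 1, -1, -1, 1, 1, -1, -1, -1, -1, -1, 1, -1, -1, -1, -1, 1, 1, -1, -1, 1, -1, 1, -1],
  [-1, 1, 1, 1, 1, 1, -1, -1, 1, 1, -1, -1, 1, 1, -1, -1, -1, -1, 1, 1, 1, -1, 1, -1, -1, -1, -1, -1, 1, 1, -1, -1, -1, 1, -1, 1],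
  [1, 1, -1, 1, 1, 1, 1, 1, 1, 1, 1, 1, -1, -1, 1, 1, 1, 1, -1, -1, 1, 1, -1, -1, 1, 1, 1, 1, -1, -1, 1, 1, 1, -1, 1, -1],
  [1, 1, 1, 1, 1, 1, 1, 1, 1, 1, 1, 1, -1, -1, 1, 1, -1, -1, 1, 1, 1, 1, 1, -1, 1, 1, 1, 1, -1, -1, 1, 1, -1, 1, -1, 1],
  [1, -1, 1, -1, -1, 1, -1, 1, 1, 1, 1, 1, 1, -1, 1, -1, 1, -1, 1, -1, 1, 1, -1, -1, -1, -1, -1, 1, 1, -1, 1, -1, 1, 1, -1, -1],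
  [1, -1, 1, 1, 1, -1, 1, -1, 1, 1, 1, 1, 1, -1, 1, -1, -1, 1, -1, 1, 1, 1, -1, -1, 1, -1, 1, -1, -1, 1, -1, 1, 1, 1, -1, -1],
  [1, 1, 1, -1, 1, 1, 1, 1, -1, 1, -1, 1, -1, 1, -1, 1, 1, -1, 1, -1, 1, 1, -1, -1, 1, 1, -1, -1, 1, -1, 1, -1, -1, -1, 1, 1],
  [1, 1, 1, 1, 1, 1, 1, 1, 1, -1, 1, -1, -1, 1, -1, 1, -1, 1, -1, 1, 1, 1, -1, -1, 1, 1, 1, -1, -1, 1, -1, 1, -1, -1, 1, 1],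
  [-1, 1, 1, -1, -1, 1, -1, 1, -1, 1, -1, 1, 1, 1, -1, -1, 1, -1, 1, -1, 1, 1, -1, -1, 1, -1, 1, -1, -1, -1, -1, 1, -1, -1, -1, -1],
  [-1, 1, 1, 1, 1, -1, 1, -1, 1, -1, 1, -1, 1, 1, -1, -1, -1, 1, -1, 1, 1, 1, -1, -1, -1, 1, -1, 1, 1, -1, 1, -1, -1, -1, -1, -1],
  [1, 1, 1, -1, 1, 1, 1, 1, 1, 1, 1, 1, -1, -1, 1, 1, 1, -1, 1, -1, -1, -1, 1, 1, 1, -1, 1, -1, 1, 1, -1, -1, 1, 1, 1, 1],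
  [1, 1, 1, 1, 1, 1, 1, 1, 1, 1, 1, 1, -1, -1, 1, 1, -1, 1, -1, 1, -1, -1, 1, 1, -1, 1, -1, 1, 1, 1, 1, -1, 1, 1, 1, 1],
  [1, -1, -1, 1, -1, -1, 1, 1, 1, 1, 1, 1, 1, -1, 1, -1, 1, 1, -1, -1, 1, -1, 1, -1, 1, 1, -1, -1, 1, 1, -1, -1, -1, -1, -1, 1],
  [1, -1, 1, 1, 1, 1, -1, -1, 1, 1, 1, 1, 1, -1, 1, -1, -1, -1, 1, 1, -1, 1, -1, 1, 1, 1, -1, -1, 1, 1, -1, -1, 1, -1, 1, -1],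
  [1, 1, -1, 1, 1, 1, 1, 1, -1, -1, 1, 1, -1, 1, -1, 1, 1, 1, -1, -1, 1, -1, 1, -1, -1, -1, 1, 1, 1, 1, -1, -1, 1, 1, -1, -1],
  [1, 1, 1, 1, 1, 1, 1, 1, 1, 1, -1, -1, -1, 1, -1, 1, -1, -1, 1, 1, -1, 1, -1, 1, -1, -1, 1, 1, 1, 1, -1, -1, 1, 1, 1, -1]]
/-- the sign with `s_i (rho j) = rs i j * rho (ri i j)` -/
def rs (i j : Fin 36) : ℤ := (rsL.getD i []).getD j 0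

/-- table of twice the coroots -/
def kL : List (List ℤ) := [
  [2, 0, 0, 0, 0, 0],
  [0, 2, 0, 0, 0, 0],
  [0, 0, 2, 0, 0, 0],
  [0, 0, 0, 2, 0, 0],
  [1, 1, 1, 1, 0, 0],
  [1, 1, 1, -1, 0, 0],
  [1, 1, -1, 1, 0, 0],
  [1, 1, -1, -1, 0, 0],
  [1, -1, 1, 1, 0, 0],
  [1, -1, 1, -1, 0, 0],
  [1, -1, -1, 1, 0, 0],
  [1, -1, -1, -1, 0, 0],
  [1, 1, 0, 0, 0, 1],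
  [1, -1, 0, 0, 0, 1],
  [-1, 1, 0, 0, 0, 1],
  [-1, -1, 0, 0, 0, 1],
  [0, 0, 1, 1, 0, 1],
  [0, 0, 1, -1, 0, 1],
  [0, 0, -1, 1, 0, 1],
  [0, 0, -1, -1, 0, 1],
  [1, 0, 1, 0, -1, 0],
  [1, 0, -1, 0, -1, 0],
  [-1, 0, 1, 0, -1, 0],
  [-1, 0, -1, 0, -1, 0],
  [0, 1, 0, 1, -1, 0],
  [0, 1, 0, -1, -1, 0],
  [0, -1, 0, 1, -1, 0],
  [0, -1, 0, -1, -1, 0],
  [1, 0, 0, 1, 1, -1],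
  [1, 0, 0, -1, 1, -1],
  [-1, 0, 0, 1, 1, -1],
  [-1, 0, 0, -1, 1, -1],
  [0, 1, 1, 0, 1, -1],
  [0, 1, -1, 0, 1, -1],
  [0, -1, 1, 0, 1, -1],
  [0, -1, -1, 0, 1, -1]]

/-- twice the coroot `i` -/
def kap2 (i : Fin 36) (j : Fin 6) : ℤ := (kL.getD i []).getD j 0

/-- the Cartan pairing of the roots `i` and `j` -/
def cc (i j : Fin 36) : ℤ := mm i (aT j) - mm i (bT j)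

end Pool.Agent.Lib.MP_12adaf_nt.E6
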