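import Pool.Agent.Lib.MP_12adaf_ntE6.E00p

/-!
# `E₆`: facts about the tables, checked by the kernel
-/

namespace Pool.Agent.Lib.MP_12adaf_nt.E6

open Pk

/-! ### Checks of the packed tables -/

namespace Pk

/-- the check of `wt_sT` -/
noncomputable def wsC : Bool :=
  allB (fun i => allB (fun a => Nat.beq
    (Nat.add (Nat.add (w (s i a)) (Nat.mul (m i a) (o i))) 34905131040)
    (Nat.add (Nat.add (w a) (Nat.mul (m i a) 34905131040)) (o i))) 27) 36

theorem wsC_true : wsC = true := by decide +kernel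

/-- the check of `sT_sT` -/
noncomputable def ssC : Bool := allB (fun i => allB (fun a => Nat.beq (s i (s i a)) a) 27) 36

theorem ssC_true : ssC = true := by decide +kernel

/-- the check of `rho_ri`: `3 O + c R_i + e R_k = R_j + R_i + R_k + (c + e) O` -/
noncomputable def rrC : Bool :=
  allB (fun i => allB (fun j => Nat.beq
    (Nat.add (Nat.add (Nat.mul 3 34905131040) (Nat.mul (c i j) (o i)))
      (Nat.mul (e i j) (o (r i j))))
    (Nat.add (Nat.add (Nat.add (o j) (o i)) (o (r i j)))
      (Nat.mul (Nat.add (c i j) (e i j)) 34905131040))) 36) 36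

theorem rrC_true : rrC = true := by decide +kernel

/-- the check of `rs_sq` -/
noncomputable def esC : Bool :=
  allB (fun i => allB (fun j => disB (Nat.beq (e i j) 0) (Nat.beq (e i j) 2)) 36) 36

theorem esC_true : esC = true := by decide +kernel

/-- the check of `cc_cases` -/
noncomputable def ccC : Bool :=
  allB (fun i => allB (fun j => disB (conB (disB (Nat.beq (c i j) 1)
    (disB (Nat.beq (c i j) 0) (Nat.beq (c i j) 2))) (impB (Nat.beq i j) false))
    (conB (Nat.beq (c i j) 3) (Nat.beq i j))) 36) 36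

theorem ccC_true : ccC = true := by decide +kernel

/-- the checks of `ri_of_cc`, `cc_comm` and `ri_invol` -/
noncomputable def roC : Bool :=
  allB (fun i => allB (fun j => conB (impB (Nat.beq (c i j) 1) (Nat.beq (r i j) j))
    (conB (Nat.beq (c i j) (c j i)) (Nat.beq (r i (r i j)) j))) 36) 36

theorem roC_true : roC = true := by decide +kernel

/-- the check of `ri_ri` -/
noncomputable def rcC : Bool :=
  allB (fun i => allB (fun j => impB (disB (Nat.beq (c i j) 0) (Nat.beq (c i j) 2))
    (conB (Nat.beq (r (r i j) i) j) (conB (Nat.beq (r j (r i j)) i)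
      (disB (Nat.beq (c (r i j) i) 0) (Nat.beq (c (r i j) i) 2))))) 36) 36

theorem rcC_true : rcC = true := by decide +kernel

/-- the check of `sT_conj` -/
noncomputable def sjC : Bool :=
  allB (fun i => allB (fun j => allB (fun a =>
    Nat.beq (s i (s j (s i a))) (s (r i j) a)) 27) 36) 36

theorem sjC_true : sjC = true := by decide +kernel

/-- the check of `gg_comm` and `gg_cases` -/
noncomputable def gcC : Bool :=
  allB (fun a => allB (fun b => conB (Nat.beq (g a b) (g b a))
    (disB (conB (disB (Nat.beq (g a b) 0) (Nat.beq (g a b) 1)) (impB (Nat.beq a b) false))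
      (conB (Nat.beq (g a b) 2) (Nat.beq a b)))) 27) 27

theorem gcC_true : gcC = true := by decide +kernel

/-- a check of `gg_zero_iff` -/
noncomputable def gzC : Bool :=
  allB (fun a => allB (fun b => impB (Nat.beq (g a b) 1) (allB (fun d =>
    impB (Nat.beq (Nat.add (Nat.add (w a) (w b)) (w d)) (Nat.mul 3 34905131040)) false) 27)) 27) 27

theorem gzC_true : gzC = true := by decide +kernel

theorem t_eq : ∀ a b : Fin 27, gg a b = 0 →
    ∀ k, wt a k + wt b k + wt (Fin.ofNat 27 (t a b)) k = 0 := by decide +kernel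

/-- the check of `sg_sq` and `wt_sub`: `w a - w b = (h - 1) (o - O)` -/
noncomputable def hsC : Bool :=
  allB (fun a => allB (fun b => impB (Nat.beq (g a b) 1)
    (conB (disB (Nat.beq (h a b) 0) (Nat.beq (h a b) 2))
      (Nat.beq (Nat.add (Nat.add (w a) (Nat.mul (h a b) 34905131040)) (o (x a b)))
        (Nat.add (Nat.add (w b) (Nat.mul (h a b) (o (x a b)))) 34905131040)))) 27) 27

theorem hsC_true : hsC = true := by decide +kernel

/-- the check of `mm_eq` -/
noncomputable def meC : Bool :=
  allB (fun i => allB (fun a => Nat.beq (Nat.add (m i a) (g a (v i)))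
    (Nat.add (g a (u i)) 1)) 27) 36

theorem meC_true : meC = true := by decide +kernel

/-- the check of `mm_ix` -/
noncomputable def mxC : Bool :=
  allB (fun a => allB (fun b => impB (Nat.beq (g a b) 1) (allB (fun d => Nat.beq
    (Nat.add (Nat.add (g d a) (h a b)) (m (x a b) d))
    (Nat.add (Nat.add (g d b) (Nat.mul (h a b) (m (x a b) d))) 1)) 27)) 27) 27

theorem mxC_true : mxC = true := by decide +kernel

/-- the check of `mm_cases` -/
noncomputable def mcC : Bool :=
  allB (fun i => allB (fun a => impB (Nat.beq (m i a) 3) false) 27) 36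

theorem mcC_true : mcC = true := by decide +kernel

/-- the check of `sT_inj` -/
noncomputable def siC : Bool :=
  allB (fun i => allB (fun j => disB (Nat.beq i j) (anyB (fun a =>
    impB (Nat.beq (s i a) (s j a)) false) 27)) 36) 36

theorem siC_true : siC = true := by decide +kernel

theorem not_of {x : Bool} (h : impB x false = true) : x = true → False := fun h1 => by
  have := impB_spec h h1
  cases this

theorem mm_le (i : Fin 36) (a : Fin 27) : -1 ≤ mm i a ∧ mm i a ≤ 2 := by
  have h1 := m_eq i a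
  have h2 := m_le i a
  omega

theorem cc_le (i j : Fin 36) : -1 ≤ cc i j ∧ cc i j ≤ 2 := by
  have h1 := c_eq i j
  have h2 := c_le i j
  omega

theorem rs_le (i j : Fin 36) : -1 ≤ rs i j ∧ rs i j ≤ 2 := by
  have h1 := e_eq i j
  have h2 := e_le i j
  omega

theorem sg_le (a b : Fin 27) : -1 ≤ sg a b ∧ sg a b ≤ 2 := by
  have h1 := h_eq a b
  have h2 := h_le a b
  omega

theorem g_one {a b : Fin 27} (h : gg a b = 1) : Nat.beq (g a b) 1 = true := by
  have := g_eq a b
  rw [h] at this
  exact beq_of (by exact_mod_cast this.symm)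

theorem sq_one {z : ℤ} {n : ℕ} (h : z + 1 = n) (hn : n < 4) :
    z * z = 1 ↔ n = 0 ∨ n = 2 := by
  have h1 : z = n - 1 := by omega
  subst h1
  interval_cases n <;> simp

end Pk

theorem wt_sT : ∀ (i : Fin 36) (a : Fin 27) (j : Fin 6),
    wt (sT i a) j = wt a j - mm i a * rho i j := by
  intro i a
  refine cd_ext (fun j => ?_) ?_
  · have h1 := wt_le (sT i a) j
    have h2 := wt_le a j
    have h3 := mul_le (mm_le i a) (rho_le i j)
    omega
  · rw [cd_sub_mul, cd_wt, cd_wt, cd_rho, s_eq]
    have h1 := of_beq (allB_spec (allB_spec wsC_true i i.2) a a.2)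
    have h2 : w (s i a) + m i a * o i + 34905131040 =
      w a + m i a * 34905131040 + o i := h1
    have h3 := m_eq i a
    have h4 : mm i a = (m i a : ℕ) - 1 := by omega
    have h5 : (w (s i a) : ℤ) + m i a * o i + 34905131040 =
      w a + m i a * 34905131040 + o i := by exact_mod_cast h2
    rw [h4]
    linear_combination h5

theorem rho_eq : ∀ (i : Fin 36) (j : Fin 6), rho i j = wt (aT i) j - wt (bT i) j := by
  decide +kernel

theorem wt_inj : ∀ a b : Fin 27, (∀ j, wt a j = wt b j) → a = b := by decide +kernel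

theorem sT_sT : ∀ (i : Fin 36) (a : Fin 27), sT i (sT i a) = a := by
  intro i a
  refine Fin.ext ?_
  rw [s_eq, s_eq]
  exact of_beq (allB_spec (allB_spec ssC_true i i.2) a a.2)

theorem rho_ri : ∀ (i j : Fin 36) (l : Fin 6),
    rho j l - cc i j * rho i l = rs i j * rho (ri i j) l := by
  intro i j
  refine cd_ext (fun l => ?_) ?_
  · have h1 := rho_le j l
    have h2 := mul_le (cc_le i j) (rho_le i l)
    have h3 := mul_le (rs_le i j) (rho_le (ri i j) l)
    omega
  · rw [cd_sub_mul, cd_mul, cd_rho, cd_rho, cd_rho, r_eq]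
    have h1 := of_beq (allB_spec (allB_spec rrC_true i i.2) j j.2)
    have h2 : 3 * 34905131040 + c i j * o i + e i j * o (r i j) =
      o j + o i + o (r i j) + (c i j + e i j) * 34905131040 := h1
    have h3 := c_eq i j
    have h4 : cc i j = (c i j : ℕ) - 1 := by omega
    have h5 := e_eq i j
    have h6 : rs i j = (e i j : ℕ) - 1 := by omega
    have h7 : (3 : ℤ) * 34905131040 + c i j * o i + e i j * o (r i j) =
      o j + o i + o (r i j) + (c i j + e i j) * 34905131040 := by exact_mod_cast h2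
    rw [h4, h6]
    linear_combination -h7

theorem rs_sq : ∀ i j : Fin 36, rs i j * rs i j = 1 := by
  intro i j
  rw [sq_one (e_eq i j) (e_le i j)]
  rcases disB_spec (allB_spec (allB_spec esC_true i i.2) j j.2) with h | h
  · exact Or.inl (of_beq h)
  · exact Or.inr (of_beq h)

theorem cc_cases : ∀ i j : Fin 36, cc i j = 0 ∧ i ≠ j ∨ cc i j * cc i j = 1 ∧ i ≠ j ∨
    cc i j = 2 ∧ i = j := by
  intro i j
  have h0 := c_eq i j
  rcases disB_spec (allB_spec (allB_spec ccC_true i i.2) j j.2) with h | h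
  · obtain ⟨h1, h2⟩ := conB_spec h
    have h3 : i ≠ j := fun h4 => not_of h2 (beq_of (by rw [h4]))
    rcases disB_spec h1 with h4 | h4
    · have := of_beq h4
      exact Or.inl ⟨by omega, h3⟩
    · refine Or.inr (Or.inl ⟨?_, h3⟩)
      rw [sq_one h0 (c_le i j)]
      rcases disB_spec h4 with h5 | h5
      · exact Or.inl (of_beq h5)
      · exact Or.inr (of_beq h5)
  · obtain ⟨h1, h2⟩ := conB_spec h
    have := of_beq h1
    exact Or.inr (Or.inr ⟨by omega, Fin.ext (of_beq h2)⟩)

theorem ri_self : ∀ i : Fin 36, ri i i = i := by decide +kernel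

theorem ri_of_cc : ∀ i j : Fin 36, cc i j = 0 → ri i j = j := by
  intro i j hc
  have h0 := c_eq i j
  obtain ⟨h1, -⟩ := conB_spec (allB_spec (allB_spec roC_true i i.2) j j.2)
  refine Fin.ext ?_
  rw [r_eq]
  exact of_beq (impB_spec h1 (beq_of (by omega)))

theorem cc_comm : ∀ i j : Fin 36, cc i j = cc j i := by
  intro i j
  have h0 := c_eq i j
  have h0' := c_eq j i
  obtain ⟨-, h1⟩ := conB_spec (allB_spec (allB_spec roC_true i i.2) j j.2)
  have := of_beq (conB_spec h1).1
  omega

theorem ri_ri : ∀ i j : Fin 36, cc i j * cc i j = 1 →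
    ri (ri i j) i = j ∧ ri j (ri i j) = i ∧ cc (ri i j) i * cc (ri i j) i = 1 := by
  intro i j hc
  rw [sq_one (c_eq i j) (c_le i j)] at hc
  have h0 : disB (Nat.beq (c i j) 0) (Nat.beq (c i j) 2) = true := by
    rcases hc with h | h <;> rw [h] <;> rfl
  obtain ⟨h1, h2⟩ := conB_spec (impB_spec (allB_spec (allB_spec rcC_true i i.2) j j.2) h0)
  obtain ⟨h2, h3⟩ := conB_spec h2
  refine ⟨Fin.ext ?_, Fin.ext ?_, ?_⟩
  · rw [r_eq, r_eq]; exact of_beq h1
  · rw [r_eq, r_eq]; exact of_beq h2
  · rw [sq_one (c_eq (ri i j) i) (c_le _ _), r_eq]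
    rcases disB_spec h3 with h | h
    · exact Or.inl (of_beq h)
    · exact Or.inr (of_beq h)

theorem ri_invol : ∀ i j : Fin 36, ri i (ri i j) = j := by
  intro i j
  obtain ⟨-, h1⟩ := conB_spec (allB_spec (allB_spec roC_true i i.2) j j.2)
  refine Fin.ext ?_
  rw [r_eq, r_eq]
  exact of_beq (conB_spec h1).2

theorem sT_conj : ∀ (i j : Fin 36) (a : Fin 27), sT i (sT j (sT i a)) = sT (ri i j) a := by
  intro i j a
  refine Fin.ext ?_
  rw [s_eq, s_eq, s_eq, s_eq, r_eq]
  exact of_beq (allB_spec (allB_spec (allB_spec sjC_true i i.2) j j.2) a a.2)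

theorem gg_comm : ∀ a b : Fin 27, gg a b = gg b a := by
  intro a b
  rw [g_eq, g_eq, of_beq (conB_spec (allB_spec (allB_spec gcC_true a a.2) b b.2)).1]

theorem gg_self : ∀ a : Fin 27, gg a a = 2 := by decide +kernel

theorem gg_cases : ∀ a b : Fin 27, gg a b = 0 ∧ a ≠ b ∨ gg a b = 1 ∧ a ≠ b ∨
    gg a b = 2 ∧ a = b := by
  intro a b
  have h0 := g_eq a b
  rcases disB_spec (conB_spec (allB_spec (allB_spec gcC_true a a.2) b b.2)).2 with h | h
  · obtain ⟨h1, h2⟩ := conB_spec h
    have h3 : a ≠ b := fun h4 => not_of h2 (beq_of (by rw [h4]))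
    rcases disB_spec h1 with h4 | h4
    · have := of_beq h4
      exact Or.inl ⟨by omega, h3⟩
    · have := of_beq h4
      exact Or.inr (Or.inl ⟨by omega, h3⟩)
  · obtain ⟨h1, h2⟩ := conB_spec h
    have := of_beq h1
    exact Or.inr (Or.inr ⟨by omega, Fin.ext (of_beq h2)⟩)

theorem gg_zero_iff : ∀ a b : Fin 27, a ≠ b →
    (gg a b = 0 ↔ ∃ c, ∀ j, wt a j + wt b j + wt c j = 0) := by
  intro a b hab
  refine ⟨fun h => ⟨_, t_eq a b h⟩, ?_⟩
  rintro ⟨d, hd⟩
  rcases gg_cases a b with ⟨h, -⟩ | ⟨h, -⟩ | ⟨-, h⟩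
  · exact h
  · exfalso
    refine not_of (allB_spec (impB_spec (allB_spec (allB_spec gzC_true a a.2) b b.2)
      (g_one h)) d d.2) (beq_of ?_)
    have h1 := cd_wt a
    have h2 := cd_wt b
    have h3 := cd_wt d
    have h4 : cd (wt a) + cd (wt b) + cd (wt d) = 0 := by
      unfold cd
      rw [← Finset.sum_add_distrib, ← Finset.sum_add_distrib]
      refine Finset.sum_eq_zero fun j _ => ?_
      rw [← add_mul, ← add_mul, hd, zero_mul]
    have h5 : w a + w b + w d = 3 * 34905131040 := by omega
    exact h5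
  · exact absurd h hab

theorem sg_sq : ∀ a b : Fin 27, gg a b = 1 → sg a b * sg a b = 1 := by
  intro a b h
  rw [sq_one (h_eq a b) (h_le a b)]
  rcases disB_spec (conB_spec (impB_spec (allB_spec (allB_spec hsC_true a a.2) b b.2)
    (g_one h))).1 with h1 | h1
  · exact Or.inl (of_beq h1)
  · exact Or.inr (of_beq h1)

theorem wt_sub : ∀ a b : Fin 27, gg a b = 1 →
    ∀ j, wt a j - wt b j = sg a b * rho (ix a b) j := by
  intro a b hg
  have h0 := of_beq (conB_spec (impB_spec (allB_spec (allB_spec hsC_true a a.2) b b.2)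
    (g_one hg))).2
  have h2 : w a + h a b * 34905131040 + o (x a b) =
      w b + h a b * o (x a b) + 34905131040 := h0
  have h5 : (w a : ℤ) + h a b * 34905131040 + o (x a b) =
      w b + h a b * o (x a b) + 34905131040 := by exact_mod_cast h2
  have h3 := h_eq a b
  have h4 : sg a b = (h a b : ℕ) - 1 := by omega
  refine cd_ext (fun j => ?_) ?_
  · have h1 := wt_le a j
    have h2 := wt_le b j
    have h3 := mul_le (sg_le a b) (rho_le (ix a b) j)
    omega
  · have h6 := cd_sub_mul (wt a) (wt b) 1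
    simp only [one_mul] at h6
    rw [h6, cd_mul, cd_wt, cd_wt, cd_rho, x_eq, h4]
    linear_combination h5

theorem mm_eq : ∀ (i : Fin 36) (c : Fin 27), mm i c = gg c (aT i) - gg c (bT i) := by
  intro i a
  have h0 := of_beq (allB_spec (allB_spec meC_true i i.2) a a.2)
  have h1 : m i a + g a (v i) = g a (u i) + 1 := h0
  rw [← u_eq, ← v_eq] at h1
  have h2 := m_eq i a
  have h3 := g_eq a (aT i)
  have h4 := g_eq a (bT i)
  omega

theorem mm_ix : ∀ a b c : Fin 27, gg a b = 1 →
    gg c a - gg c b = sg a b * mm (ix a b) c := by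
  intro a b d hg
  have h0 := of_beq (allB_spec (impB_spec (allB_spec (allB_spec mxC_true a a.2) b b.2)
    (g_one hg)) d d.2)
  have h1 : g d a + h a b + m (x a b) d = g d b + h a b * m (x a b) d + 1 := h0
  rw [← x_eq] at h1
  have h2 := m_eq (ix a b) d
  have h3 : mm (ix a b) d = (m (ix a b) d : ℕ) - 1 := by omega
  have h4 := h_eq a b
  have h5 : sg a b = (h a b : ℕ) - 1 := by omega
  have h6 : (g d a : ℤ) + h a b + m (ix a b) d = g d b + h a b * m (ix a b) d + 1 := by
    exact_mod_cast h1
  rw [g_eq, g_eq, h3, h5]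
  linear_combination h6

theorem gg_aT_bT : ∀ i : Fin 36, gg (aT i) (bT i) = 1 := by decide +kernel

theorem ix_aT_bT : ∀ i : Fin 36, ix (aT i) (bT i) = i ∧ sg (aT i) (bT i) = 1 := by
  decide +kernel

theorem two_mm : ∀ (i : Fin 36) (a : Fin 27),
    2 * mm i a = ∑ j, wt a j * kap2 i j := by decide +kernel

theorem mm_cases : ∀ (i : Fin 36) (a : Fin 27), mm i a = 0 ∨ mm i a = 1 ∨ mm i a = -1 := by
  intro i a
  have h0 := not_of (allB_spec (allB_spec mcC_true i i.2) a a.2)
  have h1 := m_eq i a
  have h2 := m_le i a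
  have h3 : m i a ≠ 3 := fun h => h0 (beq_of h)
  omega

theorem sT_ne : ∀ i : Fin 36, ∃ a, sT i a ≠ a := by decide +kernel

theorem sT_inj : ∀ i j : Fin 36, (∀ a, sT i a = sT j a) → i = j := by
  intro i j h
  rcases disB_spec (allB_spec (allB_spec siC_true i i.2) j j.2) with h1 | h1
  · exact Fin.ext (of_beq h1)
  · exfalso
    obtain ⟨a, ha, h2⟩ := anyB_spec h1
    refine not_of h2 (beq_of ?_)
    have h3 := congrArg (fun z : Fin 27 => (z : ℕ)) (h ⟨a, ha⟩)
    simp only [s_eq] at h3
    exact h3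

end Pool.Agent.Lib.MP_12adaf_nt.E6
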