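import Pool.Agent.Lib.MP_12adaf_ntE6.E01

/-!
# `E₆`: the Weyl group as the group of linear permutations of the 27 weights
-/

namespace Pool.Agent.Lib.MP_12adaf_nt.E6

set_option linter.unusedSectionVars false

open Finset

section lf

variable {Ω : Type*} [Field Ω]

/-- The values of the 27 weights at `ζ`. -/
def lf (ζ : Fin 6 → Ω) (a : Fin 27) : Ω := ∑ j, (wt a j : Ω) * ζ j

/-- `z` is the family of the values of the 27 weights at a point. -/
def IsV (z : Fin 27 → Ω) : Prop := ∃ ζ : Fin 6 → Ω, z = lf ζ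

/-- The value of the root `i`. -/
def rt (i : Fin 36) (z : Fin 27 → Ω) : Ω := z (aT i) - z (bT i)

lemma rt_lf (i : Fin 36) (ζ : Fin 6 → Ω) : rt i (lf ζ) = ∑ j, (rho i j : Ω) * ζ j := by
  simp only [rt, lf]
  rw [← sum_sub_distrib]
  refine sum_congr rfl fun j _ => ?_
  rw [rho_eq]
  push_cast
  ring

lemma IsV.sub_of_gg {z : Fin 27 → Ω} (hz : IsV z) {a b : Fin 27} (h : gg a b = 1) :
    z a - z b = (sg a b : Ω) * rt (ix a b) z := by
  obtain ⟨ζ, rfl⟩ := hz
  rw [rt_lf]
  simp only [lf]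
  rw [← sum_sub_distrib, mul_sum]
  refine sum_congr rfl fun j _ => ?_
  have h1 := wt_sub a b h j
  have h2 : (wt a j : Ω) - wt b j = (sg a b : Ω) * rho (ix a b) j := by
    rw [← Int.cast_sub, h1, Int.cast_mul]
  linear_combination ζ j * h2

lemma IsV.sT {z : Fin 27 → Ω} (hz : IsV z) (i : Fin 36) (a : Fin 27) :
    z (sT i a) = z a - (mm i a : Ω) * rt i z := by
  obtain ⟨ζ, rfl⟩ := hz
  rw [rt_lf]
  simp only [lf]
  rw [mul_sum, ← sum_sub_distrib]
  refine sum_congr rfl fun j _ => ?_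
  rw [wt_sT]
  push_cast
  ring

end lf

/-- **The Weyl group of `E₆`** as the group of the permutations of the 27 weights induced by
linear maps. -/
def W : Subgroup (Equiv.Perm (Fin 27)) where
  carrier := {π | ∃ A : Matrix (Fin 6) (Fin 6) ℚ, ∀ a j,
    ∑ l, (wt a l : ℚ) * A l j = (wt (π a) j : ℚ)}
  one_mem' := ⟨1, fun a j => by simp [Matrix.one_apply]⟩
  mul_mem' := by
    rintro π π' ⟨A, hA⟩ ⟨A', hA'⟩
    refine ⟨A' * A, fun a j => ?_⟩
    simp only [Equiv.Perm.coe_mul, Function.comp_apply, ← hA, ← hA', Matrix.mul_apply]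
    simp_rw [mul_sum, sum_mul, mul_assoc]
    exact sum_comm
  inv_mem' := by
    rintro π ⟨A, hA⟩
    -- `π⁻¹` is a power of `π`
    have h : ∀ n : ℕ, ∃ A : Matrix (Fin 6) (Fin 6) ℚ, ∀ a j,
        ∑ l, (wt a l : ℚ) * A l j = (wt ((π ^ n) a) j : ℚ) := by
      intro n
      induction n with
      | zero => exact ⟨1, fun a j => by simp [Matrix.one_apply]⟩
      | succ n ih =>
        obtain ⟨B, hB⟩ := ih
        refine ⟨B * A, fun a j => ?_⟩
        rw [pow_succ', Equiv.Perm.coe_mul, Function.comp_apply, ← hA]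
        simp only [← hB, Matrix.mul_apply]
        simp_rw [mul_sum, sum_mul, mul_assoc]
        exact sum_comm
    obtain ⟨A', hA'⟩ := h (orderOf π - 1)
    refine ⟨A', fun a j => ?_⟩
    rw [hA']
    congr 3
    have h1 : π ^ (orderOf π - 1) = π⁻¹ := by
      have h2 : 0 < orderOf π := orderOf_pos π
      rw [eq_inv_iff_mul_eq_one, ← pow_succ, Nat.sub_add_cancel h2, pow_orderOf_eq_one]
    rw [h1]

noncomputable instance : Fintype W := Fintype.ofFinite W

instance : MulAction W (Fin 27) := inferInstance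

lemma smul_def (w : W) (a : Fin 27) : w • a = (w : Equiv.Perm (Fin 27)) a := rfl

lemma exists_mat (w : W) : ∃ A : Matrix (Fin 6) (Fin 6) ℚ, ∀ a j,
    ∑ l, (wt a l : ℚ) * A l j = (wt (w • a) j : ℚ) := w.2

lemma W_ext {w w' : W} (h : ∀ a : Fin 27, w • a = w' • a) : w = w' :=
  Subtype.ext (Equiv.ext h)

/-- The reflections as permutations. -/
def sP (i : Fin 36) : Equiv.Perm (Fin 27) := ⟨sT i, sT i, sT_sT i, sT_sT i⟩

/-- The reflections as elements of the Weyl group. -/
def sW (i : Fin 36) : W := ⟨sP i, ⟨fun l j => (if l = j then 1 else 0) -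
    (kap2 i l : ℚ) / 2 * (rho i j : ℚ), fun a j => by
      have h1 : (wt (sP i a) j : ℚ) = wt a j - mm i a * rho i j := by
        exact_mod_cast wt_sT i a j
      have h2 : (2 : ℚ) * mm i a = ∑ l, (wt a l : ℚ) * kap2 i l := by
        exact_mod_cast two_mm i a
      rw [h1]
      simp_rw [mul_sub, sum_sub_distrib]
      have h3 : ∑ l, (wt a l : ℚ) * (if l = j then 1 else 0) = wt a j := by simp
      rw [h3]
      have h4 : ∑ l, (wt a l : ℚ) * ((kap2 i l : ℚ) / 2 * (rho i j : ℚ)) =
          (∑ l, (wt a l : ℚ) * kap2 i l) / 2 * rho i j := by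
        rw [sum_div, sum_mul]
        exact sum_congr rfl fun l _ => by ring
      rw [h4, ← h2]
      ring⟩⟩

lemma sW_smul (i : Fin 36) (a : Fin 27) : sW i • a = sT i a := rfl

lemma sW_mul_self (i : Fin 36) : sW i * sW i = 1 :=
  W_ext fun a => by rw [mul_smul, one_smul, sW_smul, sW_smul, sT_sT]

lemma sW_inv (i : Fin 36) : (sW i)⁻¹ = sW i := inv_eq_of_mul_eq_one_left (sW_mul_self i)

lemma sW_inj {i j : Fin 36} (h : sW i = sW j) : i = j :=
  sT_inj i j fun a => by rw [← sW_smul, h, sW_smul]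

lemma sW_ne_one (i : Fin 36) : sW i ≠ 1 := by
  intro h
  obtain ⟨a, ha⟩ := sT_ne i
  exact ha (by rw [← sW_smul, h, one_smul])

lemma sW_conj (i j : Fin 36) : sW i * sW j * sW i = sW (ri i j) :=
  W_ext fun a => by simp only [mul_smul, sW_smul, sT_conj]

section action

variable {Ω : Type*} [Field Ω] [CharZero Ω]

/-- The Weyl group preserves the space of weight values. -/
lemma IsV.comp {z : Fin 27 → Ω} (hz : IsV z) (w : W) : IsV fun a => z (w • a) := by
  obtain ⟨ζ, rfl⟩ := hz
  obtain ⟨A, hA⟩ := exists_mat w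
  refine ⟨fun l => ∑ j, (A l j : Ω) * ζ j, ?_⟩
  funext a
  simp only [lf]
  simp_rw [mul_sum]
  rw [sum_comm]
  refine sum_congr rfl fun j _ => ?_
  have h1 : ((∑ l, (wt a l : ℚ) * A l j : ℚ) : Ω) = ((wt (w • a) j : ℚ) : Ω) := by rw [hA]
  push_cast at h1
  rw [← h1, sum_mul]
  exact sum_congr rfl fun l _ => by ring

lemma gg_smul (w : W) (a b : Fin 27) : gg (w • a) (w • b) = gg a b := by
  -- one direction suffices
  have key : ∀ (w : W) (a b : Fin 27), gg a b = 0 → gg (w • a) (w • b) = 0 := by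
    intro w a b h
    have hab : a ≠ b := by
      rintro rfl
      rw [gg_self] at h
      norm_num at h
    obtain ⟨A, hA⟩ := exists_mat w
    obtain ⟨c, hc⟩ := (gg_zero_iff a b hab).mp h
    refine (gg_zero_iff _ _ fun h2 => hab (MulAction.injective w h2)).mpr ⟨w • c, fun j => ?_⟩
    have h3 : ((wt (w • a) j + wt (w • b) j + wt (w • c) j : ℤ) : ℚ) = 0 := by
      push_cast
      rw [← hA, ← hA, ← hA, ← sum_add_distrib, ← sum_add_distrib]
      refine sum_eq_zero fun l _ => ?_
      have h4 : ((wt a l + wt b l + wt c l : ℤ) : ℚ) = 0 := by rw [hc]; norm_num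
      push_cast at h4
      linear_combination A l j * h4
    exact_mod_cast h3
  rcases gg_cases a b with ⟨h, _⟩ | ⟨h, hab⟩ | ⟨_, rfl⟩
  · rw [h, key w a b h]
  · rcases gg_cases (w • a) (w • b) with ⟨h', _⟩ | ⟨h', _⟩ | ⟨_, h'⟩
    · have h5 := key w⁻¹ _ _ h'
      rw [inv_smul_smul, inv_smul_smul, h] at h5
      norm_num at h5
    · rw [h, h']
    · exact absurd (MulAction.injective w h') hab
  · rw [gg_self, gg_self]

/-- The action of the Weyl group on the positive roots up to sign. -/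
def wi (w : W) (i : Fin 36) : Fin 36 := ix (w • aT i) (w • bT i)

/-- The sign of the action of the Weyl group on the positive roots. -/
def we (w : W) (i : Fin 36) : ℤ := sg (w • aT i) (w • bT i)

lemma we_sq (w : W) (i : Fin 36) : we w i * we w i = 1 :=
  sg_sq _ _ (by rw [gg_smul, gg_aT_bT])

lemma rt_comp {z : Fin 27 → Ω} (hz : IsV z) (w : W) (i : Fin 36) :
    rt i (fun a => z (w • a)) = (we w i : Ω) * rt (wi w i) z :=
  hz.sub_of_gg (by rw [gg_smul, gg_aT_bT])

lemma mm_wi (w : W) (i : Fin 36) (a : Fin 27) : mm i a = we w i * mm (wi w i) (w • a) := by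
  have h1 := mm_ix (w • aT i) (w • bT i) (w • a) (by rw [gg_smul, gg_aT_bT])
  rw [gg_smul, gg_smul] at h1
  rw [mm_eq, h1]
  rfl

lemma sW_wi (w : W) (i : Fin 36) : w * sW i * w⁻¹ = sW (wi w i) := by
  rw [mul_inv_eq_iff_eq_mul]
  refine W_ext fun a => ?_
  rw [mul_smul, mul_smul, sW_smul, sW_smul]
  apply wt_inj
  intro j
  obtain ⟨A, hA⟩ := exists_mat w
  have h1 : (wt (w • sT i a) j : ℚ) = wt (w • a) j - mm i a * (wt (w • aT i) j -
      wt (w • bT i) j) := by
    rw [← hA, ← hA, ← hA, ← hA, ← sum_sub_distrib, mul_sum, ← sum_sub_distrib]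
    refine sum_congr rfl fun l _ => ?_
    have h2 : (wt (sT i a) l : ℚ) = wt a l - mm i a * (wt (aT i) l - wt (bT i) l) := by
      have := wt_sT i a l
      rw [rho_eq] at this
      exact_mod_cast this
    rw [h2]
    ring
  have h3 : (wt (w • aT i) j : ℚ) - wt (w • bT i) j = we w i * rho (wi w i) j := by
    exact_mod_cast wt_sub _ _ (show gg (w • aT i) (w • bT i) = 1 by rw [gg_smul, gg_aT_bT]) j
  have h4 : (wt (sT (wi w i) (w • a)) j : ℚ) = wt (w • a) j -
      mm (wi w i) (w • a) * rho (wi w i) j := by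
    exact_mod_cast wt_sT (wi w i) (w • a) j
  have h5 : (mm i a : ℚ) = we w i * mm (wi w i) (w • a) := by exact_mod_cast mm_wi w i a
  have h6 : (we w i : ℚ) * we w i = 1 := by exact_mod_cast we_sq w i
  have h7 : (wt (w • sT i a) j : ℚ) = wt (sT (wi w i) (w • a)) j := by
    rw [h1, h3, h4, h5]
    linear_combination (-(mm (wi w i) (w • a) : ℚ) * rho (wi w i) j) * h6
  exact_mod_cast h7

lemma wi_injective (w : W) : Function.Injective (wi w) := by
  intro i j h
  apply sW_inj
  have h1 := sW_wi w i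
  rw [h, ← sW_wi w j] at h1
  simpa using h1

lemma wi_bijective (w : W) : Function.Bijective (wi w) :=
  Finite.injective_iff_bijective.mp (wi_injective w)

end action

end Pool.Agent.Lib.MP_12adaf_nt.E6
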