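import Pool.Agent.Lib.MP_12adaf_ntE6.E02

/-!
# `E₆`: the sign character, the Lax matrix and the invariants: definitions
-/

namespace Pool.Agent.Lib.MP_12adaf_nt.E6

set_option linter.unusedSectionVars false

open Finset

section sign

variable {Ω : Type*} [Field Ω]

/-- The product of the 36 positive roots. -/
def DD (z : Fin 27 → Ω) : Ω := ∏ i, rt i z

/-- The sign of an element of the Weyl group (integer version). -/
def eZ (w : W) : ℤ := ∏ i, we w i

lemma DD_comp [CharZero Ω] {z : Fin 27 → Ω} (hz : IsV z) (w : W) :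
    DD (fun a => z (w • a)) = (eZ w : Ω) * DD z := by
  rw [DD, DD, eZ]
  push_cast
  rw [← (Fintype.prod_bijective (wi w) (wi_bijective w) _ _ fun i => rfl :
    ∏ i, rt (wi w i) z = ∏ i, rt i z), ← prod_mul_distrib]
  exact prod_congr rfl fun i _ => rt_comp hz w i

theorem rho_pt : ∀ i : Fin 36, ∑ j, rho i j * ![1, 3, 9, 27, 81, 400] j ≠ 0 := by decide +kernel

/-- A rational point outside the mirrors. -/
def zQ : Fin 27 → ℚ := lf fun j => ((![1, 3, 9, 27, 81, 400] j : ℤ) : ℚ)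

lemma isV_zQ : IsV zQ := ⟨_, rfl⟩

lemma DD_zQ : DD zQ ≠ 0 := by
  rw [DD, prod_ne_zero_iff]
  intro i _
  rw [zQ, rt_lf]
  exact_mod_cast rho_pt i

theorem eZ_mul (u w : W) : eZ (u * w) = eZ u * eZ w := by
  have h1 := DD_comp isV_zQ (u * w)
  have h2 := DD_comp (isV_zQ.comp u) w
  have h3 := DD_comp isV_zQ u
  have h4 : (fun a => zQ ((u * w) • a)) = fun a => zQ (u • w • a) := by
    funext a
    rw [mul_smul]
  rw [h4, h2, h3, ← mul_assoc] at h1
  have h5 := mul_right_cancel₀ DD_zQ h1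
  have h6 : eZ w * eZ u = eZ (u * w) := by exact_mod_cast h5
  rw [← h6, mul_comm]

theorem eZ_one : eZ 1 = 1 := by
  have h1 := DD_comp isV_zQ 1
  have h4 : (fun a => zQ ((1 : W) • a)) = zQ := by
    funext a
    rw [one_smul]
  rw [h4] at h1
  have h5 : (1 : ℚ) * DD zQ = (eZ 1 : ℚ) * DD zQ := by rw [one_mul]; exact h1
  have h6 := mul_right_cancel₀ DD_zQ h5
  exact_mod_cast h6.symm

theorem prod_sg : ∀ i : Fin 36, ∏ j, sg (sT i (aT j)) (sT i (bT j)) = -1 := by decide +kernel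

theorem eZ_sW (i : Fin 36) : eZ (sW i) = -1 := prod_sg i

lemma eZ_sq (w : W) : eZ w * eZ w = 1 := by
  rw [eZ, ← prod_mul_distrib]
  exact prod_eq_one fun i _ => we_sq w i

lemma eZ_inv (w : W) : eZ w⁻¹ = eZ w := by
  have h1 : eZ w⁻¹ * eZ w = 1 := by rw [← eZ_mul, inv_mul_cancel, eZ_one]
  calc eZ w⁻¹ = eZ w⁻¹ * (eZ w * eZ w) := by rw [eZ_sq, mul_one]
    _ = eZ w⁻¹ * eZ w * eZ w := by rw [mul_assoc]
    _ = eZ w := by rw [h1, one_mul]

lemma eZ_cases (w : W) : eZ w = 1 ∨ eZ w = -1 :=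
  mul_self_eq_one_iff.mp (eZ_sq w)

end sign

section lax

variable {Ω : Type*} [Field Ω]

/-- The Lax matrix of the family `x`. -/
def lax (x : Fin 27 → Ω) : Matrix (Fin 27) (Fin 27) Ω :=
  Matrix.of fun a b => if gg a b = 1 then 1 / (x a - x b) else 0

/-- The values at `x` of the power sums of the dual coordinates. -/
noncomputable def hS (x : Fin 27 → Ω) (j : ℕ) : Ω :=
  ∑ a, Matrix.mulVec (lax x ^ j) (fun _ => (1 : Ω)) a

end lax

section inv

variable {Ω : Type*} [Field Ω]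

/-- Power sums. -/
def PS (m : ℕ) (z : Fin 27 → Ω) : Ω := ∑ a, z a ^ m

def g2 (z : Fin 27 → Ω) : Ω := PS 2 z / 12

def g6 (z : Fin 27 → Ω) : Ω := PS 6 z / 12

/-- The first invariant of the binary cubic attached to `z`. -/
def II (z : Fin 27 → Ω) : Ω := PS 8 z / 5 - 52 / 5 * g6 z * g2 z + 9 * g2 z ^ 4

/-- The second invariant of the binary cubic attached to `z`. -/
def JJ (z : Fin 27 → Ω) : Ω := 8 / 15 * PS 12 z - 109 / 15 * PS 8 z * g2 z ^ 2 -
  244 / 15 * g6 z ^ 2 + 3388 / 15 * g6 z * g2 z ^ 3 - 654 / 5 * g2 z ^ 6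

open scoped Classical in
/-- The product of the nonzero values. -/
noncomputable def QQ (z : Fin 27 → Ω) : Ω := ∏ a, if z a = 0 then 1 else z a

/-- The square root of the discriminant of the cubic. -/
noncomputable def EE (z : Fin 27 → Ω) : Ω := DD z / QQ z

/-- Mixed power sums. -/
def tS (m : ℕ) (z Z : Fin 27 → Ω) : Ω := ∑ a, z a ^ m * Z a

/-- The six parameters. -/
noncomputable def tt (z Z : Fin 27 → Ω) (e : Ω) : Fin 6 → Ω :=
  ![tS 4 z Z, tS 8 z Z, g2 z, g6 z, EE z / (e * II z), JJ z / II z]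

/-- The points of the space of the `D₄` coordinates. -/
def pη (η : Fin 4 → Ω) : Fin 27 → Ω := lf ![η 0, η 1, η 2, η 3, 0, 0]

/-- The points of its orthogonal complement. -/
def Xβ (β : Fin 2 → Ω) : Fin 27 → Ω := lf ![0, 0, 0, 0, β 0, β 1]

end inv

end Pool.Agent.Lib.MP_12adaf_nt.E6
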