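import Pool.Agent.Lib.MP_12adaf_ntE6.E02d

/-!
# `E₆`: automorphisms which fix the power sums of a generic point
-/

namespace Pool.Agent.Lib.MP_12adaf_nt.E6

open Finset

/-- table of the coordinates as combinations of the weights (times two) -/
def cwL : List (List ℤ) := [
  [1, 1, 0, 0, 0, 0, 0, 0, 0, 0, 0, 0, 0, 0, 0, 0, 0, 0, 0, 0, 0, 0, 0, 0, 1, 0, 0],
  [1, 0, 1, 0, 0, 0, 0, 0, 0, 0, 0, 0, 0, 0, 0, 0, 0, 0, 0, 0, 0, 0, 0, 0, 1, 0, 0],
  [0, 0, 0, 0, 1, 1, 0, 0, 0, 0, 0, 0, 0, 0, 0, 0, 0, 0, 0, 0, 0, 0, 0, 0, 1, 0, 0],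
  [0, 0, 0, 0, 1, 0, 1, 0, 0, 0, 0, 0, 0, 0, 0, 0, 0, 0, 0, 0, 0, 0, 0, 0, 1, 0, 0],
  [0, 0, 0, 0, 0, 0, 0, 0, 0, 0, 0, 0, 0, 0, 0, 0, 0, 0, 0, 0, 0, 0, 0, 0, -1, 0, 0],
  [0, 0, 0, 0, 0, 0, 0, 0, 0, 0, 0, 0, 0, 0, 0, 0, 0, 0, 0, 0, 0, 0, 0, 0, 0, -1, 0]]

def cw (l : Fin 6) (a : Fin 27) : ℤ := (cwL.getD l []).getD a 0

theorem cw_wt : ∀ l j : Fin 6, ∑ a, cw l a * wt a j = if l = j then 2 else 0 := by
  decide +kernel

theorem rho_ne_zero : ∀ i : Fin 36, ∃ j, rho i j ≠ 0 := by decide +kernel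

lemma li_ext {Ω : Type*} [Field Ω] [CharZero Ω] {ζ : Fin 6 → Ω}
    (hζ : LinearIndependent ℚ ζ) {c d : Fin 6 → ℚ}
    (h : ∑ j, (c j : Ω) * ζ j = ∑ j, (d j : Ω) * ζ j) (j : Fin 6) : c j = d j := by
  have h1 := (Fintype.linearIndependent_iff.mp hζ) (fun j => c j - d j) (by
    have h2 : ∀ j, (c j - d j) • ζ j = (c j : Ω) * ζ j - (d j : Ω) * ζ j := by
      intro j
      rw [Algebra.smul_def, eq_ratCast]
      push_cast
      ring
    simp only [h2, sum_sub_distrib, h, sub_self]) j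
  exact sub_eq_zero.mp h1

lemma two_mul_coord {Ω : Type*} [Field Ω] (ζ : Fin 6 → Ω) (l : Fin 6) :
    2 * ζ l = ∑ a, (cw l a : Ω) * lf ζ a := by
  simp only [lf, mul_sum]
  rw [sum_comm]
  have h1 : ∀ j : Fin 6, ∑ a, (cw l a : Ω) * ((wt a j : Ω) * ζ j) =
      if l = j then 2 * ζ j else 0 := by
    intro j
    have h2 : ((∑ a, cw l a * wt a j : ℤ) : Ω) = ((if l = j then 2 else 0 : ℤ) : Ω) := by
      rw [cw_wt]
    push_cast at h2
    simp only [← mul_assoc]
    rw [← sum_mul, h2]
    split_ifs <;> simp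
  simp only [h1]
  simp

/-- A point with linearly independent coordinates has 27 distinct values. -/
theorem lf_injective {Ω : Type*} [Field Ω] [CharZero Ω] {ζ : Fin 6 → Ω}
    (hζ : LinearIndependent ℚ ζ) : Function.Injective (lf ζ) := by
  intro a b h
  refine wt_inj a b fun j => ?_
  have h1 := li_ext hζ (c := fun j => (wt a j : ℚ)) (d := fun j => (wt b j : ℚ)) (by
    simp only [lf] at h
    push_cast
    exact h) j
  exact_mod_cast h1

/-- No root vanishes at a point with linearly independent coordinates. -/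
theorem rt_lf_ne_zero {Ω : Type*} [Field Ω] [CharZero Ω] {ζ : Fin 6 → Ω}
    (hζ : LinearIndependent ℚ ζ) (i : Fin 36) : rt i (lf ζ) ≠ 0 := by
  intro h
  rw [rt_lf] at h
  obtain ⟨j, hj⟩ := rho_ne_zero i
  apply hj
  have h1 := li_ext hζ (c := fun j => (rho i j : ℚ)) (d := fun _ => 0) (by
    push_cast
    simpa using h) j
  exact_mod_cast h1

lemma sum_eval_eq {Ω : Type*} [Field Ω] {x y : Fin 27 → Ω}
    (h : ∀ j, PS j x = PS j y) (p : Polynomial Ω) : ∑ a, p.eval (x a) = ∑ a, p.eval (y a) := by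
  simp only [Polynomial.eval_eq_sum_range]
  rw [sum_comm, sum_comm (s := univ) (f := fun a i => p.coeff i * y a ^ i)]
  refine sum_congr rfl fun n _ => ?_
  rw [← mul_sum, ← mul_sum]
  congr 1
  exact h n

lemma mem_values {Ω : Type*} [Field Ω] {x y : Fin 27 → Ω}
    (h : ∀ j, PS j x = PS j y) (hx : Function.Injective x) (a : Fin 27) : ∃ b, x a = y b := by
  classical
  by_contra hne
  push Not at hne
  let p : Polynomial Ω := ∏ t ∈ (univ.image y ∪ univ.image x).erase (x a),
    (Polynomial.X - Polynomial.C t)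
  have hp : ∀ s, p.eval s = ∏ t ∈ (univ.image y ∪ univ.image x).erase (x a), (s - t) := by
    intro s
    simp only [p, Polynomial.eval_prod, Polynomial.eval_sub, Polynomial.eval_X, Polynomial.eval_C]
  have h0 : ∀ s ∈ (univ.image y ∪ univ.image x).erase (x a), p.eval s = 0 := by
    intro s hs
    rw [hp]
    exact prod_eq_zero hs (sub_self s)
  have hy : ∑ b, p.eval (y b) = 0 := by
    refine sum_eq_zero fun b _ => h0 _ ?_
    rw [mem_erase]
    exact ⟨fun h => hne b h.symm, mem_union_left _ (mem_image_of_mem _ (mem_univ b))⟩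
  have hx' : ∑ b, p.eval (x b) = p.eval (x a) := by
    refine sum_eq_single a (fun b _ hb => h0 _ ?_) (fun h => absurd (mem_univ a) h)
    rw [mem_erase]
    exact ⟨fun h => hb (hx h), mem_union_right _ (mem_image_of_mem _ (mem_univ b))⟩
  have h1 := sum_eval_eq h p
  rw [hy, hx', hp] at h1
  rw [prod_eq_zero_iff] at h1
  obtain ⟨t, ht, h2⟩ := h1
  rw [mem_erase] at ht
  exact ht.1 (sub_eq_zero.mp h2).symm

/-- **A field endomorphism which fixes the power sums of the 27 values at a generic point acts on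
the point through the Weyl group.**  Proof: for every `a` the value `σ (lf ζ a)` is one of the
`lf ζ b` (otherwise take an interpolation polynomial which is `1` at `σ (lf ζ a)` and `0` at all
the `lf ζ b` and all the other values of `σ ∘ lf ζ`: the sums of its values over `σ ∘ lf ζ` and
over `lf ζ` agree, contradiction in characteristic zero); `lf ζ` and `σ ∘ lf ζ` are injective, so
`σ (lf ζ a) = lf ζ (π a)` for a permutation `π`; `σ (ζ l)` is a rational combination of the
`σ (lf ζ a)` (the 27 vectors `wt a` span: e.g. `wt 24`, `wt 25` give `ζ 4`, `ζ 5`, and sums of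
two of the others the first four), hence of the `ζ j`: `σ (ζ l) = ∑ j, A l j * ζ j` with `A`
rational, and linear independence gives the condition in the definition of `W`. -/
theorem exists_W_of_PS {Ω : Type*} [Field Ω] [CharZero Ω] {ζ : Fin 6 → Ω}
    (hζ : LinearIndependent ℚ ζ) (σ : Ω →+* Ω)
    (hσ : ∀ j, σ (PS j (lf ζ)) = PS j (lf ζ)) : ∃ u : W, ∀ a, σ (lf ζ a) = lf ζ (u • a) := by
  have hinj := lf_injective hζ
  have hxinj : Function.Injective fun a => σ (lf ζ a) := σ.injective.comp hinj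
  have hPS : ∀ j, PS j (fun a => σ (lf ζ a)) = PS j (lf ζ) := by
    intro j
    rw [← hσ j, PS, PS, map_sum]
    exact sum_congr rfl fun a _ => (map_pow σ _ _).symm
  choose f hf using mem_values hPS hxinj
  have hf' : ∀ a, σ (lf ζ a) = lf ζ (f a) := hf
  have hfinj : Function.Injective f := by
    intro a b hab
    apply hxinj
    show σ (lf ζ a) = σ (lf ζ b)
    rw [hf', hf', hab]
  let π : Equiv.Perm (Fin 27) := Equiv.ofBijective f (Finite.injective_iff_bijective.mp hfinj)
  have hπ : ∀ a, σ (lf ζ a) = lf ζ (π a) := hf'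
  let A : Matrix (Fin 6) (Fin 6) ℚ := fun l j => (∑ a, (cw l a : ℚ) * (wt (π a) j : ℚ)) / 2
  have h2 : (2 : Ω) ≠ 0 := two_ne_zero
  have hA : ∀ l, σ (ζ l) = ∑ j, (A l j : Ω) * ζ j := by
    intro l
    have h3 : 2 * σ (ζ l) = ∑ a, (cw l a : Ω) * lf ζ (π a) := by
      have h4 := congrArg σ (two_mul_coord ζ l)
      rw [map_mul, map_ofNat, map_sum] at h4
      rw [h4]
      refine sum_congr rfl fun a _ => ?_
      rw [map_mul, map_intCast, hπ]
    have h5 : ∑ a, (cw l a : Ω) * lf ζ (π a) = 2 * ∑ j, (A l j : Ω) * ζ j := by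
      simp only [lf, mul_sum]
      rw [sum_comm]
      refine sum_congr rfl fun j _ => ?_
      have h6 : (A l j : Ω) = (∑ a, (cw l a : Ω) * (wt (π a) j : Ω)) / 2 := by
        simp only [A]
        push_cast
        rfl
      rw [h6, ← mul_assoc, mul_div_cancel₀ _ h2, sum_mul]
      exact sum_congr rfl fun a _ => by ring
    rw [h5] at h3
    exact mul_left_cancel₀ h2 h3
  refine ⟨⟨π, A, fun a j => ?_⟩, fun a => hπ a⟩
  refine li_ext hζ (c := fun j => ∑ l, (wt a l : ℚ) * A l j) (d := fun j => (wt (π a) j : ℚ)) ?_ j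
  have h7 : σ (lf ζ a) = ∑ j, ((∑ l, (wt a l : ℚ) * A l j : ℚ) : Ω) * ζ j := by
    rw [lf, map_sum]
    have h8 : ∀ l, σ ((wt a l : Ω) * ζ l) = ∑ j, (wt a l : Ω) * ((A l j : Ω) * ζ j) := by
      intro l
      rw [map_mul, map_intCast, hA, mul_sum]
    simp only [h8]
    rw [sum_comm]
    refine sum_congr rfl fun j _ => ?_
    push_cast
    rw [sum_mul]
    exact sum_congr rfl fun l _ => by ring
  rw [← h7, hπ, lf]
  push_cast
  rfl

lemma esymm_mem {Ω : Type*} [Field Ω] [CharZero Ω] (S : Subfield Ω) {z : Fin 27 → Ω}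
    (hz : ∀ j, PS j z ∈ S) (k : ℕ) :
    MvPolynomial.aeval z (MvPolynomial.esymm (Fin 27) ℚ k) ∈ S := by
  induction k using Nat.strong_induction_on with
  | _ k ih =>
    rcases Nat.eq_zero_or_pos k with rfl | hk
    · rw [MvPolynomial.esymm_zero, map_one]
      exact S.one_mem
    · have h1 := congrArg (MvPolynomial.aeval z) (MvPolynomial.mul_esymm_eq_sum (Fin 27) ℚ k)
      rw [map_mul, map_natCast] at h1
      have h2 : (k : Ω) ≠ 0 := Nat.cast_ne_zero.mpr hk.ne'
      have h3 : MvPolynomial.aeval z (MvPolynomial.esymm (Fin 27) ℚ k) = (k : Ω)⁻¹ *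
          MvPolynomial.aeval z ((-1) ^ (k + 1) * ∑ a ∈ antidiagonal k with a.1 < k,
            (-1) ^ a.1 * MvPolynomial.esymm (Fin 27) ℚ a.1 * MvPolynomial.psum (Fin 27) ℚ a.2) := by
        rw [← h1, inv_mul_cancel_left₀ h2]
      rw [h3]
      refine S.mul_mem (S.inv_mem (natCast_mem S k)) ?_
      rw [map_mul, map_pow, map_neg, map_one, map_sum]
      refine S.mul_mem (S.pow_mem (S.neg_mem S.one_mem) _) (S.sum_mem fun a ha => ?_)
      rw [mem_filter] at ha
      rw [map_mul, map_mul, map_pow, map_neg, map_one]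
      refine S.mul_mem (S.mul_mem (S.pow_mem (S.neg_mem S.one_mem) _) (ih _ ha.2)) ?_
      have h4 : MvPolynomial.aeval z (MvPolynomial.psum (Fin 27) ℚ a.2) = PS a.2 z := by
        rw [MvPolynomial.psum, map_sum, PS]
        exact sum_congr rfl fun b _ => by rw [map_pow, MvPolynomial.aeval_X]
      rw [h4]
      exact hz _

/-- The values are algebraic over every subfield containing their power sums (Newton: the
coefficients of `∏ a, (X - z a)` are polynomials in the power sums, characteristic zero). -/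
theorem isAlgebraic_of_PS {Ω : Type*} [Field Ω] [CharZero Ω] (S : Subfield Ω) {z : Fin 27 → Ω}
    (hz : ∀ j, PS j z ∈ S) (a : Fin 27) : IsAlgebraic S (z a) := by
  let s : Multiset Ω := univ.val.map z
  let p : Polynomial Ω := (s.map fun t => Polynomial.X - Polynomial.C t).prod
  have hmon : p.Monic := Polynomial.monic_multiset_prod_of_monic _ _ fun t _ =>
    Polynomial.monic_X_sub_C t
  have hroot : p.eval (z a) = 0 := by
    simp only [p, Polynomial.eval_multiset_prod, Multiset.map_map, Function.comp_apply]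
    refine Multiset.prod_eq_zero ?_
    rw [Multiset.mem_map]
    exact ⟨z a, Multiset.mem_map_of_mem z (mem_univ a), by simp⟩
  have hlift : p ∈ Polynomial.lifts (algebraMap S Ω) := by
    rw [Polynomial.lifts_iff_coeff_lifts]
    intro n
    have hmem : p.coeff n ∈ S := by
      by_cases hn : n ≤ Multiset.card s
      · rw [Multiset.prod_X_sub_C_coeff s hn]
        refine S.mul_mem (S.pow_mem (S.neg_mem S.one_mem) _) ?_
        have h5 := MvPolynomial.aeval_esymm_eq_multiset_esymm (Fin 27) ℚ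
          (Multiset.card s - n) z
        rw [← h5]
        exact esymm_mem S hz _
      · have hd : p.natDegree = Multiset.card s := by
          simp only [p]
          rw [Polynomial.natDegree_multiset_prod_X_sub_C_eq_card]
        rw [Polynomial.coeff_eq_zero_of_natDegree_lt (by omega)]
        exact S.zero_mem
    exact ⟨⟨_, hmem⟩, rfl⟩
  obtain ⟨q, hq⟩ := (Polynomial.mem_lifts p).mp hlift
  refine ⟨q, ?_, ?_⟩
  · rintro rfl
    rw [Polynomial.map_zero] at hq
    exact hmon.ne_zero hq.symm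
  · rw [Polynomial.aeval_def, ← Polynomial.eval_map, hq, hroot]

/-- The coordinates are rational combinations of the values. -/
theorem mem_of_lf {Ω : Type*} [Field Ω] [CharZero Ω] (S : Subfield Ω) {ζ : Fin 6 → Ω}
    (h : ∀ a, lf ζ a ∈ S) (j : Fin 6) : ζ j ∈ S := by
  have h2 : (2 : Ω) ≠ 0 := two_ne_zero
  have h3 : ζ j = (2 : Ω)⁻¹ * ∑ a, (cw j a : Ω) * lf ζ a := by
    rw [← two_mul_coord, inv_mul_cancel_left₀ h2]
  rw [h3]
  refine S.mul_mem (S.inv_mem (ofNat_mem S 2)) (S.sum_mem fun a _ => S.mul_mem ?_ (h a))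
  exact intCast_mem S _

end Pool.Agent.Lib.MP_12adaf_nt.E6
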