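import Pool.Agent.Lib.MP_12adaf_ntE6.E02

/-!
# `E₆`: the classical Dunkl operators on functions on the Weyl group, commutation
-/

namespace Pool.Agent.Lib.MP_12adaf_nt.E6

set_option linter.unusedSectionVars false

open Finset

namespace Pk

/-- the checks of `cc_ri` and `cc_ri'` -/
noncomputable def crC : Bool :=
  allB (fun i => allB (fun j => conB
    (Nat.beq (Nat.add (c (r i j) i) (Nat.mul (e i j) (c i j))) (Nat.add (e i j) (c i j)))
    (impB (disB (Nat.beq (c i j) 0) (Nat.beq (c i j) 2)) (Nat.beq (c j (r i j)) (e i j)))) 36) 36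

theorem crC_true : crC = true := by decide +kernel

/-- the check of `mm_ri` -/
noncomputable def mrC : Bool :=
  allB (fun i => allB (fun j => allB (fun a => Nat.beq
    (Nat.add (Nat.add (m j a) (m i a)) (Nat.add (Nat.add (c i j) (e i j)) (m (r i j) a)))
    (Nat.add (Nat.add (Nat.mul (c i j) (m i a)) (Nat.mul (e i j) (m (r i j) a))) 3)) 27) 36) 36

theorem mrC_true : mrC = true := by decide +kernel

end Pk

open Pk in
theorem cc_ri : ∀ i j : Fin 36, cc (ri i j) i = - (rs i j * cc i j) := by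
  intro i j
  have h := of_beq (conB_spec (allB_spec (allB_spec crC_true i i.2) j j.2)).1
  have h1 : c (r i j) i + e i j * c i j = e i j + c i j := h
  rw [← r_eq] at h1
  have h2 := c_eq (ri i j) i
  have h3 : cc (ri i j) i = (c (ri i j) i : ℕ) - 1 := by omega
  have h4 := c_eq i j
  have h5 : cc i j = (c i j : ℕ) - 1 := by omega
  have h6 := e_eq i j
  have h7 : rs i j = (e i j : ℕ) - 1 := by omega
  have h8 : (c (ri i j) i : ℤ) + e i j * c i j = e i j + c i j := by exact_mod_cast h1
  rw [h3, h5, h7]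
  linear_combination h8

open Pk in
theorem cc_ri' : ∀ i j : Fin 36, cc i j * cc i j = 1 → cc j (ri i j) = rs i j := by
  intro i j hc
  rw [sq_one (c_eq i j) (c_le i j)] at hc
  have h0 : disB (Nat.beq (c i j) 0) (Nat.beq (c i j) 2) = true := by
    rcases hc with h | h <;> rw [h] <;> rfl
  have h := of_beq (impB_spec (conB_spec (allB_spec (allB_spec crC_true i i.2) j j.2)).2 h0)
  rw [← r_eq] at h
  have h2 := c_eq j (ri i j)
  have h6 := e_eq i j
  omega

open Pk in
theorem mm_ri : ∀ (i j : Fin 36) (a : Fin 27),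
    mm j a - cc i j * mm i a = rs i j * mm (ri i j) a := by
  intro i j a
  have h := of_beq (allB_spec (allB_spec (allB_spec mrC_true i i.2) j j.2) a a.2)
  have h1 : m j a + m i a + (c i j + e i j + m (r i j) a) =
    c i j * m i a + e i j * m (r i j) a + 3 := h
  rw [← r_eq] at h1
  have h2 := m_eq j a
  have h3 : mm j a = (m j a : ℕ) - 1 := by omega
  have h4 := m_eq i a
  have h5 : mm i a = (m i a : ℕ) - 1 := by omega
  have h6 := m_eq (ri i j) a
  have h7 : mm (ri i j) a = (m (ri i j) a : ℕ) - 1 := by omega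
  have h8 := c_eq i j
  have h9 : cc i j = (c i j : ℕ) - 1 := by omega
  have h10 := e_eq i j
  have h11 : rs i j = (e i j : ℕ) - 1 := by omega
  have h12 : (m j a : ℤ) + m i a + (c i j + e i j + m (ri i j) a) =
    c i j * m i a + e i j * m (ri i j) a + 3 := by exact_mod_cast h1
  rw [h3, h5, h7, h9, h11]
  linear_combination h12

section ops

variable {Ω : Type*} [Field Ω] [CharZero Ω]

/-- The translate of the base point `x` by `w`. -/
def tr (x : Fin 27 → Ω) (w : W) : Fin 27 → Ω := fun a => x (w⁻¹ • a)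

lemma IsV.tr {x : Fin 27 → Ω} (hx : IsV x) (w : W) : IsV (tr x w) := hx.comp w⁻¹

lemma rt_ri {z : Fin 27 → Ω} (hz : IsV z) (i j : Fin 36) :
    rt j z - (cc i j : Ω) * rt i z = (rs i j : Ω) * rt (ri i j) z := by
  obtain ⟨ζ, rfl⟩ := hz
  rw [rt_lf, rt_lf, rt_lf, mul_sum, mul_sum, ← sum_sub_distrib]
  refine sum_congr rfl fun l _ => ?_
  have h1 : (rs i j : Ω) * rho (ri i j) l = rho j l - cc i j * rho i l := by
    exact_mod_cast congrArg (Int.cast (R := Ω)) (rho_ri i j l).symm
  linear_combination (-ζ l) * h1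

lemma tr_mul (x : Fin 27 → Ω) (u w : W) : tr x (u * w) = tr (tr x w) u := by
  funext a
  simp [tr, mul_smul]

lemma tr_one (x : Fin 27 → Ω) : tr x 1 = x := by
  funext a
  simp [tr]

lemma tr_apply (x : Fin 27 → Ω) (w : W) (a : Fin 27) : tr x w a = x (w⁻¹ • a) := rfl

lemma tr_ne {x : Fin 27 → Ω} (hx : IsV x) (h0 : ∀ i, rt i x ≠ 0) (w : W) (i : Fin 36) :
    rt i (tr x w) ≠ 0 := by
  have h1 := rt_comp hx w⁻¹ i
  rw [show rt i (tr x w) = (we w⁻¹ i : Ω) * rt (wi w⁻¹ i) x from h1]
  refine mul_ne_zero ?_ (h0 _)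
  intro h
  have h2 : ((we w⁻¹ i * we w⁻¹ i : ℤ) : Ω) = 1 := by rw [we_sq]; norm_num
  push_cast at h2
  rw [h] at h2
  norm_num at h2

/-- root values after a reflection -/
lemma rt_tr_sW {x : Fin 27 → Ω} (hx : IsV x) (w : W) (i j : Fin 36) :
    rt j (tr x (sW i * w)) = rt j (tr x w) - (cc i j : Ω) * rt i (tr x w) := by
  have hz := hx.tr w
  simp only [rt, tr_mul]
  have h1 : ∀ a, tr (tr x w) (sW i) a = tr x w a - (mm i a : Ω) * rt i (tr x w) := by
    intro a
    rw [tr_apply, sW_inv, sW_smul, hz.sT]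
  rw [h1, h1, cc]
  simp only [rt]
  push_cast
  ring

/-- **The Dunkl operators** at `t = 0`, on the functions on the orbit of `x`. -/
def T (x : Fin 27 → Ω) (a : Fin 27) : Module.End Ω (W → Ω) where
  toFun φ w := ∑ i, (mm i a : Ω) / rt i (tr x w) * φ (sW i * w)
  map_add' φ ψ := by
    funext w
    simp only [Pi.add_apply, mul_add, sum_add_distrib]
  map_smul' c φ := by
    funext w
    simp only [Pi.smul_apply, smul_eq_mul, RingHom.id_apply, mul_sum]
    exact sum_congr rfl fun i _ => by ring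

lemma T_apply (x : Fin 27 → Ω) (a : Fin 27) (φ : W → Ω) (w : W) :
    T x a φ w = ∑ i, (mm i a : Ω) / rt i (tr x w) * φ (sW i * w) := rfl

/-- Multiplication by the coordinate functions. -/
def M (x : Fin 27 → Ω) (c : Fin 27) : Module.End Ω (W → Ω) where
  toFun φ w := tr x w c * φ w
  map_add' φ ψ := by
    funext w
    simp only [Pi.add_apply, mul_add]
  map_smul' c φ := by
    funext w
    simp only [Pi.smul_apply, smul_eq_mul, RingHom.id_apply]
    ring

lemma M_apply (x : Fin 27 → Ω) (c : Fin 27) (φ : W → Ω) (w : W) :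
    M x c φ w = tr x w c * φ w := rfl

/-- Left translation. -/
def Lt (u : W) : Module.End Ω (W → Ω) where
  toFun φ w := φ (u⁻¹ * w)
  map_add' φ ψ := rfl
  map_smul' c φ := rfl

lemma Lt_apply (u : W) (φ : W → Ω) (w : W) : Lt u φ w = φ (u⁻¹ * w) := rfl

lemma Lt_mul (u v : W) (φ : W → Ω) : Lt (u * v) φ = Lt u (Lt v φ) := by
  funext w
  simp [Lt_apply, mul_assoc]

lemma Lt_one (φ : W → Ω) : Lt 1 φ = φ := by
  funext w
  simp [Lt_apply]

lemma tr_inv_mul (x : Fin 27 → Ω) (u w : W) (a : Fin 27) :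
    tr x (u⁻¹ * w) a = tr x w (u • a) := by
  simp [tr, mul_smul]

/-- Equivariance of the Dunkl operators. -/
lemma T_Lt {x : Fin 27 → Ω} (hx : IsV x) (u : W) (a : Fin 27) (φ : W → Ω) :
    T x (u • a) (Lt u φ) = Lt u (T x a φ) := by
  funext w
  rw [T_apply, Lt_apply, T_apply]
  refine (Fintype.sum_bijective (wi u) (wi_bijective u) _ _ fun i => ?_).symm
  have h1 : rt i (tr x (u⁻¹ * w)) = (we u i : Ω) * rt (wi u i) (tr x w) := by
    have h2 := rt_comp (hx.tr w) u i
    have h3 : tr x (u⁻¹ * w) = fun a => tr x w (u • a) := funext fun a => tr_inv_mul x u w a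
    rw [h3, h2]
  have h4 : (mm i a : Ω) = we u i * mm (wi u i) (u • a) := by
    rw [mm_wi u i a]; push_cast; rfl
  have h5 : (we u i : Ω) ≠ 0 := by
    intro h
    have h2 : ((we u i * we u i : ℤ) : Ω) = 1 := by rw [we_sq]; norm_num
    push_cast at h2
    rw [h] at h2
    norm_num at h2
  rw [h1, h4, mul_div_mul_left _ _ h5, Lt_apply, ← sW_wi u i]
  congr 2
  group

lemma M_Lt (x : Fin 27 → Ω) (u : W) (c : Fin 27) (φ : W → Ω) :
    M x (u • c) (Lt u φ) = Lt u (M x c φ) := by
  funext w
  rw [M_apply, Lt_apply, Lt_apply, M_apply, tr_inv_mul]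

/-- The commutator of the Dunkl operators and the coordinates. -/
lemma T_M {x : Fin 27 → Ω} (hx : IsV x) (h0 : ∀ i, rt i x ≠ 0) (a c : Fin 27) (φ : W → Ω) :
    T x a (M x c φ) = M x c (T x a φ) - ∑ i, ((mm i a * mm i c : ℤ) : Ω) • Lt (sW i) φ := by
  funext w
  rw [Pi.sub_apply, Finset.sum_apply, M_apply, T_apply, T_apply, mul_sum, ← sum_sub_distrib]
  refine sum_congr rfl fun i _ => ?_
  have h1 : tr x (sW i * w) c = tr x w c - (mm i c : Ω) * rt i (tr x w) := by
    rw [tr_mul, tr_apply, sW_inv, sW_smul, (hx.tr w).sT]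
  have h2 := tr_ne hx h0 w i
  rw [M_apply, h1, Pi.smul_apply, Lt_apply, sW_inv, smul_eq_mul]
  push_cast
  field_simp

/-- Commutation, the sum over pairs of roots. -/
lemma comm_sum {r : Fin 36 → Ω} (hr : ∀ i, r i ≠ 0)
    (hrr : ∀ i j, r j - (cc i j : Ω) * r i = (rs i j : Ω) * r (ri i j))
    (Φ : W → Ω) (a b : Fin 27) :
    ∑ p : Fin 36 × Fin 36, ((mm p.1 a : Ω) * mm p.2 b - mm p.1 b * mm p.2 a) /
      (r p.1 * (r p.2 - (cc p.1 p.2 : Ω) * r p.1)) * Φ (sW p.2 * sW p.1) = 0 := by
  set f : Fin 36 × Fin 36 → Ω := fun p => ((mm p.1 a : Ω) * mm p.2 b - mm p.1 b * mm p.2 a) /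
      (r p.1 * (r p.2 - (cc p.1 p.2 : Ω) * r p.1)) * Φ (sW p.2 * sW p.1) with hf
  have hsplit : ∀ p, f p = (if cc p.1 p.2 = 0 then f p else 0) +
      (if cc p.1 p.2 * cc p.1 p.2 = 1 then f p else 0) := by
    intro p
    rcases cc_cases p.1 p.2 with ⟨h, _⟩ | ⟨h, _⟩ | ⟨h, h'⟩
    · simp [h]
    · have h1 : cc p.1 p.2 ≠ 0 := by
        intro h2
        rw [h2] at h
        norm_num at h
      rw [if_neg h1, if_pos h, zero_add]
    · rw [if_neg (by rw [h]; norm_num), if_neg (by rw [h]; norm_num), add_zero]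
      simp only [hf]
      rw [← h', mul_comm (mm p.1 a : Ω), sub_self, zero_div, zero_mul]
  have hS : ∑ p, f p = ∑ p, (if cc p.1 p.2 = 0 then f p else 0) +
      ∑ p, (if cc p.1 p.2 * cc p.1 p.2 = 1 then f p else 0) := by
    rw [← sum_add_distrib]
    exact sum_congr rfl fun p _ => hsplit p
  rw [hS]
  -- orthogonal pairs
  have h0 : ∑ p, (if cc p.1 p.2 = 0 then f p else 0) = 0 := by
    have h1 : ∑ p, (if cc p.1 p.2 = 0 then f p else 0) =
        ∑ p : Fin 36 × Fin 36, -(if cc p.1 p.2 = 0 then f p else 0) := by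
      refine Fintype.sum_equiv (Equiv.prodComm _ _) _ _ fun p => ?_
      simp only [Equiv.prodComm_apply, Prod.fst_swap, Prod.snd_swap]
      rw [cc_comm p.2 p.1]
      split_ifs with h
      · have h2 : ri p.1 p.2 = p.2 := ri_of_cc _ _ h
        have h3 : sW p.1 * sW p.2 = sW p.2 * sW p.1 := by
          have := sW_conj p.1 p.2
          rw [h2] at this
          calc sW p.1 * sW p.2 = sW p.1 * sW p.2 * (sW p.1 * sW p.1) := by
                rw [sW_mul_self, mul_one]
            _ = (sW p.1 * sW p.2 * sW p.1) * sW p.1 := by group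
            _ = _ := by rw [this]
        simp only [hf, Prod.fst_swap, Prod.snd_swap]
        rw [cc_comm p.2 p.1, h, h3]
        have hr1 := hr p.1
        have hr2 := hr p.2
        rw [Int.cast_zero, zero_mul, sub_zero, zero_mul, sub_zero]
        field_simp
        ring
      · simp
    rw [sum_neg_distrib] at h1
    have h2 : (2 : Ω) * ∑ p, (if cc p.1 p.2 = 0 then f p else 0) = 0 := by
      linear_combination h1
    exact (mul_eq_zero.mp h2).resolve_left two_ne_zero
  -- pairs in subsystems of type `A₂`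
  let Ψ : Fin 36 × Fin 36 ≃ Fin 36 × Fin 36 :=
    ⟨fun p => (ri p.1 p.2, p.1), fun p => (p.2, ri p.2 p.1),
      fun p => by simp [ri_invol], fun p => by simp [ri_invol]⟩
  have hcc : ∀ p : Fin 36 × Fin 36, cc (Ψ p).1 (Ψ p).2 * cc (Ψ p).1 (Ψ p).2 =
      cc p.1 p.2 * cc p.1 p.2 := by
    intro p
    change cc (ri p.1 p.2) p.1 * cc (ri p.1 p.2) p.1 = _
    rw [cc_ri]
    linear_combination (cc p.1 p.2 * cc p.1 p.2) * rs_sq p.1 p.2
  set g : Fin 36 × Fin 36 → Ω := fun p => if cc p.1 p.2 * cc p.1 p.2 = 1 then f p else 0 with hg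
  have hg1 : ∑ p, g p = ∑ p, g (Ψ p) := (Equiv.sum_comp Ψ g).symm
  have hg2 : ∑ p, g p = ∑ p, g (Ψ (Ψ p)) := by
    rw [hg1]
    exact (Equiv.sum_comp Ψ (fun p => g (Ψ p))).symm
  have hsum : ∀ p, g p + g (Ψ p) + g (Ψ (Ψ p)) = 0 := by
    rintro ⟨i, j⟩
    by_cases hc : cc i j * cc i j = 1
    · obtain ⟨e1, e2, e3⟩ := ri_ri i j hc
      have hc1 : g (i, j) = f (i, j) := by simp only [hg]; rw [if_pos hc]
      have hΨ1 : Ψ (i, j) = (ri i j, i) := rfl
      have hΨ2 : Ψ (Ψ (i, j)) = (j, ri i j) := by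
        rw [hΨ1]
        change (ri (ri i j) i, ri i j) = _
        rw [e1]
      have hc2 : g (ri i j, i) = f (ri i j, i) := by simp only [hg]; rw [if_pos e3]
      have hc4 : cc j (ri i j) * cc j (ri i j) = 1 := by
        rw [cc_ri' i j hc]; exact rs_sq i j
      have hc3 : g (j, ri i j) = f (j, ri i j) := by simp only [hg]; rw [if_pos hc4]
      rw [hΨ2, hΨ1, hc1, hc2, hc3]
      -- group elements
      have w1 : sW i * sW (ri i j) = sW j * sW i := by
        rw [← sW_conj i j]
        calc sW i * (sW i * sW j * sW i) = (sW i * sW i) * sW j * sW i := by group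
          _ = _ := by rw [sW_mul_self, one_mul]
      have w2 : sW (ri i j) * sW j = sW j * sW i := by
        have := sW_conj j (ri i j)
        rw [e2] at this
        calc sW (ri i j) * sW j = (sW j * sW j) * sW (ri i j) * sW j := by
              rw [sW_mul_self, one_mul]
          _ = sW j * (sW j * sW (ri i j) * sW j) := by group
          _ = _ := by rw [this]
      simp only [hf]
      rw [w1, w2]
      -- scalars
      have hk := hr (ri i j)
      have hi := hr i
      have hj := hr j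
      have a1 : (cc (ri i j) i : Ω) = -((rs i j : Ω) * cc i j) := by
        rw [cc_ri]; push_cast; ring
      have a2 : (cc j (ri i j) : Ω) = rs i j := by rw [cc_ri' i j hc]
      have a3 : (cc i j : Ω) * cc i j = 1 := by exact_mod_cast congrArg (Int.cast (R := Ω)) hc
      have a4 : (rs i j : Ω) * rs i j = 1 := by
        exact_mod_cast congrArg (Int.cast (R := Ω)) (rs_sq i j)
      have m1 : (mm j a : Ω) - cc i j * mm i a = rs i j * mm (ri i j) a := by
        exact_mod_cast congrArg (Int.cast (R := Ω)) (mm_ri i j a)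
      have m2 : (mm j b : Ω) - cc i j * mm i b = rs i j * mm (ri i j) b := by
        exact_mod_cast congrArg (Int.cast (R := Ω)) (mm_ri i j b)
      have r1 := hrr i j
      set c : Ω := (cc i j : Ω)
      set ε : Ω := (rs i j : Ω)
      set k := ri i j
      have hε : ε ≠ 0 := by
        intro h
        rw [h] at a4
        norm_num at a4
      have hcn : c ≠ 0 := by
        intro h
        rw [h] at a3
        norm_num at a3
      have mk1 : (mm k a : Ω) = ε * ((mm j a : Ω) - c * mm i a) := by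
        rw [m1]; linear_combination -(mm k a : Ω) * a4
      have mk2 : (mm k b : Ω) = ε * ((mm j b : Ω) - c * mm i b) := by
        rw [m2]; linear_combination -(mm k b : Ω) * a4
      have b1 : r j - c * r i = ε * r k := r1
      have b2 : r i - (cc k i : Ω) * r k = c * r j := by
        rw [a1]
        linear_combination (-c) * b1 - r i * a3
      have b3 : r k - (cc j k : Ω) * r j = -(ε * c * r i) := by
        rw [a2]
        linear_combination (-ε) * b1 - r k * a4
      rw [b1, b2, b3, mk1, mk2]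
      have b4 : r k = ε * (r j - c * r i) := by
        rw [b1]; linear_combination -(r k) * a4
      have hki : ε * (r j - c * r i) ≠ 0 := b4 ▸ hk
      have key : ((mm i a : Ω) * mm j b - mm i b * mm j a) / (r i * (ε * r k)) +
          (ε * ((mm j a : Ω) - c * mm i a) * mm i b - ε * ((mm j b : Ω) - c * mm i b) * mm i a) /
            (r k * (c * r j)) +
          ((mm j a : Ω) * (ε * ((mm j b : Ω) - c * mm i b)) -
            mm j b * (ε * ((mm j a : Ω) - c * mm i a))) / (r j * -(ε * c * r i)) = 0 := by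
        field_simp
        linear_combination ((mm i a : Ω) * mm j b - mm i b * mm j a) *
          (c * b1 + r i * a3 - r i * a4)
      linear_combination (Φ (sW j * sW i)) * key
    · have h1 : ∀ p : Fin 36 × Fin 36, cc p.1 p.2 * cc p.1 p.2 ≠ 1 → g p = 0 := by
        intro p hp
        simp only [hg]
        rw [if_neg hp]
      rw [h1 _ hc, h1 _ (by rw [hcc]; exact hc), h1 _ (by rw [hcc, hcc]; exact hc)]
      ring
  have h3 : (3 : Ω) * ∑ p, g p = 0 := by
    have h4 : ∑ p, (g p + g (Ψ p) + g (Ψ (Ψ p))) = 0 := sum_eq_zero fun p _ => hsum p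
    rw [sum_add_distrib, sum_add_distrib, ← hg1, ← hg2] at h4
    linear_combination h4
  rw [h0, zero_add]
  exact (mul_eq_zero.mp h3).resolve_left three_ne_zero

/-- **The Dunkl operators commute.** -/
theorem T_comm {x : Fin 27 → Ω} (hx : IsV x) (h0 : ∀ i, rt i x ≠ 0) (a b : Fin 27) (φ : W → Ω) :
    T x a (T x b φ) = T x b (T x a φ) := by
  funext w
  have h1 : ∀ a b, T x a (T x b φ) w = ∑ p : Fin 36 × Fin 36, ((mm p.1 a : Ω) * mm p.2 b) /
      (rt p.1 (tr x w) * (rt p.2 (tr x w) - (cc p.1 p.2 : Ω) * rt p.1 (tr x w))) *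
        φ (sW p.2 * (sW p.1 * w)) := by
    intro a b
    rw [T_apply, Fintype.sum_prod_type]
    refine sum_congr rfl fun i _ => ?_
    rw [T_apply, mul_sum]
    refine sum_congr rfl fun j _ => ?_
    rw [rt_tr_sW hx, ← mul_assoc, div_mul_div_comm]
  have h2 := comm_sum (r := fun i => rt i (tr x w)) (fun i => tr_ne hx h0 w i)
    (fun i j => rt_ri (hx.tr w) i j) (fun u => φ (u * w)) a b
  rw [← sub_eq_zero, h1, h1, ← sum_sub_distrib, ← h2]
  refine sum_congr rfl fun p _ => ?_
  simp only [mul_assoc]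
  ring

end ops

end Pool.Agent.Lib.MP_12adaf_nt.E6
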