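import Pool.Agent.Lib.MP_12adaf_ntE6.E02d
import Pool.Agent.Lib.MP_12adaf_ntE6.E04t

/-!
# `E₆`: the Hankel certificate
-/

namespace Pool.Agent.Lib.MP_12adaf_nt.E6

open Finset

section transfer

/-- the roots as polynomials -/
private noncomputable def rP (i : Fin 36) : MvPolynomial (Fin 6) ℤ :=
  ∑ j, MvPolynomial.C (rho i j) * MvPolynomial.X j

/-- the Lax matrix, without denominators -/
private noncomputable def LP : Matrix (Fin 27) (Fin 27) (MvPolynomial (Fin 6) ℤ) :=
  Matrix.of fun a b => if gg a b = 1 then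
    MvPolynomial.C (sg a b) * ∏ i ∈ univ.erase (ix a b), rP i else 0

private noncomputable def PPj (j : ℕ) : MvPolynomial (Fin 6) ℤ :=
  ∑ a, Matrix.mulVec (LP ^ j) (fun _ => 1) a

private noncomputable def hPol : MvPolynomial (Fin 6) ℤ :=
  (Matrix.of fun i j : Fin 25 => PPj ((i : ℕ) + j)).det

variable {S : Type*} [Field S]

private noncomputable def ev (ζ : Fin 6 → S) : MvPolynomial (Fin 6) ℤ →+* S :=
  MvPolynomial.eval₂Hom (Int.castRingHom S) ζ

private lemma ev_C (ζ : Fin 6 → S) (z : ℤ) : ev ζ (MvPolynomial.C z) = (z : S) := by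
  simp [ev]

private lemma ev_rP (ζ : Fin 6 → S) (i : Fin 36) : ev ζ (rP i) = rt i (lf ζ) := by
  rw [rt_lf, rP, map_sum]
  refine sum_congr rfl fun j _ => ?_
  rw [map_mul, ev_C]
  simp [ev]

private lemma ev_LP (ζ : Fin 6 → S) (h0 : ∀ i, rt i (lf ζ) ≠ 0) :
    LP.map (ev ζ) = (DD (lf ζ)) • lax (lf ζ) := by
  ext a b
  rw [Matrix.map_apply, Matrix.smul_apply, LP, Matrix.of_apply, lax, Matrix.of_apply]
  split_ifs with h
  · have h1 : lf ζ a - lf ζ b = (sg a b : S) * rt (ix a b) (lf ζ) :=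
      IsV.sub_of_gg ⟨ζ, rfl⟩ h
    have h2 : (sg a b : S) * sg a b = 1 := by
      rw [← Int.cast_mul, sg_sq a b h, Int.cast_one]
    have hr := h0 (ix a b)
    have hs : (sg a b : S) ≠ 0 := by
      intro h3
      rw [h3, mul_zero] at h2
      exact zero_ne_one h2
    rw [map_mul, ev_C, map_prod, h1, DD,
      ← mul_prod_erase univ (fun i => rt i (lf ζ)) (mem_univ (ix a b))]
    have h3 : ∏ i ∈ univ.erase (ix a b), ev ζ (rP i) =
        ∏ i ∈ univ.erase (ix a b), rt i (lf ζ) :=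
      prod_congr rfl fun i _ => ev_rP ζ i
    rw [h3, smul_eq_mul]
    have h4 : (1 : S) / ((sg a b : S) * rt (ix a b) (lf ζ)) =
        (sg a b : S) / rt (ix a b) (lf ζ) := by
      rw [div_eq_div_iff (mul_ne_zero hs hr) hr, one_mul]
      linear_combination (-rt (ix a b) (lf ζ)) * h2
    rw [h4]
    field_simp
  · simp

private lemma ev_PPj (ζ : Fin 6 → S) (h0 : ∀ i, rt i (lf ζ) ≠ 0) (j : ℕ) :
    ev ζ (PPj j) = DD (lf ζ) ^ j * hS (lf ζ) j := by
  rw [PPj, map_sum, hS, mul_sum]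
  refine sum_congr rfl fun a _ => ?_
  rw [RingHom.map_mulVec]
  have h1 : (LP ^ j).map (ev ζ) = (DD (lf ζ) ^ j) • lax (lf ζ) ^ j := by
    have h2 : (LP ^ j).map (ev ζ) = (LP.map (ev ζ)) ^ j := by
      have := map_pow (ev ζ).mapMatrix LP j
      simpa only [RingHom.mapMatrix_apply] using this
    rw [h2, ev_LP ζ h0, smul_pow]
  have h3 : (ev ζ) ∘ (fun _ : Fin 27 => (1 : MvPolynomial (Fin 6) ℤ)) = fun _ => (1 : S) := by
    funext a
    simp
  rw [h1, h3, Matrix.smul_mulVec]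
  rfl

private lemma ev_hPol (ζ : Fin 6 → S) (h0 : ∀ i, rt i (lf ζ) ≠ 0) :
    ev ζ hPol = (∏ i : Fin 25, DD (lf ζ) ^ (i : ℕ)) * ((∏ i : Fin 25, DD (lf ζ) ^ (i : ℕ)) *
      (Matrix.of fun i j : Fin 25 => hS (lf ζ) ((i : ℕ) + j)).det) := by
  rw [hPol, RingHom.map_det, ← Matrix.det_mul_row, ← Matrix.det_mul_column]
  congr 1
  ext i j
  simp only [RingHom.mapMatrix_apply, Matrix.map_apply, Matrix.of_apply]
  rw [ev_PPj ζ h0, pow_add]
  ring

private lemma ev_hPol_ne (ζ : Fin 6 → S) (h0 : ∀ i, rt i (lf ζ) ≠ 0) :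
    ev ζ hPol ≠ 0 ↔ (Matrix.of fun i j : Fin 25 => hS (lf ζ) ((i : ℕ) + j)).det ≠ 0 := by
  have hd : DD (lf ζ) ≠ 0 := by
    rw [DD]
    exact prod_ne_zero_iff.2 fun i _ => h0 i
  have hp : (∏ i : Fin 25, DD (lf ζ) ^ (i : ℕ)) ≠ 0 :=
    prod_ne_zero_iff.2 fun i _ => pow_ne_zero _ hd
  rw [ev_hPol ζ h0]
  simp [hp]

end transfer

section mod61

private instance fact61 : Fact (Nat.Prime 61) := ⟨by norm_num⟩

private lemma cast61 {z : ℤ} (h : z % 61 = 0) : ((z : ℤ) : ZMod 61) = 0 := by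
  rw [ZMod.intCast_zmod_eq_zero_iff_dvd]
  exact Int.dvd_of_emod_eq_zero h

private noncomputable def z61 (j : Fin 6) : ZMod 61 := ((pt61 j : ℤ) : ZMod 61)

private lemma rt61 (i : Fin 36) : rt i (lf z61) ≠ 0 := by
  rw [rt_lf]
  intro h
  have h1 : ((∑ j, rho i j * pt61 j : ℤ) : ZMod 61) = 0 := by
    push_cast
    exact h
  rw [ZMod.intCast_zmod_eq_zero_iff_dvd] at h1
  exact root61 i (Int.emod_eq_zero_of_dvd (by exact_mod_cast h1))

private lemma lax61 (a b : Fin 27) : lax (lf z61) a b = ((lx a b : ℤ) : ZMod 61) := by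
  rw [lax, Matrix.of_apply]
  obtain ⟨h1, h2⟩ := lx_spec a b
  split_ifs with h
  · have h3 := h1 h
    have h4 : ((lx a b * ∑ j, (wt a j - wt b j) * pt61 j - 1 : ℤ) : ZMod 61) = 0 :=
      cast61 (by omega)
    have h5 : lf z61 a - lf z61 b = ((∑ j, (wt a j - wt b j) * pt61 j : ℤ) : ZMod 61) := by
      push_cast
      simp only [lf, z61]
      rw [← sum_sub_distrib]
      exact sum_congr rfl fun j _ => by ring
    have h6 : ((lx a b : ℤ) : ZMod 61) * (lf z61 a - lf z61 b) = 1 := by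
      rw [h5]
      rw [Int.cast_sub, Int.cast_mul, Int.cast_one, sub_eq_zero] at h4
      exact h4
    have h7 : lf z61 a - lf z61 b ≠ 0 := by
      intro h8
      rw [h8, mul_zero] at h6
      exact zero_ne_one h6
    rw [eq_comm, eq_div_iff h7, h6]
  · rw [h2 h, Int.cast_zero]

private lemma vec61 (j : ℕ) (hj : j ≤ 48) (a : Fin 27) :
    Matrix.mulVec (lax (lf z61) ^ j) (fun _ => (1 : ZMod 61)) a = ((vx j a : ℤ) : ZMod 61) := by
  induction j generalizing a with
  | zero => rw [pow_zero, Matrix.one_mulVec, vx_zero, Int.cast_one]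
  | succ j ih =>
    rw [pow_succ', ← Matrix.mulVec_mulVec]
    have h1 := cast61 (vx_succ ⟨j, by omega⟩ a)
    rw [Int.cast_sub, sub_eq_zero] at h1
    rw [← h1, Matrix.mulVec, dotProduct]
    push_cast
    exact sum_congr rfl fun b _ => by rw [lax61, ih (by omega) b]

private lemma hS61 (j : ℕ) (hj : j ≤ 48) : hS (lf z61) j = ((hx j : ℤ) : ZMod 61) := by
  have h1 := cast61 (hx_spec ⟨j, by omega⟩)
  rw [Int.cast_sub, sub_eq_zero] at h1
  rw [← h1, hS]
  push_cast
  exact sum_congr rfl fun a _ => vec61 j hj a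

private lemma det61 : (Matrix.of fun i j : Fin 25 => hS (lf z61) ((i : ℕ) + j)).det ≠ 0 := by
  set H : Matrix (Fin 25) (Fin 25) (ZMod 61) :=
    Matrix.of fun i j : Fin 25 => hS (lf z61) ((i : ℕ) + j) with hH
  have h1 : H * (Matrix.of fun i j : Fin 25 => ((nx i j : ℤ) : ZMod 61)) = 1 := by
    ext i j
    rw [Matrix.mul_apply, Matrix.one_apply]
    have h2 := cast61 (nx_spec i j)
    rw [Int.cast_sub, sub_eq_zero] at h2
    have h3 : (((if i = j then 1 else 0 : ℤ)) : ZMod 61) = if i = j then 1 else 0 := by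
      split_ifs <;> simp
    rw [← h3, ← h2]
    push_cast
    refine sum_congr rfl fun k _ => ?_
    rw [hH, Matrix.of_apply, Matrix.of_apply, hS61 _ (by omega)]
  intro h
  have h4 := congrArg Matrix.det h1
  rw [Matrix.det_mul, h, zero_mul, Matrix.det_one] at h4
  exact zero_ne_one h4

end mod61

/-- **Certificate.**  At a generic point the Hankel determinant of order 25 does not vanish.
Proof: the entries of `lax x` are `sg a b / rt (ix a b) x`, so with `δ = DD x` the matrix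
`δ • lax x` is the value of a matrix with entries in `MvPolynomial (Fin 6) ℤ`
(`LP a b = sg a b * ∏ i ≠ ix a b, (∑ j, rho i j * X j)` if `gg a b = 1`, else `0`).  Hence with
`P j = ∑ a, (LP ^ j).mulVec 1 a` and `h = det (P (i + j))` one has for every ring homomorphism
`ev` to a field `S` at which the 36 roots do not vanish:
`ev h = det (δ ^ (i + j) * hS x (i + j)) = (∏ δ ^ i) ^ 2 * det (hS x (i + j))`.  Apply this to
`S = ZMod 61` and the point `(19, 15, 20, 18, 2, 19)` (the 36 roots are nonzero mod 61, the Hankel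
determinant is nonzero mod 61: kernel computation with tables, e.g. the vectors
`lax ^ j * 1`, `j ≤ 48`, and an inverse of the 25 × 25 Hankel matrix) to get `h ≠ 0`, and then to
`S = Ω`, where `aeval ζ` is injective. -/
theorem hankel_ne_zero {Ω : Type*} [Field Ω] [CharZero Ω] {ζ : Fin 6 → Ω}
    (hζ : AlgebraicIndependent ℚ ζ) :
    (Matrix.of fun i j : Fin 25 => hS (lf ζ) ((i : ℕ) + j)).det ≠ 0 := by
  have hinj : Function.Injective (ev ζ) := by
    have h1 : AlgebraicIndependent ℤ ζ :=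
      hζ.restrictScalars (RingHom.injective_int (algebraMap ℤ ℚ))
    exact h1
  have hne : ∀ p : MvPolynomial (Fin 6) ℤ, ev z61 p ≠ 0 → ev ζ p ≠ 0 := by
    intro p hp h
    have : p = 0 := hinj (by rw [h, map_zero])
    rw [this, map_zero] at hp
    exact hp rfl
  have h0 : ∀ i, rt i (lf ζ) ≠ 0 := by
    intro i
    rw [← ev_rP]
    refine hne _ ?_
    rw [ev_rP]
    exact rt61 i
  rw [← ev_hPol_ne ζ h0]
  refine hne _ ?_
  rw [ev_hPol_ne z61 rt61]
  exact det61

end Pool.Agent.Lib.MP_12adaf_nt.E6
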