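import Pool.Agent.Lib.MP_12adaf_ntE6.E02d

/-!
# `E₆`: at least 25 distinct values, trivial stabilizer
-/

namespace Pool.Agent.Lib.MP_12adaf_nt.E6

open Finset

/-- A Hankel matrix of power sums of a family of roots of a polynomial of small degree is
singular. -/
lemma det_hankel_eq_zero_of_monic {Ω ι : Type*} [Field Ω] [Fintype ι] {n : ℕ} {s : ℕ → Ω}
    {p : ι → Ω} (hp : ∀ j : ℕ, ∑ a, p a ^ j = s j) {P : Polynomial Ω} (hmonic : P.Monic)
    (hdeg : P.natDegree < n) (heval : ∀ a, P.eval (p a) = 0) :
    (Matrix.of fun i j : Fin n => s ((i : ℕ) + j)).det = 0 := by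
  have heval' : ∀ a, ∑ j : Fin n, P.coeff j * p a ^ (j : ℕ) = 0 := by
    intro a
    rw [← heval a, Polynomial.eval_eq_sum_range' (n := n) (by omega) (p a)]
    exact (Finset.sum_range fun i => P.coeff i * p a ^ i).symm
  have hex : ∃ v : Fin n → Ω, v ≠ 0 ∧
      (Matrix.of fun i j : Fin n => s ((i : ℕ) + j)).mulVec v = 0 := by
    refine ⟨fun j : Fin n => P.coeff j, ?_, ?_⟩
    · intro h0
      have h1 := congrFun h0 ⟨P.natDegree, by omega⟩
      have h2 : P.coeff P.natDegree = 0 := h1
      rw [Polynomial.coeff_natDegree, hmonic.leadingCoeff] at h2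
      exact one_ne_zero h2
    · funext i
      simp only [Matrix.mulVec, dotProduct, Matrix.of_apply, Pi.zero_apply]
      simp_rw [← hp, sum_mul]
      rw [sum_comm]
      refine sum_eq_zero fun a _ => ?_
      calc ∑ j : Fin n, p a ^ ((i : ℕ) + j) * P.coeff j
          = p a ^ (i : ℕ) * ∑ j : Fin n, P.coeff j * p a ^ (j : ℕ) := by
            rw [mul_sum]
            exact sum_congr rfl fun j _ => by rw [pow_add]; ring
        _ = 0 := by rw [heval' a, mul_zero]
  exact Matrix.exists_mulVec_eq_zero_iff.mp hex

/-- A Hankel matrix of power sums of a family with fewer than `n` values is singular. -/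
lemma det_hankel_eq_zero {Ω ι : Type*} [Field Ω] [DecidableEq Ω] [Fintype ι] {n : ℕ} {s : ℕ → Ω}
    {p : ι → Ω} (hp : ∀ j : ℕ, ∑ a, p a ^ j = s j) (hlt : (univ.image p).card < n) :
    (Matrix.of fun i j : Fin n => s ((i : ℕ) + j)).det = 0 := by
  refine det_hankel_eq_zero_of_monic hp (P := ∏ v ∈ univ.image p,
    (Polynomial.X - Polynomial.C v)) ?_ ?_ ?_
  · exact Polynomial.monic_prod_of_monic _ _ fun v _ => Polynomial.monic_X_sub_C v
  · rw [Polynomial.natDegree_prod_of_monic _ _ fun v _ => Polynomial.monic_X_sub_C v]
    simpa using hlt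
  · intro a
    rw [Polynomial.eval_prod]
    exact prod_eq_zero (mem_image_of_mem p (mem_univ a)) (by simp)

/-- If the Hankel determinant of order 25 of the power sums of `p` does not vanish, then `p` takes
at least 25 values (otherwise a nonzero polynomial of degree `≤ 24` vanishes at all the `p a`, and
its coefficient vector is in the kernel of the Hankel matrix). -/
theorem card_image_of_hankel {Ω : Type*} [Field Ω] [DecidableEq Ω] {x p : Fin 27 → Ω}
    (hdet : (Matrix.of fun i j : Fin 25 => hS x ((i : ℕ) + j)).det ≠ 0)
    (hp : ∀ j : ℕ, ∑ a, p a ^ j = hS x j) : 25 ≤ (univ.image p).card := by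
  by_contra hlt
  rw [not_le] at hlt
  exact hdet (det_hankel_eq_zero (s := hS x) hp hlt)

theorem card_gg_zero : ∀ a : Fin 27, (univ.filter fun b => gg a b = 0).card = 10 := by
  decide +kernel

/-- If `w` fixes two weights of a zero-sum triple, it fixes the third. -/
lemma fix_third (w : W) {a b c : Fin 27} (h : ∀ j, wt a j + wt b j + wt c j = 0)
    (hb : w • b = b) (hc : w • c = c) : w • a = a := by
  obtain ⟨A, hA⟩ := exists_mat w
  apply wt_inj
  intro j
  have h1 : (wt (w • a) j : ℚ) + wt b j + wt c j = 0 := by
    have hb' := hA b j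
    have hc' := hA c j
    rw [hb] at hb'
    rw [hc] at hc'
    rw [← hA a j, ← hb', ← hc', ← sum_add_distrib, ← sum_add_distrib]
    refine sum_eq_zero fun l _ => ?_
    have h4 : ((wt a l + wt b l + wt c l : ℤ) : ℚ) = 0 := by rw [h]; norm_num
    push_cast at h4
    linear_combination A l j * h4
  have h2 : wt (w • a) j + wt b j + wt c j = 0 := by exact_mod_cast h1
  have h3 := h j
  omega

/-- A point with at least 25 different values has trivial stabilizer: if `w` moves `a` then it
moves at least one of `b, c` for each of the five pairs `{b, c}` with `wt a + wt b + wt c = 0`, so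
it moves at least 6 weights, and the moved weights are in the nontrivial fibres of `p`, which have
at most `4` elements altogether. -/
theorem eq_one_of_fix {Ω : Type*} [Field Ω] [CharZero Ω] [DecidableEq Ω] {p : Fin 27 → Ω}
    (h25 : 25 ≤ (univ.image p).card) (w : W) (hw : ∀ a, p (w • a) = p a) : w = 1 := by
  set S : Finset (Fin 27) := univ.filter fun a => w • a ≠ a with hS
  set F : Finset (Fin 27) := univ.filter fun a => w • a = a with hF
  have hcard : S.card + F.card = 27 := by
    have h1 := card_filter_add_card_filter_not (s := (univ : Finset (Fin 27)))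
      (fun a => w • a = a)
    rw [card_univ, Fintype.card_fin] at h1
    rw [hS, hF, add_comm]
    exact h1
  -- the moved weights
  have h2 : 2 * (S.image p).card ≤ S.card := by
    apply mul_card_image_le_card
    intro v hv
    obtain ⟨a, ha, rfl⟩ := mem_image.mp hv
    have ha' : w • a ≠ a := (mem_filter.mp ha).2
    have hwa : w • w • a ≠ w • a := fun h => ha' (MulAction.injective w h)
    have hsub : ({a, w • a} : Finset (Fin 27)) ⊆ S.filter fun x => p x = p a := by
      intro x hx
      rcases mem_insert.mp hx with rfl | hx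
      · exact mem_filter.mpr ⟨ha, rfl⟩
      · rw [mem_singleton.mp hx]
        exact mem_filter.mpr ⟨mem_filter.mpr ⟨mem_univ _, hwa⟩, hw a⟩
    have h3 : ({a, w • a} : Finset (Fin 27)).card = 2 := card_pair ha'.symm
    rw [← h3]
    exact card_le_card hsub
  have h3 : (univ.image p).card ≤ (S.image p).card + F.card := by
    have hU : (univ : Finset (Fin 27)) = S ∪ F := by
      ext a
      by_cases h : w • a = a <;> simp [hS, hF, h]
    calc (univ.image p).card = ((S ∪ F).image p).card := by rw [← hU]
      _ = (S.image p ∪ F.image p).card := by rw [image_union]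
      _ ≤ (S.image p).card + (F.image p).card := card_union_le _ _
      _ ≤ _ := Nat.add_le_add_left card_image_le _
  have h4 : S.card ≤ 4 := by omega
  refine W_ext fun a => ?_
  rw [one_smul]
  by_contra ha
  -- the ten weights `b` with `gg a b = 0`
  set G : Finset (Fin 27) := univ.filter fun b => gg a b = 0 with hG
  have hG10 : G.card = 10 := card_gg_zero a
  have hex : ∀ b ∈ G, ∃ c, ∀ j, wt a j + wt b j + wt c j = 0 := by
    intro b hb
    have hb0 : gg a b = 0 := (mem_filter.mp hb).2
    refine (gg_zero_iff a b ?_).mp hb0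
    rintro rfl
    rw [gg_self] at hb0
    norm_num at hb0
  choose! f hf using hex
  have h5 : (G.filter fun b => w • b = b).card ≤ S.card := by
    apply card_le_card_of_injOn f
    · intro b hb
      have hb' := mem_filter.mp (mem_coe.mp hb)
      refine mem_coe.mpr (mem_filter.mpr ⟨mem_univ _, fun hc => ha ?_⟩)
      exact fix_third w (hf b hb'.1) hb'.2 hc
    · intro b hb b' hb' hbb
      have h6 := hf b (mem_filter.mp (mem_coe.mp hb)).1
      have h7 := hf b' (mem_filter.mp (mem_coe.mp hb')).1
      apply wt_inj
      intro j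
      have h8 := h6 j
      have h9 := h7 j
      rw [hbb] at h8
      omega
  have h6 : (G.filter fun b => ¬ w • b = b).card ≤ S.card :=
    card_le_card fun b hb => mem_filter.mpr ⟨mem_univ _, (mem_filter.mp hb).2⟩
  have h7 := card_filter_add_card_filter_not (s := G) (fun b => w • b = b)
  omega

end Pool.Agent.Lib.MP_12adaf_nt.E6
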