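import Pool.Agent.Lib.MP_12adaf_ntE6.E02d
import Pool.Agent.Lib.MP_12adaf_ntE6.E03

/-!
# `E₆`: a joint eigenvector of the Dunkl operators
-/

namespace Pool.Agent.Lib.MP_12adaf_nt.E6

set_option linter.unusedSectionVars false

open Finset

namespace Pk

/-- the check of `mm_sT` -/
noncomputable def msC : Bool :=
  allB (fun i => allB (fun a => disB (Nat.beq (m i a) 1)
    (conB (Nat.beq (g a (s i a)) 1) (Nat.beq (x a (s i a)) i))) 27) 36

theorem msC_true : msC = true := by decide +kernel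

/-- the check of `sT_ix_gg` -/
noncomputable def sxC : Bool :=
  allB (fun a => allB (fun b => impB (Nat.beq (g a b) 1)
    (conB (impB (Nat.beq (m (x a b) a) 1) false) (Nat.beq (s (x a b) a) b))) 27) 27

theorem sxC_true : sxC = true := by decide +kernel

/-- the check of `proj_mm` -/
noncomputable def pmC : Bool :=
  allB (fun i => allB (fun a => Nat.beq
    (Nat.add (sumB (fun b => Nat.add (Nat.mul 3 (Nat.mul (g a b) (m i b))) 2) 27) 18)
    (Nat.add (sumB (fun b => Nat.add (Nat.mul 3 (g a b)) (Nat.mul 2 (m i b))) 27)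
      (Nat.mul 18 (m i a)))) 27) 36

theorem pmC_true : pmC = true := by decide +kernel

end Pk

open Pk in
theorem mm_sT : ∀ (i : Fin 36) (a : Fin 27), mm i a ≠ 0 →
    gg a (sT i a) = 1 ∧ ix a (sT i a) = i := by
  intro i a hm
  have h1 := m_eq i a
  rcases disB_spec (allB_spec (allB_spec msC_true i i.2) a a.2) with h | h
  · have := of_beq h
    exact absurd (by omega) hm
  · obtain ⟨h2, h3⟩ := conB_spec h
    have h4 := of_beq h2
    have h5 := of_beq h3
    rw [← s_eq] at h4 h5
    exact ⟨by rw [g_eq, h4]; rfl, Fin.ext (by rw [x_eq]; exact h5)⟩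

open Pk in
theorem sT_ix_gg : ∀ a b : Fin 27, gg a b = 1 → mm (ix a b) a ≠ 0 ∧ sT (ix a b) a = b := by
  intro a b hg
  obtain ⟨h1, h2⟩ := conB_spec (impB_spec (allB_spec (allB_spec sxC_true a a.2) b b.2)
    (g_one hg))
  have h3 := of_beq h2
  rw [← x_eq] at h1 h3
  refine ⟨fun h => ?_, Fin.ext (by rw [s_eq]; exact h3)⟩
  have h4 := m_eq (ix a b) a
  exact not_of h1 (beq_of (by omega))

open Pk in
theorem proj_mm : ∀ (i : Fin 36) (a : Fin 27),
    ∑ b, (3 * gg a b - 2) * mm i b = 18 * mm i a := by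
  intro i a
  have h := of_beq (allB_spec (allB_spec pmC_true i i.2) a a.2)
  have h1 : sumB (fun b => 3 * (g a b * m i b) + 2) 27 + 18 =
    sumB (fun b => 3 * g a b + 2 * m i b) 27 + 18 * m i a := h
  rw [sumB_eq, sumB_eq] at h1
  have h2 : (∑ b : Fin 27, (3 * ((g a b : ℤ) * m i b) + 2)) + 18 =
    (∑ b : Fin 27, (3 * (g a b : ℤ) + 2 * m i b)) + 18 * m i a := by exact_mod_cast h1
  have h3 : ∀ b : Fin 27, mm i b = (m i b : ℕ) - 1 := fun b => by have := m_eq i b; omega
  have h4 : ∀ b : Fin 27, (3 * gg a b - 2) * mm i b =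
      (3 * ((g a b : ℤ) * m i b) + 2) - (3 * (g a b : ℤ) + 2 * m i b) := fun b => by
    rw [g_eq, h3]; ring
  rw [Finset.sum_congr rfl fun b _ => h4 b, Finset.sum_sub_distrib, h3 a]
  linear_combination h2

theorem proj_wt : ∀ (a : Fin 27) (j : Fin 6),
    ∑ b, (3 * gg a b - 2) * wt b j = 18 * wt a j := by decide +kernel

/-- The dual coordinates of the weights. -/
def dwt (b : Fin 27) : Fin 6 → ℤ :=
  ![3 * wt b 0, 3 * wt b 1, 3 * wt b 2, 3 * wt b 3, 2 * wt b 4 - wt b 5, 2 * wt b 5 - wt b 4]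

theorem proj_cw : ∀ a b : Fin 27, 2 * (3 * gg a b - 2) = ∑ l, wt a l * dwt b l := by
  decide +kernel

theorem mm_aT : ∀ i : Fin 36, mm i (aT i) = 1 := by decide +kernel

section

variable {Ω : Type*} [Field Ω] [CharZero Ω]

lemma isV_of_proj {p : Fin 27 → Ω}
    (h : ∀ a, ∑ b, ((3 * gg a b - 2 : ℤ) : Ω) * p b = 18 * p a) : IsV p := by
  refine ⟨fun l => (∑ b, (dwt b l : Ω) * p b) / 36, ?_⟩
  funext a
  have h1 : ∑ j, (wt a j : Ω) * ((∑ b, (dwt b j : Ω) * p b) / 36) =
      (∑ b, ((∑ j, wt a j * dwt b j : ℤ) : Ω) * p b) / 36 := by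
    rw [sum_div]
    simp_rw [mul_div_assoc', mul_sum]
    rw [← sum_div, sum_comm, ← sum_div]
    congr 1
    refine sum_congr rfl fun b _ => ?_
    push_cast
    rw [sum_mul]
    exact sum_congr rfl fun j _ => by ring
  simp only [lf]
  rw [h1]
  have h2 : ∀ b, ((∑ j, wt a j * dwt b j : ℤ) : Ω) = 2 * ((3 * gg a b - 2 : ℤ) : Ω) := by
    intro b
    rw [← proj_cw]
    push_cast
    ring
  simp_rw [h2, mul_assoc]
  rw [← mul_sum, h]
  ring

lemma IsV.proj {z : Fin 27 → Ω} (hz : IsV z) (a : Fin 27) :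
    ∑ b, ((3 * gg a b - 2 : ℤ) : Ω) * z b = 18 * z a := by
  obtain ⟨ζ, rfl⟩ := hz
  simp only [lf]
  simp_rw [mul_sum]
  rw [sum_comm]
  refine sum_congr rfl fun j _ => ?_
  have h1 : ((∑ b, (3 * gg a b - 2) * wt b j : ℤ) : Ω) = 18 * wt a j := by
    rw [proj_wt]; push_cast; ring
  push_cast at h1 ⊢
  rw [← mul_assoc, ← h1, sum_mul]
  exact sum_congr rfl fun b _ => by ring

/-- The powers of the Dunkl operators on the constant function. -/
lemma T_pow_one {x : Fin 27 → Ω} (hx : IsV x) (j : ℕ) : ∀ (a : Fin 27),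
    (∀ u : W, ((T x (u • a)) ^ j) 1 = Lt u (((T x a) ^ j) 1)) ∧
    ∀ w : W, ((T x a) ^ j) (1 : W → Ω) w = ((lax (tr x w)) ^ j).mulVec (fun _ => 1) a := by
  induction j with
  | zero =>
    intro a
    refine ⟨fun u => ?_, fun w => ?_⟩
    · rfl
    · simp
  | succ j ih =>
    intro a
    refine ⟨fun u => ?_, fun w => ?_⟩
    · rw [pow_succ', pow_succ', Module.End.mul_apply, Module.End.mul_apply, (ih a).1, T_Lt hx]
    · rw [pow_succ', Module.End.mul_apply, T_apply, pow_succ', ← Matrix.mulVec_mulVec,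
        Matrix.mulVec, dotProduct]
      have h1 : ∀ i, (mm i a : Ω) / rt i (tr x w) * ((T x a) ^ j) (1 : W → Ω) (sW i * w) =
          if mm i a ≠ 0 then (mm i a : Ω) / rt i (tr x w) *
            ((lax (tr x w)) ^ j).mulVec (fun _ => 1) (sT i a) else 0 := by
        intro i
        have h2 := (ih a).1 (sW i)
        have h3 := (ih (sW i • a)).2 w
        rw [h2, Lt_apply, sW_inv, sW_smul] at h3
        rw [h3]
        split_ifs with h
        · rfl
        · have : mm i a = 0 := by simpa using h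
          rw [this]; simp
      rw [sum_congr rfl fun i _ => h1 i, ← sum_filter]
      have h4 : ∀ b, lax (tr x w) a b * ((lax (tr x w)) ^ j).mulVec (fun _ => 1) b =
          if gg a b = 1 then 1 / (tr x w a - tr x w b) *
            ((lax (tr x w)) ^ j).mulVec (fun _ => 1) b else 0 := by
        intro b
        simp only [lax, Matrix.of_apply]
        split_ifs <;> simp
      rw [sum_congr rfl fun b _ => h4 b, ← sum_filter]
      refine sum_nbij' (fun i => sT i a) (fun b => ix a b) ?_ ?_ ?_ ?_ ?_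
      · intro i hi
        rw [mem_filter] at hi ⊢
        exact ⟨mem_univ _, (mm_sT i a hi.2).1⟩
      · intro b hb
        rw [mem_filter] at hb ⊢
        exact ⟨mem_univ _, (sT_ix_gg a b hb.2).1⟩
      · intro i hi
        rw [mem_filter] at hi
        exact (mm_sT i a hi.2).2
      · intro b hb
        rw [mem_filter] at hb
        exact (sT_ix_gg a b hb.2).2
      · intro i hi
        rw [mem_filter] at hi
        rw [(hx.tr w).sT i a, sub_sub_cancel]
        congr 1
        rcases mm_cases i a with h | h | h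
        · exact absurd h hi.2
        · rw [h]; simp
        · rw [h]; push_cast
          rw [neg_div, neg_one_mul, one_div, one_div, inv_neg]

lemma lax_tr (x : Fin 27 → Ω) (w : W) (j : ℕ) (a : Fin 27) :
    ((lax (tr x w)) ^ j).mulVec (fun _ => 1) a = ((lax x) ^ j).mulVec (fun _ => 1) (w⁻¹ • a) := by
  induction j generalizing a with
  | zero => simp
  | succ j ih =>
    rw [pow_succ', pow_succ', ← Matrix.mulVec_mulVec, ← Matrix.mulVec_mulVec, Matrix.mulVec,
      Matrix.mulVec, dotProduct, dotProduct]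
    refine Fintype.sum_bijective (fun b => w⁻¹ • b) (MulAction.bijective w⁻¹) _ _ fun b => ?_
    rw [ih]
    congr 1
    simp only [lax, Matrix.of_apply, gg_smul]
    rfl

lemma hS_tr (x : Fin 27 → Ω) (w : W) (j : ℕ) : hS (tr x w) j = hS x j := by
  rw [hS, hS]
  exact Fintype.sum_bijective (fun b => w⁻¹ • b) (MulAction.bijective w⁻¹) _ _
    fun b => lax_tr x w j b

lemma sum_T_pow_one {x : Fin 27 → Ω} (hx : IsV x) (j : ℕ) :
    ∑ a, ((T x a) ^ j) (1 : W → Ω) = hS x j • (1 : W → Ω) := by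
  funext w
  rw [Finset.sum_apply, Pi.smul_apply, Pi.one_apply, smul_eq_mul, mul_one, ← hS_tr x w, hS]
  exact sum_congr rfl fun a _ => (T_pow_one hx j a).2 w

/-- Joint eigenspaces. -/
lemma exists_joint {V ι : Type*} [AddCommGroup V] [Module Ω V] [FiniteDimensional Ω V]
    [IsAlgClosed Ω] (f : ι → Module.End Ω V) (hcomm : ∀ a b v, f a (f b v) = f b (f a v))
    (N : Submodule Ω V) (hN : N ≠ ⊥) (hst : ∀ a, ∀ v ∈ N, f a v ∈ N) (s : Finset ι) :
    ∃ N' : Submodule Ω V, N' ≤ N ∧ N' ≠ ⊥ ∧ (∀ a, ∀ v ∈ N', f a v ∈ N') ∧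
      ∀ a ∈ s, ∃ μ : Ω, ∀ v ∈ N', f a v = μ • v := by
  classical
  induction s using Finset.induction_on with
  | empty => exact ⟨N, le_rfl, hN, hst, by simp⟩
  | insert b s hb ih =>
    obtain ⟨N', h1, h2, h3, h4⟩ := ih
    have : Nontrivial N' := Submodule.nontrivial_iff_ne_bot.mpr h2
    obtain ⟨μ, hμ⟩ := Module.End.exists_eigenvalue ((f b).restrict (h3 b))
    obtain ⟨v, hv⟩ := hμ.exists_hasEigenvector
    refine ⟨N' ⊓ LinearMap.ker (f b - μ • LinearMap.id), inf_le_left.trans h1, ?_, ?_, ?_⟩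
    · intro h5
      have h6 : (v : V) ∈ N' ⊓ LinearMap.ker (f b - μ • LinearMap.id) := by
        refine ⟨v.2, ?_⟩
        rw [SetLike.mem_coe, LinearMap.mem_ker, LinearMap.sub_apply, LinearMap.smul_apply, LinearMap.id_apply,
          sub_eq_zero]
        have h7 := hv.apply_eq_smul
        have h8 := congrArg (Subtype.val) h7
        simpa using h8
      rw [h5, Submodule.mem_bot] at h6
      exact hv.2 (Subtype.ext h6)
    · rintro a v ⟨hv1, hv2⟩
      refine ⟨h3 a v hv1, ?_⟩
      rw [SetLike.mem_coe, LinearMap.mem_ker, LinearMap.sub_apply, LinearMap.smul_apply,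
        LinearMap.id_apply] at hv2 ⊢
      rw [hcomm b a v, sub_eq_zero.mp hv2, map_smul, sub_self]
    · intro a ha
      rw [mem_insert] at ha
      rcases ha with rfl | ha
      · refine ⟨μ, fun v hv => ?_⟩
        have h5 := hv.2
        rw [SetLike.mem_coe, LinearMap.mem_ker, LinearMap.sub_apply, LinearMap.smul_apply,
          LinearMap.id_apply] at h5
        exact sub_eq_zero.mp h5
      · obtain ⟨ν, hν⟩ := h4 a ha
        exact ⟨ν, fun v hv => hν v hv.1⟩

/-- **A joint eigenvector** whose eigenvalues have the same power sums as the Lax matrix. -/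
theorem exists_eigen [IsAlgClosed Ω] {x : Fin 27 → Ω} (hx : IsV x) (h0 : ∀ i, rt i x ≠ 0) :
    ∃ (p : Fin 27 → Ω) (v : W → Ω), IsV p ∧ v ≠ 0 ∧ (∀ a, T x a v = p a • v) ∧
      ∀ j, ∑ a, p a ^ j = hS x j := by
  classical
  let S : ℕ → Module.End Ω (W → Ω) := fun j => ∑ a, (T x a) ^ j
  have hcomm : ∀ a b φ, T x a (T x b φ) = T x b (T x a φ) := fun a b φ => T_comm hx h0 a b φ
  have hcomm' : ∀ a b, Commute (T x a) (T x b) := fun a b => LinearMap.ext fun φ => hcomm a b φ
  let N : Submodule Ω (W → Ω) := ⨅ j, LinearMap.ker (S j - hS x j • LinearMap.id)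
  have hmem : ∀ φ : W → Ω, φ ∈ N ↔ ∀ j, S j φ = hS x j • φ := by
    intro φ
    simp only [N, Submodule.mem_iInf, LinearMap.mem_ker, LinearMap.sub_apply,
      LinearMap.smul_apply, LinearMap.id_apply, sub_eq_zero]
  have h1N : (1 : W → Ω) ∈ N := by
    rw [hmem]
    intro j
    simp only [S, LinearMap.sum_apply]
    exact sum_T_pow_one hx j
  have hN : N ≠ ⊥ := by
    intro h
    rw [h, Submodule.mem_bot] at h1N
    exact one_ne_zero h1N
  have hst : ∀ a, ∀ φ ∈ N, T x a φ ∈ N := by
    intro a φ hφ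
    rw [hmem] at hφ ⊢
    intro j
    have h3 : S j * T x a = T x a * S j :=
      (Commute.sum_left _ _ _ fun b _ => (hcomm' b a).pow_left j)
    have h4 := LinearMap.congr_fun h3 φ
    rw [Module.End.mul_apply, Module.End.mul_apply, hφ, map_smul] at h4
    exact h4
  obtain ⟨N', h1, h2, h3, h4⟩ := exists_joint (T x) hcomm N hN hst univ
  obtain ⟨v, hv, hv0⟩ := (Submodule.ne_bot_iff _).mp h2
  choose! μ hμ using h4
  have hv1 : ∀ a, T x a v = μ a • v := fun a => hμ a (mem_univ a) v hv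
  refine ⟨μ, v, ?_, hv0, hv1, fun j => ?_⟩
  · apply isV_of_proj
    intro a
    have h5 : ∑ b, ((3 * gg a b - 2 : ℤ) : Ω) • T x b v = (18 : Ω) • T x a v := by
      funext w
      simp only [Finset.sum_apply, Pi.smul_apply, T_apply, smul_eq_mul, mul_sum]
      rw [sum_comm]
      refine sum_congr rfl fun i _ => ?_
      have h6 : ((∑ b, (3 * gg a b - 2) * mm i b : ℤ) : Ω) = 18 * mm i a := by
        rw [proj_mm]; push_cast; ring
      push_cast at h6 ⊢
      rw [← mul_assoc, mul_div_assoc', ← h6, sum_div, sum_mul]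
      exact sum_congr rfl fun b _ => by ring
    simp_rw [hv1, smul_smul] at h5
    rw [← sum_smul] at h5
    exact smul_left_injective Ω hv0 h5
  · have h5 := (hmem v).mp (h1 hv) j
    have h6 : ∀ a (j : ℕ), ((T x a) ^ j) v = μ a ^ j • v := by
      intro a j
      induction j with
      | zero => simp
      | succ j ih =>
        rw [pow_succ', Module.End.mul_apply, ih, map_smul, hv1, smul_smul, pow_succ]
    simp only [S, LinearMap.sum_apply, h6] at h5
    rw [← sum_smul] at h5
    exact smul_left_injective Ω hv0 h5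

end

end Pool.Agent.Lib.MP_12adaf_nt.E6
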