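import Pool.Agent.Lib.MP_12adaf_ntE6.E05a

/-!
# `E₆`: the basis of joint eigenvectors and the dual description of the coordinates
-/

namespace Pool.Agent.Lib.MP_12adaf_nt.E6

set_option linter.unusedSectionVars false

open Finset

variable {Ω : Type*} [Field Ω] [CharZero Ω]

/-- A joint eigenvector with eigenvalues of trivial stabilizer. -/
structure Eig (x p : Fin 27 → Ω) (v : W → Ω) : Prop where
  hx : IsV x
  h0 : ∀ i, rt i x ≠ 0
  hp : IsV p
  hv : v ≠ 0
  hT : ∀ a, T x a v = p a • v
  htriv : ∀ w : W, (∀ a, p (w • a) = p a) → w = 1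

section basis

variable {x p : Fin 27 → Ω} {v : W → Ω}

lemma tr_inj (htriv : ∀ w : W, (∀ a, p (w • a) = p a) → w = 1) {u w : W}
    (h : ∀ a, tr p u a = tr p w a) : u = w := by
  have h1 : u⁻¹ * w = 1 := by
    apply htriv
    intro a
    have h2 := h (w • a)
    simp only [tr, inv_smul_smul] at h2
    rw [mul_smul, h2]
  exact inv_mul_eq_one.mp h1

lemma rt_ne_of_triv (hp : IsV p) (htriv : ∀ w : W, (∀ a, p (w • a) = p a) → w = 1) (i : Fin 36) :
    rt i p ≠ 0 := by
  intro h
  apply sW_ne_one i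
  apply htriv
  intro a
  rw [sW_smul, hp.sT, h, mul_zero, sub_zero]

namespace Eig

lemma T_Lt_v (E : Eig x p v) (w : W) (a : Fin 27) :
    T x a (Lt w v) = tr p w a • Lt w v := by
  have h1 := T_Lt E.hx w (w⁻¹ • a) v
  rw [smul_inv_smul, E.hT, map_smul] at h1
  exact h1

lemma Lt_ne (E : Eig x p v) (w : W) : Lt w v ≠ 0 := by
  intro h
  apply E.hv
  have h1 := congrArg (Lt w⁻¹) h
  rw [← Lt_mul, inv_mul_cancel, Lt_one, map_zero] at h1
  exact h1

/-- separating operators -/
lemma exists_sep (E : Eig x p v) (u : W) (s : Finset W) (hs : u ∉ s) :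
    ∃ R : Module.End Ω (W → Ω), (∀ w, ∃ γ : Ω, R (Lt w v) = γ • Lt w v) ∧
      (∀ w ∈ s, R (Lt w v) = 0) ∧ ∃ γ : Ω, γ ≠ 0 ∧ R (Lt u v) = γ • Lt u v := by
  classical
  induction s using Finset.induction_on with
  | empty =>
    exact ⟨1, fun w => ⟨1, by simp⟩, by simp, 1, one_ne_zero, by simp⟩
  | insert b s hb ih =>
    rw [mem_insert, not_or] at hs
    obtain ⟨R, h1, h2, γ, hγ, h3⟩ := ih hs.2
    have h4 : ∃ a, tr p u a ≠ tr p b a := by
      by_contra hcon
      push Not at hcon
      exact hs.1 (tr_inj E.htriv hcon)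
    obtain ⟨a, ha⟩ := h4
    refine ⟨R * (T x a - tr p b a • LinearMap.id), fun w => ?_, fun w hw => ?_, ?_⟩
    · obtain ⟨δ, hδ⟩ := h1 w
      refine ⟨(tr p w a - tr p b a) * δ, ?_⟩
      rw [Module.End.mul_apply, LinearMap.sub_apply, LinearMap.smul_apply, LinearMap.id_apply,
        E.T_Lt_v, ← sub_smul, map_smul, hδ, smul_smul]
    · rw [Module.End.mul_apply, LinearMap.sub_apply, LinearMap.smul_apply, LinearMap.id_apply,
        E.T_Lt_v, ← sub_smul, map_smul]
      rw [mem_insert] at hw
      rcases hw with rfl | hw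
      · rw [sub_self, zero_smul]
      · rw [h2 w hw, smul_zero]
    · refine ⟨(tr p u a - tr p b a) * γ, mul_ne_zero (sub_ne_zero.mpr ha) hγ, ?_⟩
      rw [Module.End.mul_apply, LinearMap.sub_apply, LinearMap.smul_apply, LinearMap.id_apply,
        E.T_Lt_v, ← sub_smul, map_smul, h3, smul_smul]

lemma linInd (E : Eig x p v) : LinearIndependent Ω fun w : W => Lt w v := by
  classical
  rw [Fintype.linearIndependent_iff]
  intro g hg u
  obtain ⟨R, _, h2, γ, hγ, h3⟩ := E.exists_sep u (univ.erase u) (notMem_erase u univ)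
  have h4 := congrArg R hg
  rw [map_sum, map_zero, ← add_sum_erase univ _ (mem_univ u)] at h4
  rw [sum_eq_zero, add_zero, map_smul, h3, smul_smul] at h4
  · rcases smul_eq_zero.mp h4 with h5 | h5
    · exact (mul_eq_zero.mp h5).resolve_right hγ
    · exact absurd h5 (E.Lt_ne u)
  · intro w hw
    rw [map_smul, h2 w hw, smul_zero]

/-- The basis of joint eigenvectors. -/
noncomputable def bas (E : Eig x p v) : Module.Basis W Ω (W → Ω) :=
  basisOfLinearIndependentOfCardEqFinrank E.linInd (by rw [Module.finrank_fintype_fun_eq_card])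

lemma bas_apply (E : Eig x p v) (w : W) : E.bas w = Lt w v := by
  rw [bas, coe_basisOfLinearIndependentOfCardEqFinrank]

/-- The coordinates with respect to the eigenbasis. -/
noncomputable def co (E : Eig x p v) (w : W) : (W → Ω) →ₗ[Ω] Ω := E.bas.coord w

lemma co_Lt [DecidableEq W] (E : Eig x p v) (u w : W) :
    E.co w (Lt u v) = if u = w then 1 else 0 := by
  rw [← E.bas_apply u, co, Module.Basis.coord_apply, Module.Basis.repr_self, Finsupp.single_apply]

lemma co_v [DecidableEq W] (E : Eig x p v) (w : W) : E.co w v = if 1 = w then 1 else 0 := by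
  rw [← E.co_Lt, Lt_one]

lemma sum_co (E : Eig x p v) (φ : W → Ω) : ∑ w, E.co w φ • Lt w v = φ := by
  have h := E.bas.sum_repr φ
  simp_rw [E.bas_apply] at h
  exact h

lemma co_T (E : Eig x p v) (a : Fin 27) (φ : W → Ω) (w : W) :
    E.co w (T x a φ) = tr p w a * E.co w φ := by
  classical
  conv_lhs => rw [← E.sum_co φ]
  rw [map_sum, map_sum]
  simp_rw [map_smul, E.T_Lt_v, map_smul, E.co_Lt, smul_eq_mul, mul_ite, mul_one, mul_zero]
  rw [sum_ite_eq' univ w]
  simp [mul_comm]

lemma co_ext (E : Eig x p v) {φ ψ : W → Ω} (h : ∀ w, E.co w φ = E.co w ψ) : φ = ψ := by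
  rw [← E.sum_co φ, ← E.sum_co ψ]
  simp_rw [h]

/-- Joint eigenvectors are multiples of basis vectors. -/
lemma joint (E : Eig x p v) {φ : W → Ω} (hφ : φ ≠ 0) {q : Fin 27 → Ω}
    (hq : ∀ a, T x a φ = q a • φ) : ∃ (w : W) (c : Ω), c ≠ 0 ∧ φ = c • Lt w v ∧
      ∀ a, q a = tr p w a := by
  classical
  have h1 : ∀ w a, tr p w a * E.co w φ = q a * E.co w φ := by
    intro w a
    rw [← E.co_T, hq, map_smul, smul_eq_mul]
  have h2 : ∃ w, E.co w φ ≠ 0 := by
    by_contra hcon
    push Not at hcon
    apply hφ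
    apply E.co_ext
    intro w
    rw [hcon, map_zero]
  obtain ⟨w, hw⟩ := h2
  have h3 : ∀ a, q a = tr p w a := fun a => (mul_right_cancel₀ hw (h1 w a)).symm
  refine ⟨w, E.co w φ, hw, ?_, h3⟩
  apply E.co_ext
  intro u
  rw [map_smul, E.co_Lt, smul_eq_mul]
  split_ifs with h
  · rw [h, mul_one]
  · rw [mul_zero]
    by_contra h4
    apply h
    apply tr_inj E.htriv
    intro a
    rw [← h3, ← mul_right_cancel₀ h4 (h1 u a)]

/-- The dual point. -/
noncomputable def X (E : Eig x p v) (c : Fin 27) : Ω := E.co 1 (M x c v)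

lemma isV_X (E : Eig x p v) : IsV E.X := by
  apply isV_of_proj
  intro a
  have h1 : ∑ b, ((3 * gg a b - 2 : ℤ) : Ω) • M x b v = (18 : Ω) • M x a v := by
    funext w
    simp only [Finset.sum_apply, Pi.smul_apply, M_apply, smul_eq_mul]
    rw [← mul_assoc, ← (E.hx.tr w).proj a, sum_mul]
    exact sum_congr rfl fun b _ => by ring
  have h2 := congrArg (E.co 1) h1
  rw [map_sum, map_smul] at h2
  simp_rw [map_smul] at h2
  exact h2

/-- **The coordinates in the eigenbasis**: Dunkl operators in the dual variables. -/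
lemma M_v (E : Eig x p v) (c : Fin 27) :
    M x c v = E.X c • v + ∑ k, ((mm k c : Ω) / rt k p) • Lt (sW k) v := by
  classical
  apply E.co_ext
  intro w
  rw [map_add, map_smul, map_sum, E.co_v]
  simp_rw [map_smul, E.co_Lt, smul_eq_mul]
  -- the equation for the coordinates
  have h1 : ∀ a, tr p w a * E.co w (M x c v) = p a * E.co w (M x c v) -
      ∑ i, ((mm i a * mm i c : ℤ) : Ω) * (if sW i = w then 1 else 0) := by
    intro a
    rw [← E.co_T, T_M E.hx E.h0, map_sub, map_sum, E.hT, map_smul, map_smul, smul_eq_mul]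
    congr 1
    refine sum_congr rfl fun i _ => ?_
    rw [map_smul, E.co_Lt, smul_eq_mul]
  by_cases hw : w = 1
  · subst hw
    rw [if_pos rfl, mul_one, sum_eq_zero, add_zero]
    · rfl
    · intro k _
      rw [if_neg (sW_ne_one k), mul_zero]
  · rw [if_neg (Ne.symm hw), mul_zero, zero_add]
    by_cases hk : ∃ k, sW k = w
    · obtain ⟨k, rfl⟩ := hk
      have h2 := h1 (aT k)
      have h3 : ∀ f : Fin 36 → Ω, ∑ i, f i * (if sW i = sW k then 1 else 0) = f k := by
        intro f
        rw [sum_eq_single k]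
        · rw [if_pos rfl, mul_one]
        · intro b _ hb
          rw [if_neg fun h => hb (sW_inj h), mul_zero]
        · intro h; exact absurd (mem_univ k) h
      rw [h3 fun i => ((mm i (aT k) * mm i c : ℤ) : Ω)] at h2
      rw [h3 fun i => (mm i c : Ω) / rt i p]
      have h4 : tr p (sW k) (aT k) = p (aT k) - rt k p := by
        rw [tr_apply, sW_inv, sW_smul, E.hp.sT, mm_aT]
        push_cast
        ring
      rw [h4, mm_aT] at h2
      have h5 := rt_ne_of_triv E.hp E.htriv k
      rw [eq_div_iff h5]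
      push_cast at h2
      linear_combination -h2
    · push Not at hk
      rw [sum_eq_zero fun i _ => by rw [if_neg (hk i), mul_zero]]
      have h2 : ∃ a, tr p w a ≠ p a := by
        by_contra hcon
        push Not at hcon
        apply hw
        apply tr_inj E.htriv
        intro a
        rw [hcon, tr_one]
      obtain ⟨a, ha⟩ := h2
      have h3 := h1 a
      rw [sum_eq_zero fun i _ => by rw [if_neg (hk i), mul_zero], sub_zero] at h3
      by_contra h4
      exact ha (mul_right_cancel₀ h4 h3)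

lemma M_Lt_v (E : Eig x p v) (c : Fin 27) (w : W) :
    M x c (Lt w v) = tr E.X w c • Lt w v +
      ∑ k, ((mm k (w⁻¹ • c) : Ω) / rt k p) • Lt (w * sW k) v := by
  have h1 := M_Lt x w (w⁻¹ • c) v
  rw [smul_inv_smul, E.M_v, map_add, map_smul, map_sum] at h1
  rw [h1, tr_apply]
  congr 1

/-- **The power sums of `x` are rational functions of `p` and `X`.** -/
theorem PS_mem (E : Eig x p v) (S : Subfield Ω) (hp : ∀ a, p a ∈ S) (hX : ∀ a, E.X a ∈ S)
    (j : ℕ) : PS j x ∈ S := by
  classical
  have h1 : ∀ (c : Fin 27) (φ : W → Ω), (∀ w, E.co w φ ∈ S) → ∀ w, E.co w (M x c φ) ∈ S := by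
    intro c φ hφ w
    rw [← E.sum_co φ, map_sum, map_sum]
    refine sum_mem fun u _ => ?_
    rw [map_smul, map_smul, smul_eq_mul, E.M_Lt_v, map_add, map_smul, map_sum, E.co_Lt,
      smul_eq_mul]
    refine mul_mem (hφ u) (add_mem (mul_mem (hX _) ?_) (sum_mem fun k _ => ?_))
    · split_ifs
      · exact one_mem S
      · exact zero_mem S
    · rw [map_smul, E.co_Lt, smul_eq_mul]
      refine mul_mem (div_mem (intCast_mem S _) (sub_mem (hp _) (hp _))) ?_
      split_ifs
      · exact one_mem S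
      · exact zero_mem S
  have h2 : ∀ (c : Fin 27) (j : ℕ) w, E.co w (((M x c) ^ j) v) ∈ S := by
    intro c j
    induction j with
    | zero =>
      intro w
      rw [pow_zero, Module.End.one_apply, E.co_v]
      split_ifs
      · exact one_mem S
      · exact zero_mem S
    | succ j ih =>
      intro w
      rw [pow_succ', Module.End.mul_apply]
      exact h1 c _ ih w
  have h3 : ∀ (c : Fin 27) (j : ℕ) (w : W), ((M x c) ^ j) v w = tr x w c ^ j * v w := by
    intro c j w
    induction j with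
    | zero => simp
    | succ j ih => rw [pow_succ', Module.End.mul_apply, M_apply, ih, pow_succ]; ring
  have h4 : ∑ c, ((M x c) ^ j) v = PS j x • v := by
    funext w
    rw [Finset.sum_apply, Pi.smul_apply, smul_eq_mul, PS]
    simp_rw [h3]
    rw [← sum_mul]
    congr 1
    exact Fintype.sum_bijective (fun b => w⁻¹ • b) (MulAction.bijective w⁻¹) _ _ fun b => rfl
  have h5 := congrArg (E.co 1) h4
  rw [map_sum, map_smul, E.co_v, if_pos rfl, smul_eq_mul, mul_one] at h5
  rw [← h5]
  exact sum_mem fun c _ => h2 c j 1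

end Eig

end basis

end Pool.Agent.Lib.MP_12adaf_nt.E6
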