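import Pool.Agent.Lib.MP_12adaf_ntE6.E05b

/-!
# `E₆`: the invariant form, the involution `w₀`, and the Galois action
-/

namespace Pool.Agent.Lib.MP_12adaf_nt.E6

set_option linter.unusedSectionVars false

open Finset

variable {Ω : Type*} [Field Ω] [CharZero Ω]

section form

/-- The invariant bilinear form. -/
noncomputable def Bf (φ ψ : W → Ω) : Ω := ∑ w, φ w * ψ w

lemma Bf_smul_left (c : Ω) (φ ψ : W → Ω) : Bf (c • φ) ψ = c * Bf φ ψ := by
  simp only [Bf, Pi.smul_apply, smul_eq_mul, mul_sum, mul_assoc]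

lemma Bf_smul_right (c : Ω) (φ ψ : W → Ω) : Bf φ (c • ψ) = c * Bf φ ψ := by
  simp only [Bf, Pi.smul_apply, smul_eq_mul, mul_sum]
  exact sum_congr rfl fun w _ => by ring

lemma Bf_add_left (φ φ' ψ : W → Ω) : Bf (φ + φ') ψ = Bf φ ψ + Bf φ' ψ := by
  simp only [Bf, Pi.add_apply, add_mul, sum_add_distrib]

lemma Bf_add_right (φ ψ ψ' : W → Ω) : Bf φ (ψ + ψ') = Bf φ ψ + Bf φ ψ' := by
  simp only [Bf, Pi.add_apply, mul_add, sum_add_distrib]

lemma Bf_sum_left {ι : Type*} (s : Finset ι) (f : ι → W → Ω) (ψ : W → Ω) :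
    Bf (∑ i ∈ s, f i) ψ = ∑ i ∈ s, Bf (f i) ψ := by
  simp only [Bf, Finset.sum_apply, sum_mul]
  exact sum_comm

lemma Bf_sum_right {ι : Type*} (s : Finset ι) (φ : W → Ω) (f : ι → W → Ω) :
    Bf φ (∑ i ∈ s, f i) = ∑ i ∈ s, Bf φ (f i) := by
  simp only [Bf, Finset.sum_apply, mul_sum]
  exact sum_comm

lemma Bf_Lt (u : W) (φ ψ : W → Ω) : Bf (Lt u φ) (Lt u ψ) = Bf φ ψ := by
  simp only [Bf, Lt_apply]
  exact Fintype.sum_bijective (fun w => u⁻¹ * w) (Group.mulLeft_bijective u⁻¹) _ _ fun w => rfl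

lemma Bf_M (x : Fin 27 → Ω) (c : Fin 27) (φ ψ : W → Ω) :
    Bf (M x c φ) ψ = Bf φ (M x c ψ) := by
  simp only [Bf, M_apply]
  exact sum_congr rfl fun w _ => by ring

/-- The Dunkl operators are skew. -/
lemma Bf_T {x : Fin 27 → Ω} (hx : IsV x) (a : Fin 27) (φ ψ : W → Ω) :
    Bf (T x a φ) ψ = - Bf φ (T x a ψ) := by
  have hA : Bf (T x a φ) ψ =
      ∑ i, ∑ w, (mm i a : Ω) / rt i (tr x w) * φ (sW i * w) * ψ w := by
    simp only [Bf, T_apply, sum_mul]
    exact sum_comm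
  have hB : - Bf φ (T x a ψ) =
      ∑ i, ∑ w, -(φ w * ((mm i a : Ω) / rt i (tr x w) * ψ (sW i * w))) := by
    simp only [Bf, T_apply, mul_sum, sum_neg_distrib]
    rw [sum_comm]
  rw [hA, hB]
  refine sum_congr rfl fun i _ => ?_
  refine Fintype.sum_bijective (fun w => sW i * w) (Group.mulLeft_bijective (sW i)) _ _ fun w => ?_
  have h1 : rt i (tr x (sW i * w)) = - rt i (tr x w) := by
    rw [rt_tr_sW hx]
    have h2 : cc i i = 2 := by
      rcases cc_cases i i with ⟨_, h⟩ | ⟨_, h⟩ | ⟨h, _⟩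
      · exact absurd rfl h
      · exact absurd rfl h
      · exact h
    rw [h2]
    push_cast
    ring
  have h3 : sW i * (sW i * w) = w := by rw [← mul_assoc, sW_mul_self, one_mul]
  simp only [h1, h3, div_neg]
  ring

lemma Bf_single [DecidableEq W] (φ : W → Ω) (w : W) : Bf φ (Pi.single w 1) = φ w := by
  simp [Bf, Pi.single_apply]

end form

namespace Eig

variable {x p : Fin 27 → Ω} {v : W → Ω}

lemma exists_pair (E : Eig x p v) : ∃ w, Bf v (Lt w v) ≠ 0 := by
  classical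
  by_contra hcon
  push Not at hcon
  apply E.hv
  funext w
  rw [← Bf_single v w, ← E.sum_co (Pi.single w 1), Bf_sum_right]
  rw [Pi.zero_apply]
  refine sum_eq_zero fun u _ => ?_
  rw [Bf_smul_right, hcon, mul_zero]

lemma pair_eq (E : Eig x p v) {w : W} (h : Bf v (Lt w v) ≠ 0) (a : Fin 27) :
    tr p w a = - p a := by
  have h1 := Bf_T E.hx a v (Lt w v)
  rw [E.hT, E.T_Lt_v, Bf_smul_left, Bf_smul_right] at h1
  have h2 : (tr p w a + p a) * Bf v (Lt w v) = 0 := by linear_combination h1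
  exact eq_neg_of_add_eq_zero_left ((mul_eq_zero.mp h2).resolve_right h)

/-- **The involution.** -/
theorem exists_w0 (E : Eig x p v) : ∃ w0 : W, (∀ a, p (w0 • a) = - p a) ∧
    (∀ a, E.X (w0 • a) = E.X a) ∧ w0 * w0 = 1 := by
  obtain ⟨w, hw⟩ := E.exists_pair
  have h1 := E.pair_eq hw
  have h2 : w * w = 1 := by
    have h3 : w⁻¹ * w⁻¹ = 1 := by
      apply E.htriv
      intro a
      have e1 : p (w⁻¹ • w⁻¹ • a) = - p (w⁻¹ • a) := h1 (w⁻¹ • a)
      have e2 : p (w⁻¹ • a) = - p a := h1 a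
      rw [mul_smul, e1, e2, neg_neg]
    rw [← mul_inv_rev, inv_eq_one] at h3
    exact h3
  have h3 : w⁻¹ = w := inv_eq_of_mul_eq_one_left h2
  have h4 : ∀ u, Bf v (Lt u v) ≠ 0 → u = w := by
    intro u hu
    apply tr_inj E.htriv
    intro a
    rw [h1, E.pair_eq hu]
  refine ⟨w, fun a => ?_, fun c => ?_, h2⟩
  · have := h1 a
    rwa [tr_apply, h3] at this
  · have h5 := Bf_M x c v (Lt w v)
    rw [E.M_v, E.M_Lt_v, Bf_add_left, Bf_add_right, Bf_sum_left, Bf_sum_right, Bf_smul_left,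
      Bf_smul_right, sum_eq_zero, sum_eq_zero, add_zero, add_zero, tr_apply, h3] at h5
    · exact (mul_right_cancel₀ hw h5).symm
    · intro k _
      rw [Bf_smul_right]
      have h6 : Bf v (Lt (w * sW k) v) = 0 := by
        by_contra h7
        have h8 := h4 _ h7
        exact sW_ne_one k (by simpa using h8)
      rw [h6, mul_zero]
    · intro k _
      rw [Bf_smul_left]
      have h6 : Bf (Lt (sW k) v) (Lt w v) = 0 := by
        rw [← Bf_Lt (sW k), ← Lt_mul, ← Lt_mul, sW_mul_self, Lt_one]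
        by_contra h7
        have h8 := h4 _ h7
        exact sW_ne_one k (by simpa using h8)
      rw [h6, mul_zero]

end Eig

section galois

/-- The semilinear action of a field automorphism. -/
def Sg (σ : Ω ≃+* Ω) (u : W) (φ : W → Ω) : W → Ω := fun w => σ (φ (w * u))

lemma Sg_apply (σ : Ω ≃+* Ω) (u : W) (φ : W → Ω) (w : W) : Sg σ u φ w = σ (φ (w * u)) := rfl

variable {x p : Fin 27 → Ω} {v : W → Ω} {σ : Ω ≃+* Ω} {u : W}

lemma Sg_tr (hσ : ∀ a, σ (x a) = x (u • a)) (w : W) (a : Fin 27) :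
    σ (tr x (w * u) a) = tr x w a := by
  rw [tr_apply, tr_apply, hσ, mul_inv_rev, mul_smul, smul_inv_smul]

lemma T_Sg (hσ : ∀ a, σ (x a) = x (u • a)) (a : Fin 27) (φ : W → Ω) :
    T x a (Sg σ u φ) = Sg σ u (T x a φ) := by
  funext w
  rw [T_apply, Sg_apply, T_apply, map_sum]
  refine sum_congr rfl fun i _ => ?_
  rw [map_mul, map_div₀, map_intCast, Sg_apply, mul_assoc]
  congr 2
  rw [rt, rt, map_sub, Sg_tr hσ, Sg_tr hσ]

lemma M_Sg (hσ : ∀ a, σ (x a) = x (u • a)) (c : Fin 27) (φ : W → Ω) :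
    M x c (Sg σ u φ) = Sg σ u (M x c φ) := by
  funext w
  rw [M_apply, Sg_apply, Sg_apply, M_apply, map_mul, Sg_tr hσ]

lemma Lt_Sg (w : W) (φ : W → Ω) : Lt w (Sg σ u φ) = Sg σ u (Lt w φ) := by
  funext w'
  rw [Lt_apply, Sg_apply, Sg_apply, Lt_apply, mul_assoc]

lemma Sg_smul (c : Ω) (φ : W → Ω) : Sg σ u (c • φ) = σ c • Sg σ u φ := by
  funext w
  simp [Sg_apply]

lemma Sg_add (φ ψ : W → Ω) : Sg σ u (φ + ψ) = Sg σ u φ + Sg σ u ψ := by
  funext w
  simp [Sg_apply]

lemma Sg_sum {ι : Type*} (s : Finset ι) (f : ι → W → Ω) :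
    Sg σ u (∑ i ∈ s, f i) = ∑ i ∈ s, Sg σ u (f i) := by
  funext w
  simp [Sg_apply, Finset.sum_apply]

lemma Sg_ne {φ : W → Ω} (h : φ ≠ 0) : Sg σ u φ ≠ 0 := by
  intro h1
  apply h
  funext w
  have h2 := congrFun h1 (w * u⁻¹)
  rw [Sg_apply, inv_mul_cancel_right, Pi.zero_apply, map_eq_zero_iff σ σ.injective] at h2
  rw [h2, Pi.zero_apply]

/-- The sum of the values. -/
noncomputable def bS (φ : W → Ω) : Ω := ∑ w, φ w

/-- The alternating sum of the values. -/
noncomputable def aS (φ : W → Ω) : Ω := ∑ w, (eZ w : Ω) * φ w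

lemma bS_Lt (w : W) (φ : W → Ω) : bS (Lt w φ) = bS φ := by
  simp only [bS, Lt_apply]
  exact Fintype.sum_bijective (fun u => w⁻¹ * u) (Group.mulLeft_bijective w⁻¹) _ _ fun u => rfl

lemma eZ_sq' (w : W) : (eZ w : Ω) * eZ w = 1 := by exact_mod_cast congrArg (Int.cast (R := Ω)) (eZ_sq w)

lemma aS_Lt (w : W) (φ : W → Ω) : aS (Lt w φ) = (eZ w : Ω) * aS φ := by
  simp only [aS, Lt_apply, mul_sum]
  refine Fintype.sum_bijective (fun u => w⁻¹ * u) (Group.mulLeft_bijective w⁻¹) _ _ fun u => ?_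
  simp only [eZ_mul, eZ_inv]
  push_cast
  have := eZ_sq' (Ω := Ω) w
  linear_combination (-(eZ u : Ω) * φ (w⁻¹ * u)) * this

lemma bS_Sg (φ : W → Ω) : bS (Sg σ u φ) = σ (bS φ) := by
  simp only [bS, Sg_apply, map_sum]
  exact Fintype.sum_bijective (fun w => w * u) (Group.mulRight_bijective u) _ _ fun w => rfl

lemma aS_Sg (φ : W → Ω) : aS (Sg σ u φ) = (eZ u : Ω) * σ (aS φ) := by
  simp only [aS, Sg_apply, map_sum, mul_sum]
  refine Fintype.sum_bijective (fun w => w * u) (Group.mulRight_bijective u) _ _ fun w => ?_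
  simp only [eZ_mul, map_mul, map_intCast]
  push_cast
  have := eZ_sq' (Ω := Ω) u
  linear_combination (-(eZ w : Ω) * σ (φ (w * u))) * this

namespace Eig

lemma bS_ne (E : Eig x p v) : bS v ≠ 0 := by
  classical
  intro h
  have h1 : ∀ φ : W → Ω, bS φ = 0 := by
    intro φ
    rw [← E.sum_co φ]
    simp only [bS, Finset.sum_apply, Pi.smul_apply, smul_eq_mul]
    rw [sum_comm]
    refine sum_eq_zero fun w _ => ?_
    rw [← mul_sum]
    have := bS_Lt w v
    rw [bS] at this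
    rw [this, h, mul_zero]
  have h2 := h1 (Pi.single 1 1)
  simp [bS, Pi.single_apply] at h2

/-- The alternating sum is the sum up to sign, when `w₀` is even. -/
lemma aS_eq (E : Eig x p v) {w0 : W} (hw : ∀ a, p (w0 • a) = - p a) (he : eZ w0 = 1) :
    aS v = bS v ∨ aS v = - bS v := by
  let χ : W → Ω := fun w => (eZ w : Ω) * v w
  have hχ0 : χ ≠ 0 := by
    intro h
    apply E.hv
    funext w
    have h1 := congrFun h w
    have h2 := eZ_sq' (Ω := Ω) w
    have h3 : (eZ w : Ω) * v w = 0 := h1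
    rw [Pi.zero_apply]
    calc v w = (eZ w : Ω) * eZ w * v w := by rw [h2, one_mul]
      _ = 0 := by rw [mul_assoc, h3, mul_zero]
  have hT : ∀ a, T x a χ = (- p a) • χ := by
    intro a
    funext w
    have h1 := congrFun (E.hT a) w
    rw [T_apply, Pi.smul_apply, smul_eq_mul] at h1
    rw [T_apply, Pi.smul_apply, smul_eq_mul]
    simp only [χ, eZ_mul, eZ_sW]
    push_cast
    have h2 : ∑ i, (mm i a : Ω) / rt i (tr x w) * (-1 * (eZ w : Ω) * v (sW i * w)) =
        - (eZ w : Ω) * ∑ i, (mm i a : Ω) / rt i (tr x w) * v (sW i * w) := by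
      rw [mul_sum]
      exact sum_congr rfl fun i _ => by ring
    rw [h2, h1]
    ring
  obtain ⟨w, μ, hμ, h1, h2⟩ := E.joint hχ0 hT
  have h3 : w = w0⁻¹ := by
    apply tr_inj E.htriv
    intro a
    rw [← h2, tr_apply, inv_inv, hw]
  have h4 : w0⁻¹ = w0 := by
    have h5 : w0 * w0 = 1 := by
      apply E.htriv
      intro a
      rw [mul_smul, hw, hw, neg_neg]
    exact inv_eq_of_mul_eq_one_left h5
  rw [h4] at h3
  subst h3
  -- `v = χ χ v`
  have h5 : ∀ w' : W, (eZ w' : Ω) * v w' = μ * v (w * w') := by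
    intro w'
    have h6 := congrFun h1 w'
    rw [Pi.smul_apply, smul_eq_mul, Lt_apply, h4] at h6
    exact h6
  have h6 : ∀ w' : W, v w' = μ * μ * v w' := by
    intro w'
    have e1 := h5 w'
    have e2 := h5 (w * w')
    rw [← mul_assoc, show w * w = 1 by nth_rw 1 [← h4]; exact inv_mul_cancel w, one_mul,
      eZ_mul, he, one_mul] at e2
    have e3 := eZ_sq' (Ω := Ω) w'
    calc v w' = (eZ w' : Ω) * ((eZ w' : Ω) * v w') := by rw [← mul_assoc, e3, one_mul]
      _ = (eZ w' : Ω) * (μ * v (w * w')) := by rw [e1]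
      _ = μ * ((eZ w' : Ω) * v (w * w')) := by ring
      _ = μ * (μ * v w') := by rw [e2]
      _ = _ := by ring
  have h7 : μ * μ = 1 := by
    obtain ⟨w', hw'⟩ := Function.ne_iff.mp E.hv
    rw [Pi.zero_apply] at hw'
    have := h6 w'
    exact mul_right_cancel₀ hw' (by rw [one_mul]; exact this.symm)
  have h8 : aS v = μ * bS v := by
    have e1 : aS v = bS χ := rfl
    rw [e1, h1, ← bS_Lt w v]
    simp only [bS, Pi.smul_apply, smul_eq_mul, mul_sum]
  rcases mul_self_eq_one_iff.mp h7 with h9 | h9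
  · left; rw [h8, h9, one_mul]
  · right; rw [h8, h9, neg_one_mul]

/-- **The Galois action.** -/
theorem galois (E : Eig x p v) {w0 : W} (hw0 : ∀ a, p (w0 • a) = - p a) (he : eZ w0 = 1)
    (hσ : ∀ a, σ (x a) = x (u • a)) :
    ∃ w : W, (∀ a, σ (p a) = p (w • a)) ∧ (∀ a, σ (E.X a) = E.X (w • a)) ∧ eZ w = eZ u := by
  classical
  have h1 : ∀ a, T x a (Sg σ u v) = σ (p a) • Sg σ u v := by
    intro a
    rw [T_Sg hσ, E.hT, Sg_smul]
  obtain ⟨w, c, hc, h2, h3⟩ := E.joint (Sg_ne E.hv) h1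
  refine ⟨w⁻¹, h3, fun a => ?_, ?_⟩
  · have h4 : M x a (Sg σ u v) = σ (E.X a) • Sg σ u v +
        ∑ k, ((mm k a : Ω) / σ (rt k p)) • Lt (sW k) (Sg σ u v) := by
      rw [M_Sg hσ, E.M_v, Sg_add, Sg_smul, Sg_sum]
      congr 1
      refine sum_congr rfl fun k _ => ?_
      rw [Sg_smul, Lt_Sg, map_div₀, map_intCast]
    rw [h2, map_smul, E.M_Lt_v] at h4
    have h5 := congrArg (E.co w) h4
    rw [map_smul, map_add, map_smul, map_add, map_smul, map_smul, map_sum, map_sum, E.co_Lt,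
      if_pos rfl, sum_eq_zero, sum_eq_zero] at h5
    · simp only [smul_eq_mul, mul_one, add_zero] at h5
      rw [mul_comm c] at h5
      exact (mul_right_cancel₀ hc h5).symm
    · intro k _
      rw [map_smul, map_smul, map_smul, ← Lt_mul, E.co_Lt, if_neg, smul_zero, smul_zero]
      intro h6
      exact sW_ne_one k (by simpa using h6)
    · intro k _
      rw [map_smul, E.co_Lt, if_neg, smul_zero]
      intro h6
      exact sW_ne_one k (by simpa using h6)
  · have hb : σ (bS v) = c * bS v := by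
      rw [← bS_Sg (u := u), h2, ← bS_Lt w v]
      simp only [bS, Pi.smul_apply, smul_eq_mul, mul_sum]
    have ha : (eZ u : Ω) * σ (aS v) = c * ((eZ w : Ω) * aS v) := by
      rw [← aS_Sg, h2, ← aS_Lt]
      simp only [aS, Pi.smul_apply, smul_eq_mul, mul_sum]
      exact sum_congr rfl fun w' _ => by ring
    have h4 : (eZ u : Ω) * (c * bS v) = c * ((eZ w : Ω) * bS v) := by
      rcases E.aS_eq hw0 he with h5 | h5
      · rw [h5, hb] at ha
        exact ha
      · rw [h5, map_neg, hb] at ha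
        linear_combination -ha
    have h5 : ((eZ u : Ω) - eZ w) * (c * bS v) = 0 := by linear_combination h4
    have h6 := (mul_eq_zero.mp h5).resolve_right (mul_ne_zero hc E.bS_ne)
    rw [eZ_inv]
    exact_mod_cast (sub_eq_zero.mp h6).symm

end Eig

end galois

end Pool.Agent.Lib.MP_12adaf_nt.E6
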