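import Pool.Agent.Lib.MP_12adaf_ntE6.E05c

/-!
# `E₆`: equivariance of the parameters, automorphisms which act on the dual point through `W`
-/

namespace Pool.Agent.Lib.MP_12adaf_nt.E6

set_option linter.unusedSectionVars false

open Finset

section equivariance

variable {Ω : Type*} [Field Ω] [CharZero Ω]

lemma PS_smul (m : ℕ) (z : Fin 27 → Ω) (w : W) : PS m (fun a => z (w • a)) = PS m z :=
  Fintype.sum_bijective (fun a => w • a) (MulAction.bijective w) _ _ fun _ => rfl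

lemma g2_comp (z : Fin 27 → Ω) (w : W) : g2 (fun a => z (w • a)) = g2 z := by
  rw [g2, g2, PS_smul]

lemma g6_comp (z : Fin 27 → Ω) (w : W) : g6 (fun a => z (w • a)) = g6 z := by
  rw [g6, g6, PS_smul]

lemma II_comp (z : Fin 27 → Ω) (w : W) : II (fun a => z (w • a)) = II z := by
  rw [II, II, PS_smul, g6_comp, g2_comp]

lemma JJ_comp (z : Fin 27 → Ω) (w : W) : JJ (fun a => z (w • a)) = JJ z := by
  rw [JJ, JJ, PS_smul, PS_smul, g6_comp, g2_comp]

lemma QQ_comp (z : Fin 27 → Ω) (w : W) : QQ (fun a => z (w • a)) = QQ z := by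
  classical
  rw [QQ, QQ]
  exact Fintype.prod_bijective (fun a => w • a) (MulAction.bijective w) _ _ fun _ => rfl

lemma EE_comp {z : Fin 27 → Ω} (hz : IsV z) (w : W) :
    EE (fun a => z (w • a)) = (eZ w : Ω) * EE z := by
  rw [EE, EE, DD_comp hz, QQ_comp, mul_div_assoc]

lemma tS_comp (m : ℕ) (z Z : Fin 27 → Ω) (w : W) :
    tS m (fun a => z (w • a)) (fun a => Z (w • a)) = tS m z Z :=
  Fintype.sum_bijective (fun a => w • a) (MulAction.bijective w) _ _ fun _ => rfl

lemma tt_comp {z Z : Fin 27 → Ω} (hz : IsV z) (e : Ω) (w : W) :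
    tt (fun a => z (w • a)) (fun a => Z (w • a)) ((eZ w : Ω) * e) = tt z Z e := by
  have h1 : (eZ w : Ω) ≠ 0 := by
    intro h
    have := eZ_sq' (Ω := Ω) w
    rw [h] at this
    norm_num at this
  rw [tt, tt, tS_comp, tS_comp, g2_comp, g6_comp, EE_comp hz, II_comp, JJ_comp, mul_assoc,
    mul_div_mul_left _ _ h1]

variable (σ : Ω ≃+* Ω)

lemma map_PS (m : ℕ) (z : Fin 27 → Ω) : σ (PS m z) = PS m fun a => σ (z a) := by
  simp only [PS, map_sum, map_pow]

lemma map_rt (i : Fin 36) (z : Fin 27 → Ω) : σ (rt i z) = rt i fun a => σ (z a) := by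
  simp only [rt, map_sub]

lemma map_DD (z : Fin 27 → Ω) : σ (DD z) = DD fun a => σ (z a) := by
  simp only [DD, map_prod, map_rt]

lemma map_QQ (z : Fin 27 → Ω) : σ (QQ z) = QQ fun a => σ (z a) := by
  simp only [QQ, map_prod]
  refine prod_congr rfl fun a _ => ?_
  by_cases h : z a = 0
  · rw [if_pos h, if_pos (by rw [h, map_zero]), map_one]
  · rw [if_neg h, if_neg (by rwa [map_eq_zero_iff σ σ.injective])]

lemma map_EE (z : Fin 27 → Ω) : σ (EE z) = EE fun a => σ (z a) := by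
  rw [EE, EE, map_div₀, map_DD, map_QQ]

lemma map_g2 (z : Fin 27 → Ω) : σ (g2 z) = g2 fun a => σ (z a) := by
  rw [g2, g2, map_div₀, map_PS, map_ofNat]

lemma map_g6 (z : Fin 27 → Ω) : σ (g6 z) = g6 fun a => σ (z a) := by
  rw [g6, g6, map_div₀, map_PS, map_ofNat]

lemma map_II (z : Fin 27 → Ω) : σ (II z) = II fun a => σ (z a) := by
  simp only [II, map_add, map_sub, map_mul, map_div₀, map_pow, map_ofNat, map_PS, map_g2, map_g6]

lemma map_JJ (z : Fin 27 → Ω) : σ (JJ z) = JJ fun a => σ (z a) := by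
  simp only [JJ, map_add, map_sub, map_mul, map_div₀, map_pow, map_ofNat, map_PS, map_g2, map_g6]

lemma map_tS (m : ℕ) (z Z : Fin 27 → Ω) :
    σ (tS m z Z) = tS m (fun a => σ (z a)) fun a => σ (Z a) := by
  simp only [tS, map_sum, map_mul, map_pow]

lemma map_tt (z Z : Fin 27 → Ω) (e : Ω) (i : Fin 6) :
    σ (tt z Z e i) = tt (fun a => σ (z a)) (fun a => σ (Z a)) (σ e) i := by
  have h : (fun i => σ (tt z Z e i)) = tt (fun a => σ (z a)) (fun a => σ (Z a)) (σ e) := by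
    rw [tt, tt, ← map_tS, ← map_tS, ← map_g2, ← map_g6, ← map_EE, ← map_II, ← map_JJ, ← map_mul,
      ← map_div₀, ← map_div₀]
    funext i
    fin_cases i <;> rfl
  exact congrFun h i

end equivariance

section psi

variable {Ω : Type*} [Field Ω] [CharZero Ω] {x p : Fin 27 → Ω} {v : W → Ω}

namespace Eig

/-- The semilinear map attached to `σ` and `w`. -/
noncomputable def Ps (E : Eig x p v) (σ : Ω ≃+* Ω) (w : W) (φ : W → Ω) : W → Ω :=
  ∑ u, σ (E.co u φ) • Lt (u * w⁻¹) v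

lemma Ps_add (E : Eig x p v) (σ : Ω ≃+* Ω) (w : W) (φ ψ : W → Ω) :
    E.Ps σ w (φ + ψ) = E.Ps σ w φ + E.Ps σ w ψ := by
  simp only [Ps, map_add, add_smul, sum_add_distrib]

lemma Ps_smul (E : Eig x p v) (σ : Ω ≃+* Ω) (w : W) (c : Ω) (φ : W → Ω) :
    E.Ps σ w (c • φ) = σ c • E.Ps σ w φ := by
  simp only [Ps, map_smul, smul_eq_mul, map_mul, smul_sum, smul_smul]

lemma Ps_sum {ι : Type*} (E : Eig x p v) (σ : Ω ≃+* Ω) (w : W) (s : Finset ι)
    (f : ι → W → Ω) : E.Ps σ w (∑ i ∈ s, f i) = ∑ i ∈ s, E.Ps σ w (f i) := by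
  simp only [Ps, map_sum, sum_smul]
  exact sum_comm

lemma Ps_Lt (E : Eig x p v) (σ : Ω ≃+* Ω) (w u : W) :
    E.Ps σ w (Lt u v) = Lt (u * w⁻¹) v := by
  classical
  simp only [Ps, E.co_Lt]
  rw [sum_eq_single u]
  · rw [if_pos rfl, map_one, one_smul]
  · intro b _ hb
    rw [if_neg (Ne.symm hb), map_zero, zero_smul]
  · intro h; exact absurd (mem_univ u) h

lemma Ps_M (E : Eig x p v) {σ : Ω ≃+* Ω} {w : W} (hp : ∀ a, σ (p a) = p (w • a))
    (hX : ∀ a, σ (E.X a) = E.X (w • a)) (c : Fin 27) (φ : W → Ω) :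
    E.Ps σ w (M x c φ) = M x c (E.Ps σ w φ) := by
  have key : ∀ u, E.Ps σ w (M x c (Lt u v)) = M x c (E.Ps σ w (Lt u v)) := by
    intro u
    rw [E.Ps_Lt, E.M_Lt_v, E.M_Lt_v, E.Ps_add, E.Ps_smul, E.Ps_sum, E.Ps_Lt]
    congr 1
    · rw [tr_apply, tr_apply, hX, mul_inv_rev, inv_inv, mul_smul]
    · refine Fintype.sum_bijective (wi w) (wi_bijective w) _ _ fun k => ?_
      rw [E.Ps_smul, E.Ps_Lt, map_div₀, map_intCast, map_rt]
      have h1 : (fun a => σ (p a)) = fun a => p (w • a) := funext hp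
      rw [h1, rt_comp E.hp]
      have h2 := mm_wi w k (u⁻¹ • c)
      have h3 : (mm k (u⁻¹ • c) : Ω) = we w k * mm (wi w k) ((u * w⁻¹)⁻¹ • c) := by
        rw [h2, mul_inv_rev, inv_inv, mul_smul]
        push_cast
        ring
      have h5 : (we w k : Ω) ≠ 0 := by
        intro h
        have h2 : ((we w k * we w k : ℤ) : Ω) = 1 := by rw [we_sq]; norm_num
        push_cast at h2
        rw [h] at h2
        norm_num at h2
      rw [h3, mul_div_mul_left _ _ h5]
      congr 2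
      rw [← sW_wi w k]
      group
  rw [← E.sum_co φ, map_sum, E.Ps_sum, E.Ps_sum, map_sum]
  refine sum_congr rfl fun u _ => ?_
  rw [map_smul, E.Ps_smul, E.Ps_smul, map_smul, key]

/-- **Automorphisms acting on the dual point through `W` fix the power sums of `x`.** -/
theorem map_PS_eq (E : Eig x p v) {σ : Ω ≃+* Ω} {w : W} (hp : ∀ a, σ (p a) = p (w • a))
    (hX : ∀ a, σ (E.X a) = E.X (w • a)) (j : ℕ) : σ (PS j x) = PS j x := by
  have h2 : ∀ (c : Fin 27) (j : ℕ), E.Ps σ w (((M x c) ^ j) v) = ((M x c) ^ j) (E.Ps σ w v) := by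
    intro c j
    induction j with
    | zero => rfl
    | succ j ih =>
      rw [pow_succ', Module.End.mul_apply, Module.End.mul_apply, E.Ps_M hp hX, ih]
  have h3 : ∀ (c : Fin 27) (j : ℕ) (φ : W → Ω) (w : W),
      ((M x c) ^ j) φ w = tr x w c ^ j * φ w := by
    intro c j φ w
    induction j with
    | zero => simp
    | succ j ih => rw [pow_succ', Module.End.mul_apply, M_apply, ih, pow_succ]; ring
  have h4 : ∀ φ : W → Ω, ∑ c, ((M x c) ^ j) φ = PS j x • φ := by
    intro φ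
    funext w
    rw [Finset.sum_apply, Pi.smul_apply, smul_eq_mul, PS]
    simp_rw [h3]
    rw [← sum_mul]
    congr 1
    exact Fintype.sum_bijective (fun b => w⁻¹ • b) (MulAction.bijective w⁻¹) _ _ fun b => rfl
  have h5 := congrArg (E.Ps σ w) (h4 v)
  rw [E.Ps_sum, E.Ps_smul] at h5
  simp_rw [h2] at h5
  rw [h4] at h5
  have h6 : E.Ps σ w v ≠ 0 := by
    have h7 := E.Ps_Lt σ w 1
    rw [Lt_one] at h7
    rw [h7]
    exact E.Lt_ne _
  exact (smul_left_injective Ω h6 h5).symm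

end Eig

end psi

end Pool.Agent.Lib.MP_12adaf_nt.E6
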