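import Pool.Agent.Lib.MP_12adaf_ntE6.E02d

/-!
# `E₆`: the zero set of the dual point contains a line
-/

namespace Pool.Agent.Lib.MP_12adaf_nt.E6

open Finset

theorem el_trans : ∀ l : Fin 27, (∃ i : Fin 36, sT i 24 = l) ∨
    ∃ i j : Fin 36, sT j (sT i 24) = l := by decide +kernel

theorem el_pair : ∀ b c b' : Fin 27, gg 24 b = 0 → (∀ j, wt 24 j + wt b j + wt c j = 0) →
    gg 24 b' = 0 → gg c b' ≠ 1 → b' = c ∨ b' = b := by decide +kernel

theorem el_no : ∀ a' : Fin 27, ∃ b c : Fin 27, gg 24 b = 0 ∧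
    (∀ j, wt 24 j + wt b j + wt c j = 0) ∧ gg a' c ≠ gg 8 b := by decide +kernel

theorem el_move : ∀ b : Fin 27, gg 24 b = 0 → b = 25 ∨ b = 26 ∨
    ∃ i : Fin 36, sT i 24 = 24 ∧ sT i 25 = b := by decide +kernel

theorem el_sum : ∀ j : Fin 6, wt 24 j + wt 25 j + wt 26 j = 0 := by decide +kernel

theorem el_g25 : gg 24 25 = 0 := by decide +kernel

theorem el_exists (l : Fin 27) : ∃ w : W, w • (24 : Fin 27) = l := by
  rcases el_trans l with ⟨i, hi⟩ | ⟨i, j, hij⟩
  · exact ⟨sW i, by rw [sW_smul, hi]⟩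
  · exact ⟨sW j * sW i, by rw [mul_smul, sW_smul, sW_smul, hij]⟩

theorem IsV.sum_zero {Ω : Type*} [Field Ω] {z : Fin 27 → Ω} (hz : IsV z) {a b c : Fin 27}
    (h : ∀ j, wt a j + wt b j + wt c j = 0) : z a + z b + z c = 0 := by
  obtain ⟨ζ, rfl⟩ := hz
  simp only [lf]
  rw [← sum_add_distrib, ← sum_add_distrib]
  refine sum_eq_zero fun j _ => ?_
  have h1 : ((wt a j + wt b j + wt c j : ℤ) : Ω) = 0 := by rw [h]; norm_num
  push_cast at h1
  linear_combination ζ j * h1

theorem el_core {Ω : Type*} [Field Ω] [CharZero Ω] {q : Fin 27 → Ω} (hq : IsV q)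
    (h0 : ∀ i, rt i q ≠ 0) {w0 : W} (hw : ∀ a, q (w0 • a) = - q a)
    (hl : w0 • (24 : Fin 27) = 24) :
    ∃ w : W, q (w • 24) = 0 ∧ q (w • 25) = 0 ∧ q (w • 26) = 0 := by
  have hz : ∀ a, w0 • a = a → q a = 0 := by
    intro a ha
    have h1 := hw a
    rw [ha] at h1
    have h2 : (2 : Ω) * q a = 0 := by linear_combination h1
    rcases mul_eq_zero.mp h2 with h3 | h3
    · exact absurd h3 two_ne_zero
    · exact h3
  have hne : ∀ a b, gg a b = 1 → q a ≠ q b := by
    intro a b hab h
    have h1 := hq.sub_of_gg hab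
    rw [h, sub_self] at h1
    rcases mul_eq_zero.mp h1.symm with h2 | h2
    · have h3 : ((sg a b * sg a b : ℤ) : Ω) = 1 := by rw [sg_sq a b hab]; norm_num
      push_cast at h3
      rw [h2] at h3
      norm_num at h3
    · exact h0 _ h2
  have h24 := hz 24 hl
  have hp : ∀ b c, gg 24 b = 0 → (∀ j, wt 24 j + wt b j + wt c j = 0) →
      w0 • b = c ∨ w0 • b = b := by
    intro b c hb hc
    have h1 := hq.sum_zero hc
    apply el_pair b c (w0 • b) hb hc
    · have h2 := gg_smul w0 24 b
      rw [hl] at h2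
      rw [h2, hb]
    · intro h2
      apply hne _ _ h2
      rw [hw]
      linear_combination h1 - h24
  by_cases hf : ∃ b, gg 24 b = 0 ∧ w0 • b = b
  · obtain ⟨b, hb, hb'⟩ := hf
    have hqb := hz b hb'
    have h1 := hq.sum_zero el_sum
    rcases el_move b hb with rfl | rfl | ⟨i, hi, hi'⟩
    · refine ⟨1, ?_, ?_, ?_⟩
      · rw [one_smul, h24]
      · rw [one_smul, hqb]
      · rw [one_smul]
        linear_combination h1 - h24 - hqb
    · refine ⟨1, ?_, ?_, ?_⟩
      · rw [one_smul, h24]
      · rw [one_smul]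
        linear_combination h1 - h24 - hqb
      · rw [one_smul, hqb]
    · have h2 := (hq.comp (sW i)).sum_zero el_sum
      have h3 : q (sW i • (24 : Fin 27)) = 0 := by rw [sW_smul, hi, h24]
      have h4 : q (sW i • (25 : Fin 27)) = 0 := by rw [sW_smul, hi', hqb]
      exact ⟨sW i, h3, h4, by linear_combination h2 - h3 - h4⟩
  · exfalso
    push Not at hf
    obtain ⟨b, c, hb, hc, hne'⟩ := el_no (w0 • (8 : Fin 27))
    rcases hp b c hb hc with h1 | h1
    · apply hne'
      rw [← h1, gg_smul]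
    · exact hf b hb h1

/-- **A line in the zero set.**  Let `p` be a point of trivial stabilizer (no root vanishes at `p`)
with `-p = p ∘ w₀`.  Then, up to the Weyl group, the weights `24, 25, 26` vanish at `p`.
Proof.  `w₀` is an involution on the 27 weights up to ... : `p (w₀ w₀ a) = p a`; the permutation
`a ↦ w₀ • a` of a set with `27` elements is an involution (if `w₀ • w₀ • a ≠ a` then use that
`w₀ ^ 2` fixes `p`; we assume `htriv`), hence has a fixed point `l`, and `p l = 0`.  The ten
weights `b` with `gg l b = 0` form five pairs `{b, c}` with `wt l + wt b + wt c = 0`; `w₀` permutes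
the pairs; if the pair of `b` is not fixed by `w₀` then `b' = w₀ b` and `c = ` the partner of `b`
have `gg b' c = 1` and `p b' = - p b = p c`, so the root `ix b' c` vanishes at `p`: contradiction.
If two pairs `{b, c}`, `{b', c'}` are fixed pointwise then `p b = 0 = p b'` and `gg b b' = 1`:
contradiction.  If all five pairs are exchanged then for a weight `a` with `gg l a = 1` the weight
`a' = w₀ a` has `gg l a' = 1` and `gg a' c = gg a b` for all pairs: no such `a'` exists (finite
check).  Hence exactly one pair `{b, c}` is fixed pointwise, and `p` vanishes on the three weights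
`l, b, c` with `wt l + wt b + wt c = 0`.  Finally the Weyl group is transitive on the triples
`{l, b, c}` with sum zero (finite check: reflections `sW i` suffice, by descent on a rank
function on the 45 triples), and `wt 24 + wt 25 + wt 26 = 0`. -/
theorem exists_line {Ω : Type*} [Field Ω] [CharZero Ω] {p : Fin 27 → Ω} (hp : IsV p)
    (h0 : ∀ i, rt i p ≠ 0) (htriv : ∀ w : W, (∀ a, p (w • a) = p a) → w = 1) {w0 : W}
    (hw : ∀ a, p (w0 • a) = - p a) :
    ∃ w : W, p (w • 24) = 0 ∧ p (w • 25) = 0 ∧ p (w • 26) = 0 := by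
  have h1 : w0 * w0 = 1 := by
    apply htriv
    intro a
    rw [mul_smul, hw, hw, neg_neg]
  obtain ⟨l, hl⟩ : ∃ l : Fin 27, (w0 : Equiv.Perm (Fin 27)) l = l := by
    have : Fact (Nat.Prime 2) := ⟨Nat.prime_two⟩
    apply Equiv.Perm.exists_fixed_point_of_prime (p := 2) (n := 1)
    · rw [Fintype.card_fin]
      norm_num
    · rw [pow_one, pow_two]
      exact congrArg Subtype.val h1
  obtain ⟨w1, hw1⟩ := el_exists l
  have h2 : ∀ i, rt i (fun a => p (w1 • a)) ≠ 0 := by
    intro i h
    rw [rt_comp hp w1 i] at h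
    rcases mul_eq_zero.mp h with h3 | h3
    · have h4 : ((we w1 i * we w1 i : ℤ) : Ω) = 1 := by rw [we_sq]; norm_num
      push_cast at h4
      rw [h3] at h4
      norm_num at h4
    · exact h0 _ h3
  obtain ⟨w, h3, h4, h5⟩ := el_core (q := fun a => p (w1 • a)) (hp.comp w1) h2
    (w0 := w1⁻¹ * w0 * w1) (by
      intro a
      show p (w1 • (w1⁻¹ * w0 * w1) • a) = - p (w1 • a)
      rw [← mul_smul, ← hw, ← mul_smul]
      congr 2
      group) (by
      rw [mul_smul, hw1, mul_smul, smul_def w0, hl, ← hw1, inv_smul_smul])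
  refine ⟨w1 * w, ?_, ?_, ?_⟩
  · rw [mul_smul]; exact h3
  · rw [mul_smul]; exact h4
  · rw [mul_smul]; exact h5

end Pool.Agent.Lib.MP_12adaf_nt.E6
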