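import Pool.Agent.Lib.MP_12adaf_ntE6.E02d

/-!
# `E₆`: the involution is the central element of the Weyl group of `D₄`
-/

namespace Pool.Agent.Lib.MP_12adaf_nt.E6

open Finset

private theorem e06b_wt : ∀ (a : Fin 27) (j : Fin 6), wt (sT 0 (sT 1 (sT 2 (sT 3 a)))) j =
    (if j.val < 4 then -1 else 1) * wt a j := by decide +kernel

private theorem e06b_sq : ∀ a : Fin 27,
    sT 0 (sT 1 (sT 2 (sT 3 (sT 0 (sT 1 (sT 2 (sT 3 a))))))) = a := by decide +kernel

private theorem e06b_24 : ∀ j : Fin 6, wt 24 j = if j = 4 then -2 else 0 := by decide +kernel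

private theorem e06b_25 : ∀ j : Fin 6, wt 25 j = if j = 5 then -2 else 0 := by decide +kernel

private theorem e06b_a0 : ∀ j : Fin 6, wt 0 j =
    if j = 0 then 1 else if j = 1 then 1 else if j = 4 then 1 else 0 := by decide +kernel

private theorem e06b_a1 : ∀ j : Fin 6, wt 1 j =
    if j = 0 then 1 else if j = 1 then -1 else if j = 4 then 1 else 0 := by decide +kernel

private theorem e06b_a4 : ∀ j : Fin 6, wt 4 j =
    if j = 2 then 1 else if j = 3 then 1 else if j = 4 then 1 else 0 := by decide +kernel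

private theorem e06b_a5 : ∀ j : Fin 6, wt 5 j =
    if j = 2 then 1 else if j = 3 then -1 else if j = 4 then 1 else 0 := by decide +kernel

private theorem e06b_lf24 {Ω : Type*} [Field Ω] (ζ : Fin 6 → Ω) : lf ζ 24 = -2 * ζ 4 := by
  simp only [lf, e06b_24, Fin.sum_univ_six]
  simp

private theorem e06b_lf25 {Ω : Type*} [Field Ω] (ζ : Fin 6 → Ω) : lf ζ 25 = -2 * ζ 5 := by
  simp only [lf, e06b_25, Fin.sum_univ_six]
  simp

/-- If the weights `24, 25, 26` vanish at `p` then the other weights do not, and `p = pη η`. -/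
theorem exists_eta {Ω : Type*} [Field Ω] [CharZero Ω] {p : Fin 27 → Ω} (hp : IsV p)
    (h24 : p 24 = 0) (h25 : p 25 = 0) : ∃ η : Fin 4 → Ω, p = pη η := by
  obtain ⟨ζ, rfl⟩ := hp
  rw [e06b_lf24] at h24
  rw [e06b_lf25] at h25
  have h4 : ζ 4 = 0 := by
    have h2 : (-2 : Ω) ≠ 0 := neg_ne_zero.mpr two_ne_zero
    exact (mul_eq_zero.mp h24).resolve_left h2
  have h5 : ζ 5 = 0 := by
    have h2 : (-2 : Ω) ≠ 0 := neg_ne_zero.mpr two_ne_zero
    exact (mul_eq_zero.mp h25).resolve_left h2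
  refine ⟨![ζ 0, ζ 1, ζ 2, ζ 3], ?_⟩
  rw [pη]
  congr 1
  funext j
  fin_cases j
  · rfl
  · rfl
  · rfl
  · rfl
  · exact h4
  · exact h5

private theorem e06b_w1 {Ω : Type*} [Field Ω] (ζ : Fin 6 → Ω) (a : Fin 27) :
    lf ζ ((sW 0 * sW 1 * sW 2 * sW 3) • a) =
      - ((wt a 0 : Ω) * ζ 0 + (wt a 1 : Ω) * ζ 1 + (wt a 2 : Ω) * ζ 2 + (wt a 3 : Ω) * ζ 3) +
        ((wt a 4 : Ω) * ζ 4 + (wt a 5 : Ω) * ζ 5) := by
  have h : (sW 0 * sW 1 * sW 2 * sW 3) • a = sT 0 (sT 1 (sT 2 (sT 3 a))) := by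
    simp only [mul_smul, sW_smul]
  rw [h]
  simp only [lf, e06b_wt, Fin.sum_univ_six]
  simp
  ring

/-- With `p = pη η` of trivial stabilizer and `-p = p ∘ w₀`, `X = X ∘ w₀`, one has `X = Xβ β`, and
`w₀` is the product of the four commuting reflections `sW 0, sW 1, sW 2, sW 3` (so it is even). -/
theorem exists_beta {Ω : Type*} [Field Ω] [CharZero Ω] {η : Fin 4 → Ω} {X : Fin 27 → Ω}
    (htriv : ∀ w : W, (∀ a, pη η (w • a) = pη η a) → w = 1) {w0 : W}
    (hw : ∀ a, pη η (w0 • a) = - pη η a) (hX : IsV X) (hwX : ∀ a, X (w0 • a) = X a) :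
    (∃ β : Fin 2 → Ω, X = Xβ β) ∧ w0 = sW 0 * sW 1 * sW 2 * sW 3 ∧ eZ w0 = 1 := by
  have hsq : (sW 0 * sW 1 * sW 2 * sW 3) * (sW 0 * sW 1 * sW 2 * sW 3) = 1 := by
    refine W_ext fun a => ?_
    simp only [mul_smul, sW_smul, one_smul]
    exact e06b_sq a
  have hp1 : ∀ a, pη η ((sW 0 * sW 1 * sW 2 * sW 3) • a) = - pη η a := by
    intro a
    rw [pη, e06b_w1]
    simp only [lf, Fin.sum_univ_six]
    simp
  have h1 : w0 * (sW 0 * sW 1 * sW 2 * sW 3) = 1 := by
    apply htriv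
    intro a
    rw [mul_smul, hw, hp1, neg_neg]
  have hw0 : w0 = sW 0 * sW 1 * sW 2 * sW 3 := by
    calc w0 = w0 * ((sW 0 * sW 1 * sW 2 * sW 3) * (sW 0 * sW 1 * sW 2 * sW 3)) := by
          rw [hsq, mul_one]
      _ = (w0 * (sW 0 * sW 1 * sW 2 * sW 3)) * (sW 0 * sW 1 * sW 2 * sW 3) := by
          rw [mul_assoc w0]
      _ = sW 0 * sW 1 * sW 2 * sW 3 := by rw [h1, one_mul]
  refine ⟨?_, hw0, ?_⟩
  · obtain ⟨ξ, rfl⟩ := hX
    have key : ∀ a, (wt a 0 : Ω) * ξ 0 + (wt a 1 : Ω) * ξ 1 + (wt a 2 : Ω) * ξ 2 +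
        (wt a 3 : Ω) * ξ 3 = 0 := by
      intro a
      have h2 := hwX a
      rw [hw0, e06b_w1] at h2
      simp only [lf, Fin.sum_univ_six] at h2
      have h3 : (2 : Ω) * ((wt a 0 : Ω) * ξ 0 + (wt a 1 : Ω) * ξ 1 + (wt a 2 : Ω) * ξ 2 +
        (wt a 3 : Ω) * ξ 3) = 0 := by linear_combination -h2
      exact (mul_eq_zero.mp h3).resolve_left two_ne_zero
    have k0 := key 0
    have k1 := key 1
    have k4 := key 4
    have k5 := key 5
    simp only [e06b_a0] at k0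
    simp only [e06b_a1] at k1
    simp only [e06b_a4] at k4
    simp only [e06b_a5] at k5
    simp at k0 k1 k4 k5
    have two : (2 : Ω) ≠ 0 := two_ne_zero
    have x0 : ξ 0 = 0 := by
      have : (2 : Ω) * ξ 0 = 0 := by linear_combination k0 + k1
      exact (mul_eq_zero.mp this).resolve_left two
    have x1 : ξ 1 = 0 := by
      have : (2 : Ω) * ξ 1 = 0 := by linear_combination k0 - k1
      exact (mul_eq_zero.mp this).resolve_left two
    have x2 : ξ 2 = 0 := by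
      have : (2 : Ω) * ξ 2 = 0 := by linear_combination k4 + k5
      exact (mul_eq_zero.mp this).resolve_left two
    have x3 : ξ 3 = 0 := by
      have : (2 : Ω) * ξ 3 = 0 := by linear_combination k4 - k5
      exact (mul_eq_zero.mp this).resolve_left two
    refine ⟨![ξ 4, ξ 5], ?_⟩
    rw [Xβ]
    congr 1
    funext j
    fin_cases j
    · exact x0
    · exact x1
    · exact x2
    · exact x3
    · rfl
    · rfl
  · rw [hw0, eZ_mul, eZ_mul, eZ_mul, eZ_sW, eZ_sW, eZ_sW, eZ_sW]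
    norm_num

end Pool.Agent.Lib.MP_12adaf_nt.E6
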