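import Pool.Agent.Lib.MP_12adaf_ntE6.E02d

/-!
# `E₆`: the `F₄` core

Notation: `η : Fin 4 → Ω`, `e₁, …, e₄` the elementary symmetric functions of the `η i ^ 2`,
`π = η 0 * η 1 * η 2 * η 3` (`e₄ = π²`), `A = e₁² - 4 e₂`.  Identities (checked by computer algebra),
for `p = pη η`, `X = Xβ β`:
* `g2 p = e₁`, `g6 p = e₁³ + 2 e₁ e₂ - 12 e₃`, `II p = A² + 192 π²`, `JJ p = -2 A (A² - 576 π²)`;
* `EE p = 16 π (A² - 64 π²) = ∏ i < 12, rt i p`, `27 (EE p)² = 4 (II p)³ - (JJ p)²`;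
* `8 A³ - 6 (II p) A + JJ p = 0`; the three roots of this cubic are `A`, `(-A + 24 π) / 2`,
  `(-A - 24 π) / 2`;
* `tS m p X = (S₁ - S₃) β₀ + (S₂ - S₃) β₁` with `S_t = ∑` of the `m`-th powers of the eight values
  `p a`, `8 (t - 1) ≤ a < 8 t`; the determinant of this system for `m = 4, 8` is
  `-4032 * ∏_{i<j} (η i ^ 2 - η j ^ 2)` up to sign, nonzero as no root vanishes at `p`.
-/

namespace Pool.Agent.Lib.MP_12adaf_nt.E6

set_option linter.unusedSectionVars false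

open Finset

variable {Ω : Type*} [Field Ω] [CharZero Ω]

/-- Explicit values. -/
lemma pη_val (η : Fin 4 → Ω) : pη η = ![η 0 + η 1, η 0 - η 1, -η 0 + η 1, -η 0 - η 1,
    η 2 + η 3, η 2 - η 3, -η 2 + η 3, -η 2 - η 3,
    η 0 + η 2, η 0 - η 2, -η 0 + η 2, -η 0 - η 2,
    η 1 + η 3, η 1 - η 3, -η 1 + η 3, -η 1 - η 3,
    η 0 + η 3, η 0 - η 3, -η 0 + η 3, -η 0 - η 3,
    η 1 + η 2, η 1 - η 2, -η 1 + η 2, -η 1 - η 2, 0, 0, 0] := by
  funext a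
  fin_cases a <;> simp [pη, lf, Fin.sum_univ_succ, wt, wtL] <;> ring

/-- Explicit values. -/
lemma Xβ_val (β : Fin 2 → Ω) : Xβ β = ![β 0, β 0, β 0, β 0, β 0, β 0, β 0, β 0,
    β 1, β 1, β 1, β 1, β 1, β 1, β 1, β 1,
    -β 0 - β 1, -β 0 - β 1, -β 0 - β 1, -β 0 - β 1, -β 0 - β 1, -β 0 - β 1, -β 0 - β 1, -β 0 - β 1,
    -2 * β 0, -2 * β 1, 2 * (β 0 + β 1)] := by
  funext a
  fin_cases a <;> simp [Xβ, lf, Fin.sum_univ_succ, wt, wtL] <;> ring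

/-- A sum over the 27 weights, as a list of terms. -/
lemma sum27 {M : Type*} [AddCommMonoid M] (f : Fin 27 → M) : ∑ a, f a =
    (f 0 + f 1 + f 2 + f 3 + f 4 + f 5 + f 6 + f 7) +
    (f 8 + f 9 + f 10 + f 11 + f 12 + f 13 + f 14 + f 15) +
    (f 16 + f 17 + f 18 + f 19 + f 20 + f 21 + f 22 + f 23) + (f 24 + f 25 + f 26) := by
  have h : ∀ (g : ℕ → M) (n : ℕ), ∑ a : Fin n, g a = ∑ a ∈ range n, g a :=
    fun g n => Fin.sum_univ_eq_sum_range g n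
  have h2 := h (fun n => f (Fin.ofNat 27 n)) 27
  have h3 : ∑ a : Fin 27, f a = ∑ a : Fin 27, f (Fin.ofNat 27 (a : ℕ)) := by
    refine sum_congr rfl fun a _ => ?_
    congr 1
    exact (Fin.ofNat_val_eq_self a).symm
  rw [h3, h2]
  simp only [sum_range_succ, sum_range_zero, zero_add, ← add_assoc]
  rfl

/-- The sum of the `m`-th powers of the four values `± x ± y`. -/
def pw (m : ℕ) (x y : Ω) : Ω := (x + y) ^ m + (x - y) ^ m + (-x + y) ^ m + (-x - y) ^ m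

lemma PS_pη (m : ℕ) (hm : m ≠ 0) (η : Fin 4 → Ω) : PS m (pη η) =
    (pw m (η 0) (η 1) + pw m (η 2) (η 3)) + (pw m (η 0) (η 2) + pw m (η 1) (η 3)) +
    (pw m (η 0) (η 3) + pw m (η 1) (η 2)) := by
  rw [PS, sum27, pη_val]
  simp only [pw]
  simp [hm]
  ring

lemma tS_pη (m : ℕ) (hm : m ≠ 0) (η : Fin 4 → Ω) (β : Fin 2 → Ω) : tS m (pη η) (Xβ β) =
    ((pw m (η 0) (η 1) + pw m (η 2) (η 3)) - (pw m (η 0) (η 3) + pw m (η 1) (η 2))) * β 0 +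
    ((pw m (η 0) (η 2) + pw m (η 1) (η 3)) - (pw m (η 0) (η 3) + pw m (η 1) (η 2))) * β 1 := by
  rw [tS, sum27, pη_val, Xβ_val]
  simp only [pw]
  simp [hm]
  ring

/-- First elementary symmetric function of the squares. -/
def s1 (η : Fin 4 → Ω) : Ω := η 0 ^ 2 + η 1 ^ 2 + η 2 ^ 2 + η 3 ^ 2

/-- Second elementary symmetric function of the squares. -/
def s2 (η : Fin 4 → Ω) : Ω := η 0 ^ 2 * η 1 ^ 2 + η 0 ^ 2 * η 2 ^ 2 + η 0 ^ 2 * η 3 ^ 2 +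
  η 1 ^ 2 * η 2 ^ 2 + η 1 ^ 2 * η 3 ^ 2 + η 2 ^ 2 * η 3 ^ 2

/-- Third elementary symmetric function of the squares. -/
def s3 (η : Fin 4 → Ω) : Ω := η 0 ^ 2 * η 1 ^ 2 * η 2 ^ 2 + η 0 ^ 2 * η 1 ^ 2 * η 3 ^ 2 +
  η 0 ^ 2 * η 2 ^ 2 * η 3 ^ 2 + η 1 ^ 2 * η 2 ^ 2 * η 3 ^ 2

/-- The product of the coordinates. -/
def πη (η : Fin 4 → Ω) : Ω := η 0 * η 1 * η 2 * η 3

/-- `A = e₁² - 4 e₂`. -/
def Aη (η : Fin 4 → Ω) : Ω := s1 η ^ 2 - 4 * s2 η

lemma g2_pη (η : Fin 4 → Ω) : g2 (pη η) = s1 η := by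
  rw [g2, PS_pη 2 two_ne_zero, s1]
  simp only [pw]
  ring

lemma g6_pη (η : Fin 4 → Ω) : g6 (pη η) = s1 η ^ 3 + 2 * s1 η * s2 η - 12 * s3 η := by
  rw [g6, PS_pη 6 (by norm_num), s1, s2, s3]
  simp only [pw]
  ring

/-- Power sums of the squares. -/
def qη (m : ℕ) (η : Fin 4 → Ω) : Ω := (η 0 ^ 2) ^ m + (η 1 ^ 2) ^ m + (η 2 ^ 2) ^ m + (η 3 ^ 2) ^ m

lemma q2_eq (η : Fin 4 → Ω) : qη 2 η = s1 η ^ 2 - 2 * s2 η := by
  simp only [qη, s1, s2]; ring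

lemma q3_eq (η : Fin 4 → Ω) : qη 3 η = s1 η ^ 3 - 3 * s1 η * s2 η + 3 * s3 η := by
  simp only [qη, s1, s2, s3]; ring

lemma q4_eq (η : Fin 4 → Ω) : qη 4 η = s1 η * qη 3 η - s2 η * qη 2 η + s3 η * s1 η -
    4 * πη η ^ 2 := by
  simp only [qη, s1, s2, s3, πη]; ring

lemma q5_eq (η : Fin 4 → Ω) : qη 5 η = s1 η * qη 4 η - s2 η * qη 3 η + s3 η * qη 2 η -
    πη η ^ 2 * s1 η := by
  simp only [qη, s1, s2, s3, πη]; ring

lemma q6_eq (η : Fin 4 → Ω) : qη 6 η = s1 η * qη 5 η - s2 η * qη 4 η + s3 η * qη 3 η -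
    πη η ^ 2 * qη 2 η := by
  simp only [qη, s1, s2, s3, πη]; ring

/-- The power sum of degree 8. -/
lemma PS8_pη (η : Fin 4 → Ω) : PS 8 (pη η) = 4 * (3 * qη 4 η + 28 * (s1 η * qη 3 η - qη 4 η) +
    35 * (qη 2 η ^ 2 - qη 4 η)) := by
  rw [PS_pη 8 (by norm_num)]
  simp only [pw, qη, s1]
  ring

/-- The power sum of degree 12. -/
lemma PS12_pη (η : Fin 4 → Ω) : PS 12 (pη η) = 4 * (3 * qη 6 η +
    66 * (s1 η * qη 5 η - qη 6 η) + 495 * (qη 2 η * qη 4 η - qη 6 η) +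
    462 * (qη 3 η ^ 2 - qη 6 η)) := by
  rw [PS_pη 12 (by norm_num)]
  simp only [pw, qη, s1]
  ring

lemma II_pη (η : Fin 4 → Ω) : II (pη η) = Aη η ^ 2 + 192 * πη η ^ 2 := by
  rw [II, PS8_pη, g2_pη, g6_pη, q4_eq, q3_eq, q2_eq, Aη]
  ring

lemma JJ_pη (η : Fin 4 → Ω) : JJ (pη η) = -2 * Aη η * (Aη η ^ 2 - 576 * πη η ^ 2) := by
  rw [JJ, PS12_pη, PS8_pη, g2_pη, g6_pη, q6_eq, q5_eq, q4_eq, q3_eq, q2_eq, Aη]
  ring

/-- The cubic of `A`. -/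
lemma cubic_A (η : Fin 4 → Ω) :
    8 * Aη η ^ 3 - 6 * II (pη η) * Aη η + JJ (pη η) = 0 := by
  rw [II_pη, JJ_pη]
  ring

/-- The other factors of the cubic of `A`. -/
lemma cubic_factor (η : Fin 4 → Ω) (z : Ω) :
    8 * z ^ 3 - 6 * II (pη η) * z + JJ (pη η) =
      2 * (z - Aη η) * (2 * z + Aη η - 24 * πη η) * (2 * z + Aη η + 24 * πη η) := by
  rw [II_pη, JJ_pη]
  ring

/-- The values of the first twelve roots. -/
lemma rt_pη_fst (η : Fin 4 → Ω) : (fun i : Fin 12 => rt (Fin.castLE (by norm_num) i) (pη η)) =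
    ![2 * η 0, 2 * η 1, 2 * η 2, 2 * η 3,
      η 0 + η 1 + η 2 + η 3, η 0 + η 1 + η 2 - η 3, η 0 + η 1 - η 2 + η 3, η 0 + η 1 - η 2 - η 3,
      η 0 - η 1 + η 2 + η 3, η 0 - η 1 + η 2 - η 3, η 0 - η 1 - η 2 + η 3,
      η 0 - η 1 - η 2 - η 3] := by
  funext i
  rw [pη]
  simp only [rt_lf]
  fin_cases i <;> simp [Fin.sum_univ_succ, rho, rhoL] <;> ring

/-- The other roots are the nonzero values. -/
lemma rt_pη_snd (η : Fin 4 → Ω) (i : Fin 24) :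
    rt (Fin.natAdd 12 i : Fin 36) (pη η) = pη η (Fin.castLE (by norm_num) i) := by
  rw [pη]
  simp only [rt_lf]
  fin_cases i <;> simp [Fin.sum_univ_succ, rho, rhoL, lf, wt, wtL]

lemma pη_ne_zero {η : Fin 4 → Ω} (h0 : ∀ i, rt i (pη η) ≠ 0) (i : Fin 24) :
    pη η (Fin.castAdd 3 i : Fin 27) ≠ 0 := by
  have h := rt_pη_snd η i
  rw [show (Fin.castAdd 3 i : Fin 27) = Fin.castLE (by norm_num) i from rfl, ← h]
  exact h0 _

lemma pη_last (η : Fin 4 → Ω) (i : Fin 3) : pη η (Fin.natAdd 24 i : Fin 27) = 0 := by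
  rw [pη_val]
  fin_cases i <;> simp

/-- The zeros of `pη η`. -/
lemma pη_eq_zero_iff {η : Fin 4 → Ω} (h0 : ∀ i, rt i (pη η) ≠ 0) (a : Fin 27) :
    pη η a = 0 ↔ 24 ≤ a.val := by
  constructor
  · intro h
    by_contra h1
    push Not at h1
    exact pη_ne_zero h0 ⟨a.val, h1⟩ h
  · intro h
    have h1 := pη_last η ⟨a.val - 24, by omega⟩
    have h2 : (Fin.natAdd 24 (⟨a.val - 24, by omega⟩ : Fin 3) : Fin 27) = a := by
      apply Fin.ext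
      simp
      omega
    rw [← h2]
    exact h1

lemma QQ_pη {η : Fin 4 → Ω} (h0 : ∀ i, rt i (pη η) ≠ 0) :
    QQ (pη η) = ∏ i : Fin 24, pη η (Fin.castAdd 3 i : Fin 27) := by
  classical
  have h := Fin.prod_univ_add (a := 24) (b := 3)
    (fun a : Fin 27 => if pη η a = 0 then 1 else pη η a)
  have h1 : ∀ i : Fin 3, (if pη η (Fin.natAdd 24 i : Fin 27) = 0 then 1
      else pη η (Fin.natAdd 24 i : Fin 27)) = (1 : Ω) := fun i => by
    rw [if_pos (pη_last η i)]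
  have h2 : ∀ i : Fin 24, (if pη η (Fin.castAdd 3 i : Fin 27) = 0 then 1
      else pη η (Fin.castAdd 3 i : Fin 27)) = pη η (Fin.castAdd 3 i : Fin 27) := fun i => by
    rw [if_neg (pη_ne_zero h0 i)]
  rw [prod_congr rfl fun i _ => h1 i, prod_congr rfl fun i _ => h2 i, prod_const_one, mul_one] at h
  rw [QQ, ← h]

lemma DD_pη (η : Fin 4 → Ω) : DD (pη η) = 16 * πη η * (Aη η ^ 2 - 64 * πη η ^ 2) *
    ∏ i : Fin 24, pη η (Fin.castAdd 3 i : Fin 27) := by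
  have h := Fin.prod_univ_add (a := 12) (b := 24) (fun i : Fin 36 => rt i (pη η))
  have h1 : ∀ i : Fin 24, rt (Fin.natAdd 12 i : Fin 36) (pη η) =
      pη η (Fin.castAdd 3 i : Fin 27) := rt_pη_snd η
  have h2 : ∏ i : Fin 12, rt (Fin.castAdd 24 i : Fin 36) (pη η) =
      16 * πη η * (Aη η ^ 2 - 64 * πη η ^ 2) := by
    have h3 : ∀ i : Fin 12, rt (Fin.castAdd 24 i : Fin 36) (pη η) = _ :=
      fun i => congrFun (rt_pη_fst η) i
    rw [prod_congr rfl fun i _ => h3 i]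
    simp only [Fin.prod_univ_succ]
    simp [Aη, s1, s2, πη]
    ring
  rw [DD, h, h2, prod_congr rfl fun i _ => h1 i]

lemma EE_pη {η : Fin 4 → Ω} (h0 : ∀ i, rt i (pη η) ≠ 0) :
    EE (pη η) = 16 * πη η * (Aη η ^ 2 - 64 * πη η ^ 2) := by
  have h := DD_pη η
  have h1 : ∏ i : Fin 24, pη η (Fin.castAdd 3 i : Fin 27) ≠ 0 :=
    prod_ne_zero_iff.mpr fun i _ => pη_ne_zero h0 i
  rw [EE, QQ_pη h0, h, mul_div_assoc, div_self h1, mul_one]

lemma EE_ne_zero {η : Fin 4 → Ω} (h0 : ∀ i, rt i (pη η) ≠ 0) : EE (pη η) ≠ 0 := by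
  rw [EE, QQ_pη h0, DD]
  exact div_ne_zero (prod_ne_zero_iff.mpr fun i _ => h0 i)
    (prod_ne_zero_iff.mpr fun i _ => pη_ne_zero h0 i)

/-- The sign identity. -/
theorem EE_sq {η : Fin 4 → Ω} (h0 : ∀ i, rt i (pη η) ≠ 0) :
    27 * EE (pη η) ^ 2 = 4 * II (pη η) ^ 3 - JJ (pη η) ^ 2 ∧ EE (pη η) ≠ 0 := by
  refine ⟨?_, EE_ne_zero h0⟩
  rw [EE_pη h0, II_pη, JJ_pη]
  ring

/-- The first coefficient of `tS m (pη η) (Xβ β)`. -/
def c1 (m : ℕ) (η : Fin 4 → Ω) : Ω :=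
  (pw m (η 0) (η 1) + pw m (η 2) (η 3)) - (pw m (η 0) (η 3) + pw m (η 1) (η 2))

/-- The second coefficient of `tS m (pη η) (Xβ β)`. -/
def c2 (m : ℕ) (η : Fin 4 → Ω) : Ω :=
  (pw m (η 0) (η 2) + pw m (η 1) (η 3)) - (pw m (η 0) (η 3) + pw m (η 1) (η 2))

lemma tS_eq (m : ℕ) (hm : m ≠ 0) (η : Fin 4 → Ω) (β : Fin 2 → Ω) :
    tS m (pη η) (Xβ β) = c1 m η * β 0 + c2 m η * β 1 := tS_pη m hm η β

/-- The determinant. -/
lemma det_eq (η : Fin 4 → Ω) : c1 4 η * c2 8 η - c1 8 η * c2 4 η =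
    -4032 * ((η 0 ^ 2 - η 1 ^ 2) * (η 0 ^ 2 - η 2 ^ 2) * (η 0 ^ 2 - η 3 ^ 2) *
      (η 1 ^ 2 - η 2 ^ 2) * (η 1 ^ 2 - η 3 ^ 2) * (η 2 ^ 2 - η 3 ^ 2)) := by
  simp only [c1, c2, pw]
  ring

lemma det_ne_zero {η : Fin 4 → Ω} (h0 : ∀ i, rt i (pη η) ≠ 0) :
    c1 4 η * c2 8 η - c1 8 η * c2 4 η ≠ 0 := by
  have hv : ∀ a : Fin 27, a.val < 24 → pη η a ≠ 0 := fun a ha h =>
    absurd ((pη_eq_zero_iff h0 a).mp h) (by omega)
  have e : ∀ x y : Ω, x ^ 2 - y ^ 2 = (x + y) * (x - y) := fun x y => by ring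
  have h01 := hv 0 (by decide)
  have h01' := hv 1 (by decide)
  have h23 := hv 4 (by decide)
  have h23' := hv 5 (by decide)
  have h02 := hv 8 (by decide)
  have h02' := hv 9 (by decide)
  have h13 := hv 12 (by decide)
  have h13' := hv 13 (by decide)
  have h03 := hv 16 (by decide)
  have h03' := hv 17 (by decide)
  have h12 := hv 20 (by decide)
  have h12' := hv 21 (by decide)
  rw [pη_val] at h01 h01' h23 h23' h02 h02' h13 h13' h03 h03' h12 h12'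
  rw [det_eq]
  simp only [e]
  refine mul_ne_zero (by norm_num) ?_
  refine mul_ne_zero (mul_ne_zero (mul_ne_zero (mul_ne_zero (mul_ne_zero ?_ ?_) ?_) ?_) ?_) ?_
  · exact mul_ne_zero h01 h01'
  · exact mul_ne_zero h02 h02'
  · exact mul_ne_zero h03 h03'
  · exact mul_ne_zero h12 h12'
  · exact mul_ne_zero h13 h13'
  · exact mul_ne_zero h23 h23'

/-- The coordinates `η i` are roots of the even polynomial of degree 8 with coefficients the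
elementary symmetric functions. -/
lemma octic (η : Fin 4 → Ω) (i : Fin 4) :
    η i ^ 8 - s1 η * η i ^ 6 + s2 η * η i ^ 4 - s3 η * η i ^ 2 + πη η ^ 2 = 0 := by
  fin_cases i <;> simp [s1, s2, s3, πη] <;> ring

/-- The octic with arbitrary argument factors. -/
lemma octic_factor (η : Fin 4 → Ω) (z : Ω) :
    z ^ 8 - s1 η * z ^ 6 + s2 η * z ^ 4 - s3 η * z ^ 2 + πη η ^ 2 =
      (z ^ 2 - η 0 ^ 2) * (z ^ 2 - η 1 ^ 2) * (z ^ 2 - η 2 ^ 2) * (z ^ 2 - η 3 ^ 2) := by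
  simp only [s1, s2, s3, πη]
  ring

/-- The coefficients `c1`, `c2` lie in any subfield containing the coordinates. -/
lemma pw_mem (S : Subfield Ω) {x y : Ω} (hx : x ∈ S) (hy : y ∈ S) (m : ℕ) : pw m x y ∈ S := by
  unfold pw
  exact add_mem (add_mem (add_mem (pow_mem (add_mem hx hy) m) (pow_mem (sub_mem hx hy) m))
    (pow_mem (add_mem (neg_mem hx) hy) m)) (pow_mem (sub_mem (neg_mem hx) hy) m)

lemma c1_mem (S : Subfield Ω) {η : Fin 4 → Ω} (h : ∀ i, η i ∈ S) (m : ℕ) : c1 m η ∈ S :=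
  sub_mem (add_mem (pw_mem S (h 0) (h 1) m) (pw_mem S (h 2) (h 3) m))
    (add_mem (pw_mem S (h 0) (h 3) m) (pw_mem S (h 1) (h 2) m))

lemma c2_mem (S : Subfield Ω) {η : Fin 4 → Ω} (h : ∀ i, η i ∈ S) (m : ℕ) : c2 m η ∈ S :=
  sub_mem (add_mem (pw_mem S (h 0) (h 2) m) (pw_mem S (h 1) (h 3) m))
    (add_mem (pw_mem S (h 0) (h 3) m) (pw_mem S (h 1) (h 2) m))

/-- The value of `II` from the parameters. -/
lemma II_eq {η : Fin 4 → Ω} (h0 : ∀ i, rt i (pη η) ≠ 0) (hI : II (pη η) ≠ 0) {e : Ω}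
    (he : e ≠ 0) : II (pη η) =
      (27 * e ^ 2 * (EE (pη η) / (e * II (pη η))) ^ 2 + (JJ (pη η) / II (pη η)) ^ 2) / 4 := by
  have h := (EE_sq h0).1
  field_simp
  linear_combination -h

/-- The coordinates are algebraic over the parameters: `S` is a subfield which is algebraically
closed in `Ω`. -/
theorem core_alg {η : Fin 4 → Ω} {β : Fin 2 → Ω} (h0 : ∀ i, rt i (pη η) ≠ 0)
    (hI : II (pη η) ≠ 0) {e : Ω} (he : e ≠ 0) (S : Subfield Ω)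
    (hS : ∀ z : Ω, IsAlgebraic S z → z ∈ S) (heS : e ∈ S)
    (ht : ∀ i, tt (pη η) (Xβ β) e i ∈ S) : (∀ i, η i ∈ S) ∧ ∀ i, β i ∈ S := by
  have t0 : tS 4 (pη η) (Xβ β) ∈ S := ht 0
  have t1 : tS 8 (pη η) (Xβ β) ∈ S := ht 1
  have t2 : g2 (pη η) ∈ S := ht 2
  have t3 : g6 (pη η) ∈ S := ht 3
  have t4 : EE (pη η) / (e * II (pη η)) ∈ S := ht 4
  have t5 : JJ (pη η) / II (pη η) ∈ S := ht 5
  have hn : ∀ n : ℕ, (n : Ω) ∈ S := fun n => natCast_mem S n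
  have hm : ∀ x : S, algebraMap S Ω x = (x : Ω) := fun _ => rfl
  have h8 : ((8 : S) : Ω) = 8 := rfl
  have h6 : ((6 : S) : Ω) = 6 := rfl
  have hII : II (pη η) ∈ S := by
    rw [II_eq h0 hI he]
    exact div_mem (add_mem (mul_mem (mul_mem (by exact_mod_cast hn 27) (pow_mem heS 2))
      (pow_mem t4 2)) (pow_mem t5 2)) (by exact_mod_cast hn 4)
  have hJJ : JJ (pη η) ∈ S := by
    have h := mul_mem t5 hII
    rwa [div_mul_cancel₀ _ hI] at h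
  -- `A`
  have hA : Aη η ∈ S := by
    apply hS
    refine ⟨Polynomial.C 8 * Polynomial.X ^ 3 - Polynomial.C (6 * ⟨_, hII⟩) * Polynomial.X +
      Polynomial.C ⟨_, hJJ⟩, ?_, ?_⟩
    · intro h
      have h1 := congrArg (fun f => Polynomial.coeff f 3) h
      simp at h1
    · have h := cubic_A η
      simp [hm, h8, h6]
      linear_combination h
  have h192 : πη η ^ 2 ∈ S := by
    have h : πη η ^ 2 = (II (pη η) - Aη η ^ 2) / 192 := by
      rw [II_pη]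
      ring
    rw [h]
    exact div_mem (sub_mem hII (pow_mem hA 2)) (by exact_mod_cast hn 192)
  have hs1 : s1 η ∈ S := by rw [← g2_pη]; exact t2
  have hs2 : s2 η ∈ S := by
    have h : s2 η = (s1 η ^ 2 - Aη η) / 4 := by
      rw [Aη]
      ring
    rw [h]
    exact div_mem (sub_mem (pow_mem hs1 2) hA) (by exact_mod_cast hn 4)
  have hs3 : s3 η ∈ S := by
    have h : s3 η = (s1 η ^ 3 + 2 * s1 η * s2 η - g6 (pη η)) / 12 := by
      rw [g6_pη]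
      ring
    rw [h]
    exact div_mem (sub_mem (add_mem (pow_mem hs1 3) (mul_mem (mul_mem (by exact_mod_cast hn 2) hs1)
      hs2)) t3) (by exact_mod_cast hn 12)
  have hη : ∀ i, η i ∈ S := by
    intro i
    apply hS
    refine ⟨Polynomial.X ^ 8 - Polynomial.C ⟨_, hs1⟩ * Polynomial.X ^ 6 +
      Polynomial.C ⟨_, hs2⟩ * Polynomial.X ^ 4 - Polynomial.C ⟨_, hs3⟩ * Polynomial.X ^ 2 +
      Polynomial.C ⟨_, h192⟩, ?_, ?_⟩
    · intro h
      have h1 := congrArg (fun f => Polynomial.coeff f 8) h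
      simp [Polynomial.coeff_X_pow] at h1
    · have h := octic η i
      simp [hm]
      linear_combination h
  refine ⟨hη, ?_⟩
  have hd := det_ne_zero h0
  rw [tS_eq 4 (by norm_num)] at t0
  rw [tS_eq 8 (by norm_num)] at t1
  have hdm : c1 4 η * c2 8 η - c1 8 η * c2 4 η ∈ S :=
    sub_mem (mul_mem (c1_mem S hη 4) (c2_mem S hη 8)) (mul_mem (c1_mem S hη 8) (c2_mem S hη 4))
  have hb0 : β 0 ∈ S := by
    have h : β 0 = ((c1 4 η * β 0 + c2 4 η * β 1) * c2 8 η -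
        (c1 8 η * β 0 + c2 8 η * β 1) * c2 4 η) / (c1 4 η * c2 8 η - c1 8 η * c2 4 η) := by
      rw [eq_div_iff hd]
      ring
    rw [h]
    exact div_mem (sub_mem (mul_mem t0 (c2_mem S hη 8)) (mul_mem t1 (c2_mem S hη 4))) hdm
  have hb1 : β 1 ∈ S := by
    have h : β 1 = (c1 4 η * (c1 8 η * β 0 + c2 8 η * β 1) -
        c1 8 η * (c1 4 η * β 0 + c2 4 η * β 1)) / (c1 4 η * c2 8 η - c1 8 η * c2 4 η) := by
      rw [eq_div_iff hd]
      ring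
    rw [h]
    exact div_mem (sub_mem (mul_mem (c1_mem S hη 4) t1) (mul_mem (c1_mem S hη 8) t0)) hdm
  intro i
  fin_cases i
  · exact hb0
  · exact hb1

/-- The determinant argument: a point of the complement is determined by the mixed power sums. -/
lemma Xβ_unique {η : Fin 4 → Ω} (h0 : ∀ i, rt i (pη η) ≠ 0) {β β' : Fin 2 → Ω}
    (h4 : tS 4 (pη η) (Xβ β) = tS 4 (pη η) (Xβ β')) (h8 : tS 8 (pη η) (Xβ β) = tS 8 (pη η) (Xβ β')) :
    β = β' := by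
  rw [tS_eq 4 (by norm_num), tS_eq 4 (by norm_num)] at h4
  rw [tS_eq 8 (by norm_num), tS_eq 8 (by norm_num)] at h8
  have hd := det_ne_zero h0
  have h0' : β 0 = β' 0 := by
    apply mul_left_cancel₀ hd
    linear_combination c2 8 η * h4 - c2 4 η * h8
  have h1' : β 1 = β' 1 := by
    apply mul_left_cancel₀ hd
    linear_combination c1 4 η * h8 - c1 8 η * h4
  funext i
  fin_cases i
  · exact h0'
  · exact h1'

end Pool.Agent.Lib.MP_12adaf_nt.E6
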