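import Pool.Agent.Lib.MP_12adaf_ntE6.E07a

/-!
# `E₆`: the `F₄` core

Notation: `η : Fin 4 → Ω`, `e₁, …, e₄` the elementary symmetric functions of the `η i ^ 2`,
`π = η 0 * η 1 * η 2 * η 3` (`e₄ = π²`), `A = e₁² - 4 e₂`.  Identities (checked by computer algebra),
for `p = pη η`, `X = Xβ β`:
* `g2 p = e₁`, `g6 p = e₁³ + 2 e₁ e₂ - 12 e₃`, `II p = A² + 192 π²`, `JJ p = -2 A (A² - 576 π²)`;
* `EE p = 16 π (A² - 64 π²) = ∏ i < 12, rt i p`, `27 (EE p)² = 4 (II p)³ - (JJ p)²`;
* `8 A³ - 6 (II p) A + JJ p = 0`; the three roots of this cubic are `A`, `(-A + 24 π) / 2`,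
  `(-A - 24 π) / 2`;
* `tS m p X = (S₁ - S₃) β₀ + (S₂ - S₃) β₁` with `S_t = ∑` of the `m`-th powers of the eight values
  `p a`, `8 (t - 1) ≤ a < 8 t`; the determinant of this system for `m = 4, 8` is
  `-4032 * ∏_{i<j} (η i ^ 2 - η j ^ 2)` up to sign, nonzero as no root vanishes at `p`.
-/

namespace Pool.Agent.Lib.MP_12adaf_nt.E6

set_option linter.unusedSectionVars false

open Finset

variable {Ω : Type*} [Field Ω] [CharZero Ω]

/-! ### The reflections in coordinates -/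

/-- The reflection `i` in coordinates. -/
def refl (i : Fin 36) (ζ : Fin 6 → Ω) : Fin 6 → Ω :=
  fun j => ζ j - (kap2 i j : Ω) / 2 * ∑ l, (rho i l : Ω) * ζ l

lemma lf_sT (i : Fin 36) (ζ : Fin 6 → Ω) (a : Fin 27) :
    lf ζ (sT i a) = lf (refl i ζ) a := by
  have hz : IsV (lf ζ) := ⟨ζ, rfl⟩
  rw [hz.sT, rt_lf]
  have h : (2 : Ω) * mm i a = ∑ j, (wt a j : Ω) * kap2 i j := by exact_mod_cast two_mm i a
  have h' : (mm i a : Ω) = (∑ j, (wt a j : Ω) * kap2 i j) / 2 := by
    rw [← h]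
    ring
  have h2 : lf (refl i ζ) a = lf ζ a -
      (∑ j, (wt a j : Ω) * kap2 i j) / 2 * ∑ l, (rho i l : Ω) * ζ l := by
    simp only [lf, refl]
    rw [sum_div, sum_mul, ← sum_sub_distrib]
    exact sum_congr rfl fun j _ => by ring
  rw [h', h2]

/-- Two points of the space of the `D₄` coordinates which are related by an element of the
stabilizer of the decomposition. -/
def Rel (η η' : Fin 4 → Ω) : Prop :=
  ∃ w : W, (∀ a, pη η (w • a) = pη η' a) ∧
    ∀ β : Fin 2 → Ω, ∃ β' : Fin 2 → Ω, ∀ a, Xβ β (w • a) = Xβ β' a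

lemma Rel.rfl' (η : Fin 4 → Ω) : Rel η η :=
  ⟨1, fun a => by rw [one_smul], fun β => ⟨β, fun a => by rw [one_smul]⟩⟩

lemma Rel.trans' {η η' η'' : Fin 4 → Ω} (h : Rel η η') (h' : Rel η' η'') : Rel η η'' := by
  obtain ⟨w, h1, h2⟩ := h
  obtain ⟨w', h1', h2'⟩ := h'
  refine ⟨w * w', fun a => by rw [mul_smul, h1, h1'], fun β => ?_⟩
  obtain ⟨β', hb⟩ := h2 β
  obtain ⟨β'', hb'⟩ := h2' β'
  exact ⟨β'', fun a => by rw [mul_smul, hb, hb']⟩

lemma rel_of_refl (i : Fin 36) {η η' : Fin 4 → Ω}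
    (h : refl i ![η 0, η 1, η 2, η 3, 0, 0] = ![η' 0, η' 1, η' 2, η' 3, 0, 0])
    (hb : ∀ β : Fin 2 → Ω, refl i ![0, 0, 0, 0, β 0, β 1] = ![0, 0, 0, 0, β 0, β 1]) :
    Rel η η' := by
  refine ⟨sW i, fun a => ?_, fun β => ⟨β, fun a => ?_⟩⟩
  · rw [sW_smul, pη, lf_sT, h, pη]
  · rw [sW_smul, Xβ, lf_sT, hb]

lemma rel_of_refl2 (i j : Fin 36) {η η' : Fin 4 → Ω}
    (h : refl j (refl i ![η 0, η 1, η 2, η 3, 0, 0]) = ![η' 0, η' 1, η' 2, η' 3, 0, 0])
    (hb : ∀ β : Fin 2 → Ω, ∃ β' : Fin 2 → Ω,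
      refl j (refl i ![0, 0, 0, 0, β 0, β 1]) = ![0, 0, 0, 0, β' 0, β' 1]) :
    Rel η η' := by
  refine ⟨sW i * sW j, fun a => ?_, fun β => ?_⟩
  · rw [mul_smul, sW_smul, sW_smul, pη, lf_sT, lf_sT, h, pη]
  · obtain ⟨β', hb'⟩ := hb β
    refine ⟨β', fun a => ?_⟩
    rw [mul_smul, sW_smul, sW_smul, Xβ, lf_sT, lf_sT, hb', Xβ]

/-- A sign change. -/
lemma rel_sign (i : Fin 4) (η : Fin 4 → Ω) :
    Rel η (fun j => if j = i then -η j else η j) := by
  refine rel_of_refl (Fin.castLE (by norm_num) i) ?_ ?_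
  · fin_cases i <;> funext j <;> fin_cases j <;>
      simp [refl, kap2, kL, rho, rhoL, Fin.sum_univ_succ] <;> ring
  · intro β
    fin_cases i <;> funext j <;> fin_cases j <;>
      simp [refl, kap2, kL, rho, rhoL, Fin.sum_univ_succ]

/-- The reflection at the sum of the coordinates. -/
lemma rel_half (η : Fin 4 → Ω) : Rel η (fun j => η j - (η 0 + η 1 + η 2 + η 3) / 2) := by
  refine rel_of_refl 4 ?_ ?_
  · funext j
    fin_cases j <;> simp [refl, kap2, kL, rho, rhoL, Fin.sum_univ_succ] <;> ring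
  · intro β
    funext j
    fin_cases j <;> simp [refl, kap2, kL, rho, rhoL, Fin.sum_univ_succ]

lemma rel_swap01 (η : Fin 4 → Ω) : Rel η (η ∘ Equiv.swap 0 1) := by
  refine rel_of_refl2 13 14 ?_ fun β => ⟨![β 0, -β 0 - β 1], ?_⟩
  · funext j
    fin_cases j <;> simp [refl, kap2, kL, rho, rhoL, Fin.sum_univ_succ, Equiv.swap_apply_def] <;> ring
  · funext j
    fin_cases j <;> simp [refl, kap2, kL, rho, rhoL, Fin.sum_univ_succ] <;> ring

lemma rel_swap23 (η : Fin 4 → Ω) : Rel η (η ∘ Equiv.swap 2 3) := by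
  refine rel_of_refl2 17 18 ?_ fun β => ⟨![β 0, -β 0 - β 1], ?_⟩
  · funext j
    fin_cases j <;> simp [refl, kap2, kL, rho, rhoL, Fin.sum_univ_succ, Equiv.swap_apply_def] <;> ring
  · funext j
    fin_cases j <;> simp [refl, kap2, kL, rho, rhoL, Fin.sum_univ_succ] <;> ring

lemma rel_swap12 (η : Fin 4 → Ω) : Rel η (η ∘ Equiv.swap 1 2) := by
  refine rel_of_refl2 33 34 ?_ fun β => ⟨![β 1, β 0], ?_⟩
  · funext j
    fin_cases j <;> simp [refl, kap2, kL, rho, rhoL, Fin.sum_univ_succ, Equiv.swap_apply_def] <;> ring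
  · funext j
    fin_cases j <;> simp [refl, kap2, kL, rho, rhoL, Fin.sum_univ_succ] <;> ring

/-- All permutations of the coordinates. -/
lemma rel_perm (f : Equiv.Perm (Fin 4)) : ∀ η : Fin 4 → Ω, Rel η (η ∘ f) := by
  have hf : f ∈ Submonoid.closure (Set.range fun i : Fin 3 => Equiv.swap i.castSucc i.succ) := by
    rw [Equiv.Perm.mclosure_swap_castSucc_succ]
    exact Submonoid.mem_top f
  induction hf using Submonoid.closure_induction with
  | mem x hx =>
    obtain ⟨i, rfl⟩ := hx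
    intro η
    fin_cases i
    · exact rel_swap01 η
    · exact rel_swap12 η
    · exact rel_swap23 η
  | one => exact fun η => Rel.rfl' η
  | mul x y _ _ hx hy =>
    intro η
    exact (hx η).trans' (hy (η ∘ x))

/-- All sign changes. -/
lemma rel_signs {η η' : Fin 4 → Ω} (h : ∀ i, η' i = η i ∨ η' i = -η i) : Rel η η' := by
  have key : ∀ (η : Fin 4 → Ω) (i : Fin 4) (x : Ω), (x = η i ∨ x = -η i) →
      Rel η (fun j => if j = i then x else η j) := by
    intro η i x hx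
    rcases hx with rfl | rfl
    · have h1 : (fun j => if j = i then η i else η j) = η := by
        funext j
        split_ifs with h2
        · rw [h2]
        · rfl
      rw [h1]
      exact Rel.rfl' η
    · have h1 : (fun j => if j = i then -η i else η j) = fun j => if j = i then -η j else η j := by
        funext j
        split_ifs with h2
        · rw [h2]
        · rfl
      rw [h1]
      exact rel_sign i η
  have k0 := key η 0 (η' 0) (h 0)
  set η0 : Fin 4 → Ω := fun j => if j = 0 then η' 0 else η j with e0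
  have k1 := key η0 1 (η' 1) (by rw [e0]; simpa using h 1)
  set η1 : Fin 4 → Ω := fun j => if j = 1 then η' 1 else η0 j with e1
  have k2 := key η1 2 (η' 2) (by rw [e1, e0]; simpa using h 2)
  set η2 : Fin 4 → Ω := fun j => if j = 2 then η' 2 else η1 j with e2
  have k3 := key η2 3 (η' 3) (by rw [e2, e1, e0]; simpa using h 3)
  have e3 : (fun j => if j = 3 then η' 3 else η2 j) = η' := by
    funext j
    fin_cases j <;> simp [e2, e1, e0]
  rw [e3] at k3
  exact ((k0.trans' k1).trans' k2).trans' k3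

/-! ### Invariance of the power sums -/

lemma PS_comp_core (m : ℕ) (z : Fin 27 → Ω) (w : W) : PS m (fun a => z (w • a)) = PS m z := by
  rw [PS, PS]
  exact Fintype.sum_equiv (w : Equiv.Perm (Fin 27)) _ _ fun a => rfl

lemma tS_comp_core (m : ℕ) (z Z : Fin 27 → Ω) (w : W) :
    tS m (fun a => z (w • a)) (fun a => Z (w • a)) = tS m z Z := by
  rw [tS, tS]
  exact Fintype.sum_equiv (w : Equiv.Perm (Fin 27)) _ _ fun a => rfl

lemma Rel.inv {η η' : Fin 4 → Ω} (h : Rel η η') : g2 (pη η') = g2 (pη η) ∧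
    g6 (pη η') = g6 (pη η) ∧ II (pη η') = II (pη η) := by
  obtain ⟨w, h1, -⟩ := h
  have h2 : pη η' = fun a => pη η (w • a) := funext fun a => (h1 a).symm
  have h3 : ∀ m, PS m (pη η') = PS m (pη η) := fun m => by rw [h2, PS_comp_core]
  refine ⟨by rw [g2, g2, h3], by rw [g6, g6, h3], ?_⟩
  rw [II, II, g2, g2, g6, g6, h3, h3, h3]

lemma A_half (η : Fin 4 → Ω) : Aη (fun j => η j - (η 0 + η 1 + η 2 + η 3) / 2) =
    (-Aη η - 24 * πη η) / 2 := by
  simp only [Aη, s1, s2, πη]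
  ring

/-- A point related to `η` with the given value of `A`. -/
lemma exists_rel {η : Fin 4 → Ω} {A1 : Ω}
    (h : 8 * A1 ^ 3 - 6 * II (pη η) * A1 + JJ (pη η) = 0) :
    ∃ η' : Fin 4 → Ω, Rel η η' ∧ Aη η' = A1 := by
  rw [cubic_factor] at h
  rcases mul_eq_zero.mp h with h | h
  · rcases mul_eq_zero.mp h with h | h
    · have h1 : A1 = Aη η := by
        have h2 := (mul_eq_zero.mp h).resolve_left two_ne_zero
        linear_combination h2
      exact ⟨η, Rel.rfl' η, h1.symm⟩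
    · -- `A1 = (-A + 24 π) / 2`
      set η0 : Fin 4 → Ω := fun j => if j = 0 then -η j else η j with e0
      have hA : Aη η0 = Aη η := by
        simp [Aη, s1, s2, e0]
      have hπ : πη η0 = -πη η := by
        simp [πη, e0]
      refine ⟨_, (rel_sign 0 η).trans' (rel_half η0), ?_⟩
      rw [A_half, hA, hπ]
      linear_combination -h / 2
  · refine ⟨_, rel_half η, ?_⟩
    rw [A_half]
    linear_combination -h / 2

/-- The octic determines the coordinates up to permutation and signs. -/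
lemma rel_of_eq {η η' : Fin 4 → Ω} (h0 : ∀ i, rt i (pη η') ≠ 0) (e1 : s1 η' = s1 η)
    (e2 : s2 η' = s2 η) (e3 : s3 η' = s3 η) (e4 : πη η' ^ 2 = πη η ^ 2) : Rel η η' := by
  have hex : ∀ i, ∃ j, η' i ^ 2 = η j ^ 2 := by
    intro i
    have h := octic η' i
    rw [e1, e2, e3, e4, octic_factor] at h
    rcases mul_eq_zero.mp h with h | h
    · rcases mul_eq_zero.mp h with h | h
      · rcases mul_eq_zero.mp h with h | h
        · exact ⟨0, sub_eq_zero.mp h⟩
        · exact ⟨1, sub_eq_zero.mp h⟩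
      · exact ⟨2, sub_eq_zero.mp h⟩
    · exact ⟨3, sub_eq_zero.mp h⟩
  choose f hf using hex
  -- the squares of the `η' i` are distinct
  have hd : ∀ i j, η' i ^ 2 = η' j ^ 2 → i = j := by
    have hdet := det_ne_zero h0
    rw [det_eq] at hdet
    intro i j hij
    by_contra hne
    apply hdet
    fin_cases i <;> fin_cases j <;> first
      | exact absurd rfl hne
      | (simp only [Fin.zero_eta, Fin.mk_one, Fin.reduceFinMk] at hij
         rw [hij]
         ring)
  have hinj : Function.Injective f := by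
    intro i j hij
    apply hd
    rw [hf i, hf j, hij]
  let F : Equiv.Perm (Fin 4) := Equiv.ofBijective f (Finite.injective_iff_bijective.mp hinj)
  refine (rel_perm F η).trans' (rel_signs fun i => ?_)
  exact sq_eq_sq_iff_eq_or_eq_neg.mp (hf i)

/-! ### The core -/

lemma map_lf (σ : Ω ≃+* Ω) (ζ : Fin 6 → Ω) (a : Fin 27) :
    σ (lf ζ a) = lf (fun j => σ (ζ j)) a := by
  simp only [lf, map_sum, map_mul, map_intCast]

lemma map_pη (σ : Ω ≃+* Ω) (η : Fin 4 → Ω) (a : Fin 27) :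
    σ (pη η a) = pη (fun i => σ (η i)) a := by
  rw [pη, map_lf, pη]
  congr 1
  funext j
  fin_cases j <;> simp

lemma map_Xβ (σ : Ω ≃+* Ω) (β : Fin 2 → Ω) (a : Fin 27) :
    σ (Xβ β a) = Xβ (fun i => σ (β i)) a := by
  rw [Xβ, map_lf, Xβ]
  congr 1
  funext j
  fin_cases j <;> simp

lemma map_PS_core (σ : Ω ≃+* Ω) (m : ℕ) (η : Fin 4 → Ω) :
    PS m (pη (fun i => σ (η i))) = σ (PS m (pη η)) := by
  rw [PS, PS, map_sum]
  exact sum_congr rfl fun a _ => by rw [map_pow, map_pη]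

lemma map_tS_core (σ : Ω ≃+* Ω) (m : ℕ) (η : Fin 4 → Ω) (β : Fin 2 → Ω) :
    tS m (pη (fun i => σ (η i))) (Xβ (fun i => σ (β i))) = σ (tS m (pη η) (Xβ β)) := by
  rw [tS, tS, map_sum]
  exact sum_congr rfl fun a _ => by rw [map_mul, map_pow, map_pη, map_Xβ]

/-- **The core.**  An automorphism which fixes the six parameters (and `e` up to sign) acts on
`p = pη η` and on `X = Xβ β` through the Weyl group.
Proof.  `σ` fixes `I` (`4 I = 27 e² (EE/(e I))² + (JJ/I)²`), hence `J`, `g2`, `g6`.  `σ A` is a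
root of `8 A³ - 6 I A + J`, and `(σ π)² = (I - (σ A)²) / 192`, so `(σ A, σ π)` is one of
`(A, ±π)`, `((-A + 24 π)/2, ±(A + 8 π)/16)`, `((-A - 24 π)/2, ±(A - 8 π)/16)`; products of
the reflections `sW i`, `i < 12` (they act on `η` only, `rho i` and `kap2 i` have no `B`-part)
realise all these changes, so there is `w₁ : W` and `η'` with `pη η ∘ w₁ = pη η'`,
`A(η') = σ A` and `π(η')^2 = σ π ^ 2`.  Then `e₁, e₂, e₃, e₄` of `σ η` and of `η'` agree (`g2`, `g6` are
invariant), so `(σ η i)²` is a permutation of the `(η' j)²` and `σ η` is a signed permutation of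
`η'`; sign changes are `sW i`, `i < 4`, the transpositions of the `η`'s are realised by elements of
`W` (e.g. for `η 0 ↔ η 1` a product of two commuting reflections among `sW i`, `i ≥ 12`, which also
permutes the three `B`'s): so `σ (p a) = p (w • a)` for some `w`.  As `w` preserves the zero set
`{24, 25, 26}` of `p` (the other `p a` are nonzero, they are roots up to sign) it commutes with
`sW 0 * sW 1 * sW 2 * sW 3` and `X ∘ w = Xβ β'` for some `β'`.  Finally `tS m (σ p) (σ X) =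
tS m p X = tS m (p ∘ w) (X ∘ w) = tS m (σ p) (Xβ β')` for `m = 4, 8`, so `σ X = Xβ β'` by the
determinant. -/
theorem core {η : Fin 4 → Ω} {β : Fin 2 → Ω} (h0 : ∀ i, rt i (pη η) ≠ 0)
    (hI : II (pη η) ≠ 0) {e : Ω} (he : e ≠ 0) (σ : Ω ≃+* Ω) (hσe : σ e = e ∨ σ e = -e)
    (ht : ∀ i, σ (tt (pη η) (Xβ β) e i) = tt (pη η) (Xβ β) e i) :
    ∃ w : W, (∀ a, σ (pη η a) = pη η (w • a)) ∧ ∀ a, σ (Xβ β a) = Xβ β (w • a) := by
  have t0 : σ (tS 4 (pη η) (Xβ β)) = tS 4 (pη η) (Xβ β) := ht 0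
  have t1 : σ (tS 8 (pη η) (Xβ β)) = tS 8 (pη η) (Xβ β) := ht 1
  have t2 : σ (g2 (pη η)) = g2 (pη η) := ht 2
  have t3 : σ (g6 (pη η)) = g6 (pη η) := ht 3
  have t4 : σ (EE (pη η) / (e * II (pη η))) = EE (pη η) / (e * II (pη η)) := ht 4
  have t5 : σ (JJ (pη η) / II (pη η)) = JJ (pη η) / II (pη η) := ht 5
  have hσe2 : σ e ^ 2 = e ^ 2 := by
    rcases hσe with h | h
    · rw [h]
    · rw [h]
      ring
  have hII : σ (II (pη η)) = II (pη η) := by
    have h := II_eq h0 hI he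
    set u := EE (pη η) / (e * II (pη η)) with hu
    set v := JJ (pη η) / II (pη η) with hv
    rw [h]
    simp only [map_div₀, map_add, map_mul, map_pow, map_ofNat, t4, t5, hσe2]
  have hJJ : σ (JJ (pη η)) = JJ (pη η) := by
    have h : JJ (pη η) = JJ (pη η) / II (pη η) * II (pη η) := by
      rw [div_mul_cancel₀ _ hI]
    rw [h, map_mul, t5, hII]
  set η1 : Fin 4 → Ω := fun i => σ (η i) with hη1
  have hrt : ∀ i, rt i (pη η1) ≠ 0 := by
    intro i h
    apply h0 i
    rw [rt] at h ⊢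
    rw [← map_pη, ← map_pη, ← map_sub] at h
    exact (map_eq_zero_iff σ σ.injective).mp h
  have g2' : g2 (pη η1) = g2 (pη η) := by
    rw [← t2, g2, g2, map_div₀, map_PS_core, map_ofNat]
  have g6' : g6 (pη η1) = g6 (pη η) := by
    rw [← t3, g6, g6, map_div₀, map_PS_core, map_ofNat]
  have II' : II (pη η1) = II (pη η) := by
    rw [← hII, II_pη, II_pη]
    simp [Aη, s1, s2, πη, hη1, map_ofNat]
  have JJ' : JJ (pη η1) = JJ (pη η) := by
    rw [← hJJ, JJ_pη, JJ_pη]
    simp [Aη, s1, s2, πη, hη1, map_ofNat]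
  obtain ⟨η', hrel, hA⟩ := exists_rel (η := η) (A1 := Aη η1) (by
    have h := cubic_A η1
    rw [II', JJ'] at h
    exact h)
  obtain ⟨i2, i6, iI⟩ := hrel.inv
  have q1 : s1 η1 = s1 η' := by rw [← g2_pη, ← g2_pη, g2', i2]
  have q2 : s2 η1 = s2 η' := by
    have h := hA
    rw [Aη, Aη, q1] at h
    linear_combination h / 4
  have q3 : s3 η1 = s3 η' := by
    have h1 := g6_pη η1
    have h2 := g6_pη η'
    rw [g6', q1, q2] at h1
    rw [i6] at h2
    linear_combination (h1 - h2) / 12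
  have q4 : πη η1 ^ 2 = πη η' ^ 2 := by
    have h1 := II_pη η1
    have h2 := II_pη η'
    rw [II'] at h1
    rw [iI, hA] at h2
    linear_combination (h2 - h1) / 192
  have hR : Rel η η1 := hrel.trans' (rel_of_eq hrt q1 q2 q3 q4)
  obtain ⟨w, h1, h2⟩ := hR
  obtain ⟨β', hb⟩ := h2 β
  have hX : (fun i => σ (β i)) = β' := by
    have hz : pη η1 = fun a => pη η (w • a) := funext fun a => (h1 a).symm
    have hZ : Xβ β' = fun a => Xβ β (w • a) := funext fun a => (hb a).symm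
    have key : ∀ m, σ (tS m (pη η) (Xβ β)) = tS m (pη η) (Xβ β) →
        tS m (pη η1) (Xβ fun i => σ (β i)) = tS m (pη η1) (Xβ β') := by
      intro m hm
      rw [hη1, map_tS_core, hm, ← hη1, hz, hZ, tS_comp_core]
    exact Xβ_unique hrt (key 4 t0) (key 8 t1)
  refine ⟨w, fun a => ?_, fun a => ?_⟩
  · rw [map_pη, h1]
  · rw [map_Xβ, hb, hX]

end Pool.Agent.Lib.MP_12adaf_nt.E6
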