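import Pool.Agent.Lib.MP_12adaf_ntE6.E02p
import Pool.Agent.Lib.MP_12adaf_ntE6.E04a
import Pool.Agent.Lib.MP_12adaf_ntE6.E04b
import Pool.Agent.Lib.MP_12adaf_ntE6.E05d
import Pool.Agent.Lib.MP_12adaf_ntE6.E06a
import Pool.Agent.Lib.MP_12adaf_ntE6.E06b
import Pool.Agent.Lib.MP_12adaf_ntE6.E07b

/-!
# `E₆`: the field theorem (one block)
-/

namespace Pool.Agent.Lib.MP_12adaf_nt.E6

set_option linter.unusedSectionVars false

open Finset

/-- A generic point has an adapted dual point. -/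
theorem exists_adapted {Ω : Type*} [Field Ω] [CharZero Ω] [IsAlgClosed Ω] {ζ : Fin 6 → Ω}
    (hζ : AlgebraicIndependent ℚ ζ) (hζ' : LinearIndependent ℚ ζ) :
    ∃ (η : Fin 4 → Ω) (β : Fin 2 → Ω) (v : W → Ω) (E : Eig (lf ζ) (pη η) v) (w0 : W),
      E.X = Xβ β ∧ (∀ a, pη η (w0 • a) = - pη η a) ∧ eZ w0 = 1 := by
  classical
  have hx : IsV (lf ζ) := ⟨ζ, rfl⟩
  have h0 : ∀ i, rt i (lf ζ) ≠ 0 := rt_lf_ne_zero hζ'
  obtain ⟨p, v, hp, hv, hT, hpow⟩ := exists_eigen hx h0
  have h25 := card_image_of_hankel (hankel_ne_zero hζ) hpow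
  have htriv : ∀ w : W, (∀ a, p (w • a) = p a) → w = 1 := fun w hw => eq_one_of_fix h25 w hw
  have E0 : Eig (lf ζ) p v := ⟨hx, h0, hp, hv, hT, htriv⟩
  obtain ⟨w0, hw0, _, _⟩ := E0.exists_w0
  obtain ⟨w, h24, h25', _⟩ := exists_line hp (rt_ne_of_triv hp htriv) htriv hw0
  have e1 : tr p w⁻¹ = fun a => p (w • a) := by
    funext a
    rw [tr_apply, inv_inv]
  have hp1 : IsV (tr p w⁻¹) := hp.tr _
  obtain ⟨η, hη⟩ := exists_eta hp1 (by rw [e1]; exact h24) (by rw [e1]; exact h25')
  have E1 : Eig (lf ζ) (pη η) (Lt w⁻¹ v) := by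
    rw [← hη]
    refine ⟨hx, h0, hp1, E0.Lt_ne _, fun a => E0.T_Lt_v _ a, fun u hu => ?_⟩
    have h1 : w * u * w⁻¹ = 1 := by
      apply htriv
      intro a
      have h2 := hu (w⁻¹ • a)
      rw [tr_apply, tr_apply, inv_inv, smul_inv_smul] at h2
      rw [mul_smul, mul_smul]
      exact h2
    have h3 : u = w⁻¹ * (w * u * w⁻¹) * w := by group
    rw [h3, h1]
    group
  obtain ⟨w1, h1, h2, _⟩ := E1.exists_w0
  obtain ⟨⟨β, hβ⟩, _, h3⟩ := exists_beta E1.htriv h1 E1.isV_X h2
  exact ⟨η, β, _, E1, w1, hβ, h1, h3⟩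

section fields

lemma isAlgebraic_mono {Ω : Type*} [Field Ω] {A B : Subfield Ω} (h : A ≤ B) {z : Ω}
    (hz : IsAlgebraic A z) : IsAlgebraic B z := by
  let := (Subfield.inclusion h).toAlgebra
  have : IsScalarTower A B Ω := IsScalarTower.of_algebraMap_eq fun _ => rfl
  exact hz.tower_top B

/-- The relative algebraic closure is algebraically closed in the big field. -/
lemma mem_ac {F Ω : Type*} [Field F] [Field Ω] [Algebra F Ω] (z : Ω)
    (hz : IsAlgebraic (algebraicClosure F Ω).toSubfield z) : z ∈ algebraicClosure F Ω := by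
  rw [mem_algebraicClosure_iff]
  have h1 : IsIntegral (algebraicClosure F Ω) z :=
    (show IsAlgebraic (algebraicClosure F Ω) z from hz).isIntegral
  exact (isIntegral_trans z h1).isAlgebraic

variable {k Ω : Type*} [Field k] [Field Ω] [Algebra k Ω]

/-- Everything is algebraic over a field over which the `ζ j` are algebraic. -/
lemma isAlgebraic_of_zeta {ζ : Fin 6 → Ω}
    (halg : Algebra.IsAlgebraic (IntermediateField.adjoin k (Set.range ζ)) Ω)
    (F : IntermediateField k Ω) (h : ∀ j, ζ j ∈ algebraicClosure F Ω) :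
    Algebra.IsAlgebraic F Ω := by
  constructor
  intro z
  rw [← mem_algebraicClosure_iff]
  apply mem_ac
  have h1 : (IntermediateField.adjoin k (Set.range ζ)).toSubfield ≤
      (algebraicClosure F Ω).toSubfield := by
    have h2 : IntermediateField.adjoin k (Set.range ζ) ≤
        (algebraicClosure F Ω).restrictScalars k := by
      rw [IntermediateField.adjoin_le_iff]
      rintro _ ⟨j, rfl⟩
      exact h j
    exact h2
  exact isAlgebraic_mono h1 (halg.isAlgebraic z)

open scoped IntermediateField.algebraAdjoinAdjoin in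
lemma algInd_of_alg {ζ y : Fin 6 → Ω} (hζ : AlgebraicIndependent k ζ)
    (halg : Algebra.IsAlgebraic (IntermediateField.adjoin k (Set.range ζ)) Ω)
    (halg' : Algebra.IsAlgebraic (IntermediateField.adjoin k (Set.range y)) Ω) :
    AlgebraicIndependent k y := by
  have h1 : Algebra.IsAlgebraic (Algebra.adjoin k (Set.range ζ)) Ω :=
    Algebra.IsAlgebraic.trans _ (IntermediateField.adjoin k (Set.range ζ)) _
  have h2 : Algebra.IsAlgebraic (Algebra.adjoin k (Set.range y)) Ω :=
    Algebra.IsAlgebraic.trans _ (IntermediateField.adjoin k (Set.range y)) _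
  have h3 : IsTranscendenceBasis k ζ := by
    rw [isTranscendenceBasis_iff_algebraicIndependent_isAlgebraic]
    exact ⟨hζ, h1⟩
  exact (Algebra.IsAlgebraic.isTranscendenceBasis_of_lift_le_trdeg_of_finite k y
    h3.lift_cardinalMk_eq_trdeg.le).1

/-- The fixed field. -/
lemma mem_of_fixed [CharZero Ω] [IsAlgClosed Ω] (F : IntermediateField k Ω)
    (halg : Algebra.IsAlgebraic F Ω) (z : Ω) (h : ∀ σ : Gal(Ω/F), σ z = z) : z ∈ F := by
  have : CharZero F := (algebraMap F Ω).charZero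
  have : IsAlgClosure F Ω := ⟨inferInstance, inferInstance⟩
  have : Normal F Ω := IsAlgClosure.normal F Ω
  have : IsGalois F Ω := ⟨⟩
  have h1 := (InfiniteGalois.mem_bot_iff_fixed (k := F) z).mpr h
  obtain ⟨y, hy⟩ := IntermediateField.mem_bot.mp h1
  rw [← hy]
  exact y.2

end fields

/-- The first invariant does not vanish at a generic point. -/
lemma II_ne_zero {k Ω : Type*} [Field k] [Field Ω] [Algebra k Ω] [CharZero Ω] {η : Fin 4 → Ω}
    (hη : AlgebraicIndependent k η) : II (pη η) ≠ 0 := by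
  let y : Fin 4 → MvPolynomial (Fin 4) k := fun i => MvPolynomial.X i
  let S1 : MvPolynomial (Fin 4) k := y 0 ^ 2 + y 1 ^ 2 + y 2 ^ 2 + y 3 ^ 2
  let S2 : MvPolynomial (Fin 4) k := y 0 ^ 2 * y 1 ^ 2 + y 0 ^ 2 * y 2 ^ 2 + y 0 ^ 2 * y 3 ^ 2 +
    y 1 ^ 2 * y 2 ^ 2 + y 1 ^ 2 * y 3 ^ 2 + y 2 ^ 2 * y 3 ^ 2
  let Q : MvPolynomial (Fin 4) k := (S1 ^ 2 - 4 * S2) ^ 2 + 192 * (y 0 * y 1 * y 2 * y 3) ^ 2
  have h1 : MvPolynomial.aeval η Q = II (pη η) := by
    rw [II_pη]
    simp only [Q, S1, S2, y, map_add, map_sub, map_mul, map_pow, map_ofNat, MvPolynomial.aeval_X,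
      Aη, πη, s1, s2]
  have h2 : Q ≠ 0 := by
    intro h
    have h3 := congrArg (MvPolynomial.eval fun i : Fin 4 => if i = 0 then (1 : k) else 0) h
    simp [Q, S1, S2, y] at h3
  rw [← h1]
  intro h
  apply h2
  have hinj : Function.Injective (MvPolynomial.aeval η : MvPolynomial (Fin 4) k →ₐ[k] Ω) := hη
  exact hinj (h.trans (map_zero _).symm)

lemma pη_mem {Ω : Type*} [Field Ω] (S : Subfield Ω) {η : Fin 4 → Ω} (h : ∀ i, η i ∈ S)
    (a : Fin 27) : pη η a ∈ S := by
  rw [pη, lf]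
  refine sum_mem fun j _ => mul_mem (intCast_mem S _) ?_
  fin_cases j
  · exact h 0
  · exact h 1
  · exact h 2
  · exact h 3
  · exact zero_mem S
  · exact zero_mem S

lemma Xβ_mem {Ω : Type*} [Field Ω] (S : Subfield Ω) {β : Fin 2 → Ω} (h : ∀ i, β i ∈ S)
    (a : Fin 27) : Xβ β a ∈ S := by
  rw [Xβ, lf]
  refine sum_mem fun j _ => mul_mem (intCast_mem S _) ?_
  fin_cases j
  · exact zero_mem S
  · exact zero_mem S
  · exact zero_mem S
  · exact zero_mem S
  · exact h 0
  · exact h 1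

/-- **The field theorem over an algebraically closed field.** -/
theorem core_field {k Ω : Type*} [Field k] [CharZero k] [Field Ω] [Algebra k Ω] [IsAlgClosed Ω]
    {ζ : Fin 6 → Ω} (hζ : AlgebraicIndependent k ζ)
    (halg : Algebra.IsAlgebraic (IntermediateField.adjoin k (Set.range ζ)) Ω)
    {e : Ω} (he : e ≠ 0) (he2 : ∃ d : k, e ^ 2 = algebraMap k Ω d) :
    ∃ t : Fin 6 → Ω,
      (∀ i, t i ∈ IntermediateField.adjoin k
        (Set.range (fun j : ℕ => PS j (lf ζ)) ∪ {DD (lf ζ) / e})) ∧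
      (∀ j, PS j (lf ζ) ∈ IntermediateField.adjoin k (Set.range t)) ∧
      DD (lf ζ) / e ∈ IntermediateField.adjoin k (Set.range t) := by
  classical
  have : CharZero Ω := charZero_of_injective_algebraMap (algebraMap k Ω).injective
  have : IsScalarTower ℚ k Ω := IsScalarTower.of_algebraMap_eq fun r => by simp
  have hζQ : AlgebraicIndependent ℚ ζ := hζ.restrictScalars (algebraMap ℚ k).injective
  have hζL : LinearIndependent ℚ ζ := hζQ.linearIndependent
  obtain ⟨η, β, v, E, w0, hX, hw0, hev⟩ := exists_adapted hζQ hζL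
  have hx : IsV (lf ζ) := ⟨ζ, rfl⟩
  have hp : IsV (pη η) := E.hp
  have h0 : ∀ i, rt i (lf ζ) ≠ 0 := rt_lf_ne_zero hζL
  have hp0 : ∀ i, rt i (pη η) ≠ 0 := rt_ne_of_triv hp E.htriv
  have hDD : DD (lf ζ) ≠ 0 := by
    rw [DD, prod_ne_zero_iff]
    exact fun i _ => h0 i
  obtain ⟨-, hEE⟩ := EE_sq hp0
  obtain ⟨d, hd⟩ := he2
  -- `η`, `β` are algebraically independent
  have hII : II (pη η) ≠ 0 := by
    let y : Fin 6 → Ω := ![η 0, η 1, η 2, η 3, β 0, β 1]
    let L := IntermediateField.adjoin k (Set.range y)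
    have hηL : ∀ i, η i ∈ L := by
      intro i
      apply IntermediateField.subset_adjoin k
      fin_cases i
      · exact ⟨0, rfl⟩
      · exact ⟨1, rfl⟩
      · exact ⟨2, rfl⟩
      · exact ⟨3, rfl⟩
    have hβL : ∀ i, β i ∈ L := by
      intro i
      apply IntermediateField.subset_adjoin k
      fin_cases i
      · exact ⟨4, rfl⟩
      · exact ⟨5, rfl⟩
    have h1 : ∀ j, PS j (lf ζ) ∈ L.toSubfield := fun j =>
      E.PS_mem L.toSubfield (pη_mem L.toSubfield hηL)
        (by rw [hX]; exact Xβ_mem L.toSubfield hβL) j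
    have h2 : Algebra.IsAlgebraic L Ω := by
      apply isAlgebraic_of_zeta halg
      have h3 : ∀ a, lf ζ a ∈ (algebraicClosure L Ω).toSubfield := by
        intro a
        have h4 : IsAlgebraic L (lf ζ a) := isAlgebraic_of_PS L.toSubfield h1 a
        exact mem_algebraicClosure_iff.mpr h4
      exact fun j => mem_of_lf _ h3 j
    have h3 : AlgebraicIndependent k y := algInd_of_alg hζ halg h2
    have h4 : AlgebraicIndependent k η := by
      have h5 := h3.comp (Fin.castLE (by norm_num : 4 ≤ 6)) (Fin.castLE_injective _)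
      have h6 : y ∘ Fin.castLE (by norm_num : 4 ≤ 6) = η := by
        funext i
        fin_cases i <;> rfl
      rw [h6] at h5
      exact h5
    exact II_ne_zero h4
  -- the Galois action
  have hgal : ∀ (σ : Ω ≃+* Ω), (∀ j, σ (PS j (lf ζ)) = PS j (lf ζ)) →
      ∃ u w : W, (∀ a, σ (lf ζ a) = lf ζ (u • a)) ∧ (∀ a, σ (pη η a) = pη η (w • a)) ∧
        (∀ a, σ (Xβ β a) = Xβ β (w • a)) ∧ eZ w = eZ u := by
    intro σ hσ
    obtain ⟨u, hu⟩ := exists_W_of_PS hζL (σ : Ω →+* Ω) hσ
    obtain ⟨w, h1, h2, h3⟩ := E.galois (σ := σ) hw0 hev hu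
    rw [hX] at h2
    exact ⟨u, w, hu, h1, h2, h3⟩
  have heZ : ∀ w : W, (eZ w : Ω) ≠ 0 := by
    intro w h
    have := eZ_sq' (Ω := Ω) w
    rw [h] at this
    norm_num at this
  let t := tt (pη η) (Xβ β) e
  refine ⟨t, ?_, ?_⟩
  · -- the parameters are in the field
    intro i
    set F' := IntermediateField.adjoin k
        (Set.range (fun j : ℕ => PS j (lf ζ)) ∪ {DD (lf ζ) / e}) with hF'
    have hPS : ∀ j, PS j (lf ζ) ∈ F' := fun j =>
      IntermediateField.subset_adjoin k _ (Or.inl ⟨j, rfl⟩)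
    have hDe : DD (lf ζ) / e ∈ F' := IntermediateField.subset_adjoin k _ (Or.inr rfl)
    have halgF : Algebra.IsAlgebraic F' Ω := by
      apply isAlgebraic_of_zeta halg
      have h3 : ∀ a, lf ζ a ∈ (algebraicClosure F' Ω).toSubfield := by
        intro a
        have h4 : IsAlgebraic F' (lf ζ a) := isAlgebraic_of_PS F'.toSubfield hPS a
        exact mem_algebraicClosure_iff.mpr h4
      exact fun j => mem_of_lf _ h3 j
    apply mem_of_fixed F' halgF
    intro σ
    have hσ : ∀ z ∈ F', σ z = z := fun z hz => σ.commutes ⟨z, hz⟩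
    obtain ⟨u, w, h1, h2, h3, h4⟩ := hgal (σ : Ω ≃+* Ω) fun j => hσ _ (hPS j)
    have h5 : σ (DD (lf ζ)) = (eZ u : Ω) * DD (lf ζ) := by
      rw [← DD_comp hx]
      have := map_DD (σ : Ω ≃+* Ω) (lf ζ)
      rw [show (fun a => (σ : Ω ≃+* Ω) (lf ζ a)) = fun a => lf ζ (u • a) from funext h1] at this
      exact this
    have h6 : σ e = (eZ w : Ω) * e := by
      have h7 := hσ _ hDe
      rw [map_div₀, h5, ← h4] at h7
      have h8 : σ e ≠ 0 := by rwa [map_ne_zero_iff σ σ.injective]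
      rw [div_eq_div_iff h8 he] at h7
      have h9 : ((eZ w : Ω) * e - σ e) * DD (lf ζ) = 0 := by linear_combination h7
      exact (sub_eq_zero.mp ((mul_eq_zero.mp h9).resolve_right hDD)).symm
    have h7 := map_tt (σ : Ω ≃+* Ω) (pη η) (Xβ β) e i
    rw [show (fun a => (σ : Ω ≃+* Ω) (pη η a)) = fun a => pη η (w • a) from funext h2,
      show (fun a => (σ : Ω ≃+* Ω) (Xβ β a)) = fun a => Xβ β (w • a) from funext h3,
      show (σ : Ω ≃+* Ω) e = (eZ w : Ω) * e from h6, tt_comp hp] at h7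
    exact h7
  · -- the field is generated by the parameters
    set F1 := IntermediateField.adjoin k (Set.range t) with hF1
    have ht : ∀ i, t i ∈ F1 := fun i => IntermediateField.subset_adjoin k _ ⟨i, rfl⟩
    have halgF : Algebra.IsAlgebraic F1 Ω := by
      apply isAlgebraic_of_zeta halg
      have hS : ∀ z : Ω, IsAlgebraic (algebraicClosure F1 Ω).toSubfield z →
          z ∈ (algebraicClosure F1 Ω).toSubfield := fun z hz => mem_ac z hz
      have hk : ∀ z ∈ F1, z ∈ (algebraicClosure F1 Ω).toSubfield := fun z hz =>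
        (algebraicClosure F1 Ω).algebraMap_mem ⟨z, hz⟩
      have heS : e ∈ (algebraicClosure F1 Ω).toSubfield := by
        apply hS
        refine ⟨Polynomial.X ^ 2 - Polynomial.C ⟨algebraMap k Ω d,
          hk _ (F1.algebraMap_mem d)⟩, ?_, ?_⟩
        · exact Polynomial.X_pow_sub_C_ne_zero two_pos _
        · rw [map_sub, map_pow, Polynomial.aeval_X, Polynomial.aeval_C, hd]
          exact sub_self _
      obtain ⟨h1, h2⟩ := core_alg hp0 hII he _ hS heS fun i => hk _ (ht i)
      have h3 : ∀ j, PS j (lf ζ) ∈ (algebraicClosure F1 Ω).toSubfield := fun j =>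
        E.PS_mem _ (pη_mem _ h1) (by rw [hX]; exact Xβ_mem _ h2) j
      have h4 : ∀ a, lf ζ a ∈ (algebraicClosure F1 Ω).toSubfield := fun a =>
        hS _ (isAlgebraic_of_PS _ h3 a)
      exact fun j => mem_of_lf _ h4 j
    -- automorphisms over `F1`
    have hkey : ∀ σ : Gal(Ω/F1), (∀ j, σ (PS j (lf ζ)) = PS j (lf ζ)) ∧
        σ (DD (lf ζ) / e) = DD (lf ζ) / e := by
      intro σ
      have hσ : ∀ z ∈ F1, σ z = z := fun z hz => σ.commutes ⟨z, hz⟩
      have he2' : σ e = e ∨ σ e = -e := by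
        have h1 : σ e ^ 2 = e ^ 2 := by
          rw [← map_pow, hd]
          exact hσ _ (F1.algebraMap_mem d)
        exact sq_eq_sq_iff_eq_or_eq_neg.mp h1
      obtain ⟨w, h1, h2⟩ := core hp0 hII he (σ : Ω ≃+* Ω) he2' fun i => hσ _ (ht i)
      have h3 : ∀ j, σ (PS j (lf ζ)) = PS j (lf ζ) := fun j =>
        E.map_PS_eq (σ := (σ : Ω ≃+* Ω)) h1 (by rw [hX]; exact h2) j
      refine ⟨h3, ?_⟩
      obtain ⟨u, w', h4, h5, _, h6⟩ := hgal (σ : Ω ≃+* Ω) h3
      have h7 : w' = w := by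
        have h8 : w' * w⁻¹ = 1 := by
          apply E.htriv
          intro a
          have h9 := h5 (w⁻¹ • a)
          rw [h1, smul_inv_smul] at h9
          rw [mul_smul, ← h9]
        exact mul_inv_eq_one.mp h8
      have h8 : σ (DD (lf ζ)) = (eZ w : Ω) * DD (lf ζ) := by
        rw [← h7, h6, ← DD_comp hx]
        have := map_DD (σ : Ω ≃+* Ω) (lf ζ)
        rw [show (fun a => (σ : Ω ≃+* Ω) (lf ζ a)) = fun a => lf ζ (u • a) from funext h4] at this
        exact this
      -- the action on `e`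
      have h9 : σ e = (eZ w : Ω) * e := by
        have h10 := map_tt (σ : Ω ≃+* Ω) (pη η) (Xβ β) e 4
        rw [show (fun a => (σ : Ω ≃+* Ω) (pη η a)) = fun a => pη η (w • a) from funext h1,
          show (fun a => (σ : Ω ≃+* Ω) (Xβ β a)) = fun a => Xβ β (w • a) from funext h2,
          show (σ : Ω ≃+* Ω) e = (eZ w : Ω) * ((eZ w : Ω) * σ e) by
            rw [← mul_assoc, eZ_sq', one_mul]; rfl, tt_comp hp] at h10
        have h11 : EE (pη η) / (e * II (pη η)) = EE (pη η) / ((eZ w : Ω) * σ e * II (pη η)) :=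
          (hσ _ (ht 4)).symm.trans h10
        have h12 : σ e ≠ 0 := by rwa [map_ne_zero_iff σ σ.injective]
        rw [div_eq_div_iff (mul_ne_zero he hII)
          (mul_ne_zero (mul_ne_zero (heZ w) h12) hII)] at h11
        have h13 : (eZ w : Ω) * σ e = e := by
          have h14 := mul_left_cancel₀ hEE h11
          exact mul_right_cancel₀ hII h14
        calc σ e = (eZ w : Ω) * (eZ w : Ω) * σ e := by rw [eZ_sq', one_mul]
          _ = (eZ w : Ω) * e := by rw [mul_assoc, h13]
      rw [map_div₀, h8, h9, mul_div_mul_left _ _ (heZ w)]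
    exact ⟨fun j => mem_of_fixed F1 halgF _ fun σ => (hkey σ).1 j,
      mem_of_fixed F1 halgF _ fun σ => (hkey σ).2⟩

section transport

variable {k A B : Type*} [Field k] [Field A] [Field B] [Algebra k A] [Algebra k B]
  (φ : A →ₐ[k] B)

lemma lf_algHom (ζ : Fin 6 → A) (a : Fin 27) : φ (lf ζ a) = lf (fun j => φ (ζ j)) a := by
  simp only [lf, map_sum, map_mul, map_intCast]

lemma PS_algHom (j : ℕ) (ζ : Fin 6 → A) :
    φ (PS j (lf ζ)) = PS j (lf fun j => φ (ζ j)) := by
  simp only [PS, map_sum, map_pow, lf_algHom]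

lemma DD_algHom (ζ : Fin 6 → A) : φ (DD (lf ζ)) = DD (lf fun j => φ (ζ j)) := by
  simp only [DD, rt, map_prod, map_sub, lf_algHom]

/-- The conclusion of the field theorem. -/
def Concl (k : Type*) {A : Type*} [Field k] [Field A] [Algebra k A] (ζ : Fin 6 → A) (e : A) :
    Prop :=
  ∃ t : Fin 6 → A,
      (∀ i, t i ∈ IntermediateField.adjoin k
        (Set.range (fun j : ℕ => PS j (lf ζ)) ∪ {DD (lf ζ) / e})) ∧
      (∀ j, PS j (lf ζ) ∈ IntermediateField.adjoin k (Set.range t)) ∧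
      DD (lf ζ) / e ∈ IntermediateField.adjoin k (Set.range t)

lemma image_gen (ζ : Fin 6 → A) (e : A) :
    φ '' (Set.range (fun j : ℕ => PS j (lf ζ)) ∪ {DD (lf ζ) / e}) =
      Set.range (fun j : ℕ => PS j (lf fun j => φ (ζ j))) ∪
        {DD (lf fun j => φ (ζ j)) / φ e} := by
  rw [Set.image_union, Set.image_singleton, map_div₀, DD_algHom, ← Set.range_comp]
  congr 2
  funext j
  exact PS_algHom φ j ζ

lemma concl_of_map (ζ : Fin 6 → A) (e : A) (h : Concl k (fun j => φ (ζ j)) (φ e)) :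
    Concl k ζ e := by
  obtain ⟨t, h1, h2, h3⟩ := h
  rw [← image_gen, ← IntermediateField.adjoin_map] at h1
  have h4 : ∀ i, ∃ s ∈ IntermediateField.adjoin k
      (Set.range (fun j : ℕ => PS j (lf ζ)) ∪ {DD (lf ζ) / e}), φ s = t i := fun i => h1 i
  choose s hs hst using h4
  have h5 : Set.range t = φ '' Set.range s := by
    rw [← Set.range_comp]
    congr 1
    funext i
    exact (hst i).symm
  rw [h5, ← IntermediateField.adjoin_map] at h3
  simp_rw [h5, ← IntermediateField.adjoin_map] at h2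
  refine ⟨s, hs, fun j => ?_, ?_⟩
  · obtain ⟨y, hy, hy2⟩ := h2 j
    rw [← PS_algHom] at hy2
    have : y = PS j (lf ζ) := φ.injective hy2
    rw [← this]
    exact hy
  · obtain ⟨y, hy, hy2⟩ := h3
    have h6 : φ y = φ (DD (lf ζ) / e) := by
      rw [map_div₀, DD_algHom]
      exact hy2
    have : y = DD (lf ζ) / e := φ.injective h6
    rw [← this]
    exact hy

lemma concl_map (ζ : Fin 6 → A) (e : A) (h : Concl k ζ e) :
    Concl k (fun j => φ (ζ j)) (φ e) := by
  obtain ⟨t, h1, h2, h3⟩ := h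
  have h5 : Set.range (fun i => φ (t i)) = φ '' Set.range t := by
    rw [← Set.range_comp]
    rfl
  refine ⟨fun i => φ (t i), fun i => ?_, fun j => ?_, ?_⟩
  · rw [← image_gen, ← IntermediateField.adjoin_map]
    exact ⟨t i, h1 i, rfl⟩
  · rw [h5, ← IntermediateField.adjoin_map, ← PS_algHom]
    exact ⟨_, h2 j, rfl⟩
  · rw [h5, ← IntermediateField.adjoin_map, ← DD_algHom, ← map_div₀]
    exact ⟨_, h3, rfl⟩

end transport

/-- **The field theorem.** -/
theorem field_thm {k E : Type*} [Field k] [CharZero k] [Field E] [Algebra k E] {ζ : Fin 6 → E}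
    (hζ : AlgebraicIndependent k ζ) {e : E} (he : e ≠ 0)
    (he2 : ∃ d : k, e ^ 2 = algebraMap k E d) :
    ∃ t : Fin 6 → E,
      (∀ i, t i ∈ IntermediateField.adjoin k
        (Set.range (fun j : ℕ => PS j (lf ζ)) ∪ {DD (lf ζ) / e})) ∧
      (∀ j, PS j (lf ζ) ∈ IntermediateField.adjoin k (Set.range t)) ∧
      DD (lf ζ) / e ∈ IntermediateField.adjoin k (Set.range t) := by
  obtain ⟨d, hd⟩ := he2
  let E' := IntermediateField.adjoin k (Set.range ζ ∪ {e})
  have hζE : ∀ j, ζ j ∈ E' := fun j => IntermediateField.subset_adjoin k _ (Or.inl ⟨j, rfl⟩)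
  have heE : e ∈ E' := IntermediateField.subset_adjoin k _ (Or.inr rfl)
  let ζ' : Fin 6 → E' := fun j => ⟨ζ j, hζE j⟩
  let e' : E' := ⟨e, heE⟩
  let Ω := AlgebraicClosure E'
  let φ : E' →ₐ[k] Ω := IsScalarTower.toAlgHom k E' Ω
  have hζ' : AlgebraicIndependent k ζ' := AlgebraicIndependent.of_comp E'.val hζ
  have hζΩ : AlgebraicIndependent k fun j => φ (ζ' j) :=
    hζ'.map' (f := φ) φ.injective
  have he2' : (φ e') ^ 2 = algebraMap k Ω d := by
    rw [← map_pow]
    have h1 : e' ^ 2 = algebraMap k E' d := Subtype.ext hd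
    rw [h1, AlgHom.commutes]
  have halg : Algebra.IsAlgebraic
      (IntermediateField.adjoin k (Set.range fun j => φ (ζ' j))) Ω := by
    set F := IntermediateField.adjoin k (Set.range fun j => φ (ζ' j)) with hF
    set S := (algebraicClosure F Ω).toSubfield with hSdef
    have hS : ∀ z : Ω, IsAlgebraic S z → z ∈ S := fun z hz => mem_ac z hz
    have hk : ∀ z ∈ F, z ∈ S := fun z hz => (algebraicClosure F Ω).algebraMap_mem ⟨z, hz⟩
    have heS : φ e' ∈ S := by
      apply hS
      refine ⟨Polynomial.X ^ 2 - Polynomial.C ⟨algebraMap k Ω d,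
        hk _ (F.algebraMap_mem d)⟩, ?_, ?_⟩
      · exact Polynomial.X_pow_sub_C_ne_zero two_pos _
      · rw [map_sub, map_pow, Polynomial.aeval_X, Polynomial.aeval_C, he2']
        exact sub_self _
    have hE'S : ∀ y : E', φ y ∈ S := by
      rintro ⟨y, hy⟩
      induction hy using IntermediateField.adjoin_induction with
      | mem y hy =>
        rcases hy with ⟨j, rfl⟩ | hy
        · exact hk _ (IntermediateField.subset_adjoin k _ ⟨j, rfl⟩)
        · have h1 : y = e := hy
          subst h1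
          exact heS
      | algebraMap a =>
        have h1 : (⟨algebraMap k E a, E'.algebraMap_mem a⟩ : E') = algebraMap k E' a := rfl
        rw [h1, AlgHom.commutes]
        exact hk _ (F.algebraMap_mem a)
      | add a b ha hb iha ihb =>
        have h1 : (⟨a + b, add_mem ha hb⟩ : E') = ⟨a, ha⟩ + ⟨b, hb⟩ := rfl
        rw [h1, map_add]
        exact add_mem iha ihb
      | inv a ha iha =>
        have h1 : (⟨a⁻¹, inv_mem ha⟩ : E') = (⟨a, ha⟩)⁻¹ := rfl
        rw [h1, map_inv₀]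
        exact inv_mem iha
      | mul a b ha hb iha ihb =>
        have h1 : (⟨a * b, mul_mem ha hb⟩ : E') = ⟨a, ha⟩ * ⟨b, hb⟩ := rfl
        rw [h1, map_mul]
        exact mul_mem iha ihb
    constructor
    intro z
    rw [← mem_algebraicClosure_iff]
    apply hS
    let g : E' →+* S := (φ : E' →+* Ω).codRestrict S hE'S
    let := g.toAlgebra
    have : IsScalarTower E' S Ω := IsScalarTower.of_algebraMap_eq fun _ => rfl
    have hz : IsAlgebraic E' z := Algebra.IsAlgebraic.isAlgebraic z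
    exact hz.tower_top S
  have h1 : Concl k (fun j => φ (ζ' j)) (φ e') :=
    core_field hζΩ halg ((map_ne_zero_iff φ φ.injective).mpr fun h =>
      he (congrArg Subtype.val h)) ⟨d, he2'⟩
  have h2 : Concl k ζ' e' := concl_of_map φ ζ' e' h1
  exact concl_map E'.val ζ' e' h2

end Pool.Agent.Lib.MP_12adaf_nt.E6
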