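import Pool.Agent.Lib.MP_12adaf_ntE6.E02d

/-!
# `E₆`: generation by reflections, sign = determinant
-/

namespace Pool.Agent.Lib.MP_12adaf_nt.E6

open Finset

section chain

namespace Pk

/-- the checks of `sT_ix` and `sT_ix_fix` -/
noncomputable def sfC : Bool :=
  allB (fun a => allB (fun b => impB (Nat.beq (g a b) 1)
    (conB (Nat.beq (s (x a b) b) a)
      (allB (fun d => impB (Nat.beq (g d a) (g d b)) (Nat.beq (s (x a b) d) d)) 27))) 27) 27

theorem sfC_true : sfC = true := by decide +kernel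

end Pk

open Pk in
/-- A reflection which exchanges two weights. -/
theorem sT_ix : ∀ a b : Fin 27, gg a b = 1 → sT (ix a b) b = a := by
  intro a b hg
  have h := (conB_spec (impB_spec (allB_spec (allB_spec sfC_true a a.2) b b.2) (g_one hg))).1
  exact Fin.ext (by rw [s_eq, x_eq]; exact of_beq h)

open Pk in
/-- It fixes the weights which are in the same position to both. -/
theorem sT_ix_fix : ∀ a b c : Fin 27, gg a b = 1 → gg c a = gg c b → sT (ix a b) c = c := by
  intro a b d hg hd
  have h := allB_spec (conB_spec (impB_spec (allB_spec (allB_spec sfC_true a a.2) b b.2)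
    (g_one hg))).2 d d.2
  rw [g_eq, g_eq] at hd
  have hd' : g d a = g d b := by exact_mod_cast hd
  exact Fin.ext (by rw [s_eq, x_eq]; exact of_beq (impB_spec h (beq_of hd')))

/-- Six weights which span. -/
def cL : List ℕ := [0, 1, 2, 4, 5, 8]

/-- The inverse of the matrix of the six weights, times two. -/
def cI : List (List ℤ) := [
  [1, 0, -1, 0, 0, 0],
  [1, -1, 0, 0, 0, 0],
  [0, -1, -1, 1, 1, 0],
  [0, 0, 0, 1, -1, 0],
  [0, 1, 1, 0, 0, 0],
  [-1, 1, 2, -1, -1, 2]]

def ca (k : Fin 6) : Fin 27 := Fin.ofNat 27 (cL.getD k 0)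

def ci (i k : Fin 6) : ℤ := (cI.getD i []).getD k 0

theorem ci_ca : ∀ i j : Fin 6, ∑ k, ci i k * wt (ca k) j = if i = j then 2 else 0 := by
  decide +kernel

theorem chain_dec : ∀ (k : Fin 6) (b : Fin 27),
    (∀ j : Fin 6, j < k → gg (ca j) b = gg (ca j) (ca k)) →
      b = ca k ∨ gg (ca k) b = 1 ∨ ∃ c, gg (ca k) c = 1 ∧ gg c b = 1 ∧
        ∀ j : Fin 6, j < k → gg (ca j) c = gg (ca j) (ca k) := by
  decide +kernel

lemma sW_mem (i : Fin 36) : sW i ∈ Subgroup.closure (Set.range sW) :=
  Subgroup.subset_closure ⟨i, rfl⟩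

/-- One correction step. -/
lemma chain_step (k : Fin 6) (b : Fin 27)
    (h : ∀ j : Fin 6, j < k → gg (ca j) b = gg (ca j) (ca k)) :
    ∃ u ∈ Subgroup.closure (Set.range sW), u • b = ca k ∧ ∀ j : Fin 6, j < k → u • ca j = ca j := by
  rcases chain_dec k b h with rfl | h1 | ⟨c, h1, h2, h3⟩
  · exact ⟨1, one_mem _, one_smul _ _, fun j _ => one_smul _ _⟩
  · refine ⟨sW (ix (ca k) b), sW_mem _, ?_, fun j hj => ?_⟩
    · rw [sW_smul, sT_ix _ _ h1]
    · rw [sW_smul, sT_ix_fix _ _ _ h1 (h j hj).symm]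
  · refine ⟨sW (ix (ca k) c) * sW (ix c b), mul_mem (sW_mem _) (sW_mem _), ?_, fun j hj => ?_⟩
    · rw [mul_smul, sW_smul, sW_smul, sT_ix _ _ h2, sT_ix _ _ h1]
    · rw [mul_smul, sW_smul, sW_smul, sT_ix_fix _ _ _ h2 ((h3 j hj).trans (h j hj).symm),
        sT_ix_fix _ _ _ h1 (h3 j hj).symm]

/-- Correction of an element, step by step. -/
lemma chain_all (w : W) (n : ℕ) (hn : n ≤ 6) : ∃ u ∈ Subgroup.closure (Set.range sW),
    ∀ j : Fin 6, (j : ℕ) < n → (u * w) • ca j = ca j := by
  induction n with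
  | zero => exact ⟨1, one_mem _, fun j hj => absurd hj (Nat.not_lt_zero _)⟩
  | succ n ih =>
    obtain ⟨u, hu, hfix⟩ := ih (by omega)
    have key : ∀ j : Fin 6, j < ⟨n, by omega⟩ →
        gg (ca j) ((u * w) • ca ⟨n, by omega⟩) = gg (ca j) (ca ⟨n, by omega⟩) := by
      intro j hj
      have h1 := gg_smul (u * w) (ca j) (ca ⟨n, by omega⟩)
      rwa [hfix j hj] at h1
    obtain ⟨v, hv, hv1, hv2⟩ := chain_step ⟨n, by omega⟩ _ key
    refine ⟨v * u, mul_mem hv hu, fun j hj => ?_⟩
    rw [mul_assoc, mul_smul]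
    rcases Nat.lt_succ_iff_lt_or_eq.mp hj with h | h
    · rw [hfix j h]
      exact hv2 j h
    · have h2 : j = ⟨n, by omega⟩ := Fin.ext h
      rw [h2]
      exact hv1

/-- A matrix is determined by the images of the six weights. -/
lemma mat_unique (A B : Matrix (Fin 6) (Fin 6) ℚ)
    (h : ∀ k j, ∑ l, (wt (ca k) l : ℚ) * A l j = ∑ l, (wt (ca k) l : ℚ) * B l j) : A = B := by
  have key : ∀ (A : Matrix (Fin 6) (Fin 6) ℚ) (i j : Fin 6),
      ∑ k, (ci i k : ℚ) * ∑ l, (wt (ca k) l : ℚ) * A l j = 2 * A i j := by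
    intro A i j
    simp_rw [mul_sum]
    rw [sum_comm]
    have h1 : ∀ l, ∑ k, (ci i k : ℚ) * ((wt (ca k) l : ℚ) * A l j) =
        (if i = l then 2 else 0) * A l j := by
      intro l
      have h2 : ((∑ k, ci i k * wt (ca k) l : ℤ) : ℚ) = if i = l then 2 else 0 := by
        rw [ci_ca]
        split_ifs <;> norm_num
      rw [← h2]
      push_cast
      rw [sum_mul]
      exact sum_congr rfl fun k _ => by ring
    simp_rw [h1]
    simp
  ext i j
  have h1 := key A i j
  simp_rw [h] at h1
  rw [key B i j] at h1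
  linarith

end chain

/-- **The Weyl group is generated by the reflections.**  Proof: stabilizer chain.  Choose weights
`a₁, …, a_m` whose vectors `wt` span (e.g. `m = 6`) and such that for each `k` and each weight `b`
with `gg a_j b = gg a_j a_k` for all `j < k` there is a product of at most two (or three)
reflections `sW i` fixing `a_1, …, a_{k-1}` and moving `b` to `a_k` (kernel-checked finite facts).
Then every `w : W` can be corrected step by step (`gg_smul`: `w` preserves `gg`) to an element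
fixing all `a_k`, which is `1` because elements of `W` are linear. -/
theorem closure_sW : Subgroup.closure (Set.range sW) = ⊤ := by
  rw [eq_top_iff]
  intro w _
  obtain ⟨u, hu, hfix⟩ := chain_all w 6 le_rfl
  have h1 : u * w = 1 := by
    obtain ⟨A, hA⟩ := exists_mat (u * w)
    have hA1 : A = 1 := by
      refine mat_unique A 1 fun k j => ?_
      rw [hA, hfix k k.isLt]
      simp [Matrix.one_apply]
    refine W_ext fun a => wt_inj _ _ fun j => ?_
    have h2 := hA a j
    rw [hA1] at h2
    have h3 : (wt a j : ℚ) = wt ((u * w) • a) j := by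
      rw [← h2]
      simp [Matrix.one_apply]
    rw [one_smul]
    exact_mod_cast h3.symm
  have h2 : w = u⁻¹ := (inv_eq_of_mul_eq_one_right h1).symm
  rw [h2]
  exact inv_mem hu

theorem kap2_rho : ∀ i : Fin 36, ∑ l, kap2 i l * rho i l = 4 := by decide +kernel

/-- The matrix of a product. -/
lemma mat_mul (u w : W) (A B : Matrix (Fin 6) (Fin 6) ℚ)
    (hA : ∀ a j, ∑ l, (wt a l : ℚ) * A l j = (wt (u • a) j : ℚ))
    (hB : ∀ a j, ∑ l, (wt a l : ℚ) * B l j = (wt (w • a) j : ℚ)) :
    ∀ a j, ∑ l, (wt a l : ℚ) * (B * A) l j = (wt ((u * w) • a) j : ℚ) := by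
  intro a j
  rw [mul_smul, ← hA]
  simp_rw [← hB, Matrix.mul_apply, mul_sum, sum_mul, mul_assoc]
  exact sum_comm

/-- The matrix of an element of `W` has determinant `eZ w`: both sides are multiplicative and both
are `-1` on reflections (the matrix of `w` is unique, it is `1 - kap2 ⊗ rho / 2` for `sW i`). -/
theorem det_eq_eZ (w : W) (A : Matrix (Fin 6) (Fin 6) ℚ)
    (hA : ∀ a j, ∑ l, (wt a l : ℚ) * A l j = (wt (w • a) j : ℚ)) : A.det = (eZ w : ℚ) := by
  have hw : w ∈ Subgroup.closure (Set.range sW) := by rw [closure_sW]; trivial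
  induction hw using Subgroup.closure_induction generalizing A with
  | mem x hx =>
    obtain ⟨i, rfl⟩ := hx
    have h1 : A = 1 + Matrix.replicateCol Unit (fun l => -(kap2 i l : ℚ) / 2) *
        Matrix.replicateRow Unit (fun j => (rho i j : ℚ)) := by
      refine mat_unique _ _ fun k j => ?_
      rw [hA]
      have h3 : (wt (sW i • ca k) j : ℚ) = wt (ca k) j - mm i (ca k) * rho i j := by
        exact_mod_cast wt_sT i (ca k) j
      have h2 : (2 : ℚ) * mm i (ca k) = ∑ l, (wt (ca k) l : ℚ) * kap2 i l := by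
        exact_mod_cast two_mm i (ca k)
      rw [h3]
      simp only [Matrix.add_apply, Matrix.mul_apply, Matrix.replicateCol_apply,
        Matrix.replicateRow_apply, Finset.univ_unique, Finset.sum_singleton, mul_add,
        sum_add_distrib, Matrix.one_apply]
      have h4 : ∑ l, (wt (ca k) l : ℚ) * (if l = j then 1 else 0) = wt (ca k) j := by simp
      rw [h4]
      have h5 : ∑ l, (wt (ca k) l : ℚ) * (-(kap2 i l : ℚ) / 2 * (rho i j : ℚ)) =
          -((∑ l, (wt (ca k) l : ℚ) * kap2 i l) / 2 * rho i j) := by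
        rw [sum_div, sum_mul, ← sum_neg_distrib]
        exact sum_congr rfl fun l _ => by ring
      rw [h5, ← h2]
      ring
    rw [h1, Matrix.det_one_add_replicateCol_mul_replicateRow, eZ_sW]
    have h2 : ((∑ l, kap2 i l * rho i l : ℤ) : ℚ) = 4 := by rw [kap2_rho]; norm_num
    push_cast at h2
    have h3 : (fun j => (rho i j : ℚ)) ⬝ᵥ (fun l => -(kap2 i l : ℚ) / 2) =
        -((∑ l, (kap2 i l : ℚ) * rho i l) / 2) := by
      rw [dotProduct, sum_div, ← sum_neg_distrib]
      exact sum_congr rfl fun l _ => by ring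
    rw [h3, h2]
    norm_num
  | one =>
    have h1 : A = 1 := by
      refine mat_unique _ _ fun k j => ?_
      rw [hA, one_smul]
      simp [Matrix.one_apply]
    rw [h1, eZ_one, Matrix.det_one]
    norm_num
  | mul x y _ _ hx hy =>
    obtain ⟨B, hB⟩ := exists_mat x
    obtain ⟨C, hC⟩ := exists_mat y
    have h1 : A = C * B := by
      refine mat_unique _ _ fun k j => ?_
      rw [hA, mat_mul x y B C hB hC]
    rw [h1, Matrix.det_mul, hx B hB, hy C hC, eZ_mul]
    push_cast
    ring
  | inv x _ hx =>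
    obtain ⟨B, hB⟩ := exists_mat x
    have h1 : A * B = 1 := by
      refine mat_unique _ _ fun k j => ?_
      rw [mat_mul x x⁻¹ B A hB hA, mul_inv_cancel, one_smul]
      simp [Matrix.one_apply]
    have h2 : A.det * B.det = 1 := by rw [← Matrix.det_mul, h1, Matrix.det_one]
    rw [hx B hB] at h2
    have h3 : (eZ x : ℚ) * eZ x = 1 := by exact_mod_cast eZ_sq x
    rw [eZ_inv]
    calc A.det = A.det * ((eZ x : ℚ) * eZ x) := by rw [h3, mul_one]
      _ = A.det * eZ x * eZ x := by ring
      _ = eZ x := by rw [h2, one_mul]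

end Pool.Agent.Lib.MP_12adaf_nt.E6
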