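import Pool.Agent.Lib.MP_12adaf_ntE6.E02p
import Pool.Agent.Lib.MP_12adaf_nt.CM.GVe

/-!
# `E₆`: the elements fixed by the product of the even Weyl groups
-/

namespace Pool.Agent.Lib.MP_12adaf_nt.E6

open Finset

section maps

variable {E Ω : Type*} [Field E] [Field Ω] (φ : E →+* Ω)

lemma map_lf_b (ζ : Fin 6 → E) (a : Fin 27) : φ (lf ζ a) = lf (fun j => φ (ζ j)) a := by
  simp only [lf, map_sum, map_mul, map_intCast]

lemma map_PS_b (z : Fin 27 → E) (j : ℕ) : φ (PS j z) = PS j (fun a => φ (z a)) := by
  simp only [PS, map_sum, map_pow]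

lemma map_DD_b (z : Fin 27 → E) : φ (DD z) = DD (fun a => φ (z a)) := by
  simp only [DD, rt, map_prod, map_sub]

end maps

/-- **The elements fixed by the even block transformations.**  The analogue of `fixed_mem_E1` in
`Pool/Agent/Lib/MP_12adaf_nt/CM/GVe.lean`: `E` is algebraic over `E1` (`isAlgebraic_of_PS`; better:
`∏ b, ∏ a, (X - C (lf (x b) a))` has coefficients in `E1` by Newton's identities, and `E` is its
splitting field, `mem_of_lf`), so `E / E1` is Galois; an automorphism `γ` of `E / E1` acts on
`lf (x b)` by an element `u b : W` (`exists_W_of_PS`, as `γ` fixes the power sums), which is even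
because `γ` fixes `DD (lf (x b)) ≠ 0` (`DD_comp`); by `h2` some `g : G` acting trivially on `M`
has `κ g b = u b` for all `b`, so `g` and `γ` agree on the `lf (x b) a`, hence on `E`. -/
theorem fixed_mem_E6 {M E G B : Type*} [Field M] [CharZero M] [Field E] [Algebra M E]
    [Group G] [MulSemiringAction G M] [MulSemiringAction G E] [Fintype B] [DecidableEq B]
    [MulAction G B] {x : B → Fin 6 → E} {κ : G → B → W}
    (hact : ∀ (g : G) (m : M), g • algebraMap M E m = algebraMap M E (g • m))
    (hx : AlgebraicIndependent M fun p : B × Fin 6 => x p.1 p.2)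
    (hgen : IntermediateField.adjoin M (Set.range fun p : B × Fin 6 => x p.1 p.2) = ⊤)
    (hgx : ∀ (g : G) (b : B) (a : Fin 27), g • lf (x b) a = lf (x (g • b)) (κ g b • a))
    (h1 : ∀ g : G, (∀ m : M, g • m = m) → ∀ b, g • b = b ∧ eZ (κ g b) = 1)
    (h2 : ∀ τ : B → W, (∀ b, eZ (τ b) = 1) → ∃ g : G, (∀ m : M, g • m = m) ∧
      ∀ b, κ g b = τ b)
    {E1 : IntermediateField M E} (hP : ∀ b j, PS j (lf (x b)) ∈ E1)
    (hD : ∀ b, DD (lf (x b)) ∈ E1) :
    Algebra.IsAlgebraic E1 E ∧
      ∀ z : E, (∀ g : G, (∀ m : M, g • m = m) → g • z = z) → z ∈ E1 := by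
  classical
  have hE0 : CharZero E := charZero_of_injective_algebraMap (algebraMap M E).injective
  have hlfalg : ∀ b a, IsAlgebraic E1 (lf (x b) a) := fun b a =>
    isAlgebraic_of_PS E1.toSubfield (fun j => hP b j) a
  have halgx : ∀ b j, x b j ∈ algebraicClosure E1 E := fun b j =>
    mem_of_lf (algebraicClosure E1 E).toSubfield (ζ := x b)
      (fun a => (mem_algebraicClosure_iff).mpr (hlfalg b a)) j
  have halg : Algebra.IsAlgebraic E1 E := by
    constructor
    intro z
    have hle : (⊤ : IntermediateField M E) ≤ (algebraicClosure E1 E).restrictScalars M := by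
      rw [← hgen, IntermediateField.adjoin_le_iff]
      rintro _ ⟨p, rfl⟩
      exact halgx p.1 p.2
    exact mem_algebraicClosure_iff.mp (hle (IntermediateField.mem_top : z ∈ ⊤))
  refine ⟨halg, fun z hz => ?_⟩
  -- the algebraic closure
  let Ω := AlgebraicClosure E
  have hΩ0 : CharZero Ω := charZero_of_injective_algebraMap (algebraMap E Ω).injective
  have hΩa : Algebra.IsAlgebraic E1 Ω := Algebra.IsAlgebraic.trans E1 E Ω
  have hΩc : IsAlgClosure E1 Ω := ⟨inferInstance, inferInstance⟩
  have hnorm : Normal E1 Ω := inferInstance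
  have hgal : IsGalois E1 Ω := ⟨⟩
  let φ : E →+* Ω := algebraMap E Ω
  -- independence
  have hli : ∀ b, LinearIndependent ℚ (fun j => φ (x b j)) := by
    intro b
    have h3 : LinearIndependent M (fun p : B × Fin 6 => x p.1 p.2) := hx.linearIndependent
    have h4 : LinearIndependent M (x b) :=
      h3.comp (fun j : Fin 6 => (b, j)) (fun i j hij => (Prod.mk.inj hij).2)
    rw [Fintype.linearIndependent_iff] at h4 ⊢
    intro c hc i
    have h5 : φ (∑ j, ((c j : ℚ) : E) * x b j) = 0 := by
      rw [← hc, map_sum]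
      refine sum_congr rfl fun j _ => ?_
      rw [map_mul, map_ratCast, Rat.smul_def]
    have h6 : ∑ j, ((c j : ℚ) : E) * x b j = 0 := (map_eq_zero_iff φ φ.injective).mp h5
    have h7 := h4 (fun j => ((c j : ℚ) : M)) (by
      rw [← h6]
      refine sum_congr rfl fun j _ => ?_
      rw [Algebra.smul_def, map_ratCast]) i
    exact_mod_cast h7
  have hmem : φ z ∈ (⊥ : IntermediateField E1 Ω) := by
    rw [InfiniteGalois.mem_bot_iff_fixed]
    intro γ
    let γ' : Ω →+* Ω := (γ : Ω →ₐ[E1] Ω).toRingHom
    have hγ' : ∀ w, γ' w = γ w := fun w => rfl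
    have hγE : ∀ e : E, e ∈ E1 → γ' (φ e) = φ e := fun e he => γ.commutes ⟨e, he⟩
    have h3 : ∀ b, ∃ u : W, ∀ a, γ' (lf (fun j => φ (x b j)) a) =
        lf (fun j => φ (x b j)) (u • a) := by
      intro b
      refine exists_W_of_PS (hli b) γ' fun j => ?_
      have h4 : PS j (lf fun j => φ (x b j)) = φ (PS j (lf (x b))) := by
        rw [map_PS_b]
        congr 1
        funext a
        rw [map_lf_b]
      rw [h4]
      exact hγE _ (hP b j)
    choose u hu using h3
    have heven : ∀ b, eZ (u b) = 1 := by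
      intro b
      have h4 : DD (lf fun j => φ (x b j)) = φ (DD (lf (x b))) := by
        rw [map_DD_b]
        congr 1
        funext a
        rw [map_lf_b]
      have h5 : γ' (DD (lf fun j => φ (x b j))) = DD (lf fun j => φ (x b j)) := by
        rw [h4]
        exact hγE _ (hD b)
      rw [map_DD_b] at h5
      simp_rw [hu] at h5
      rw [DD_comp ⟨_, rfl⟩] at h5
      have h6 : DD (lf fun j => φ (x b j)) ≠ 0 := by
        rw [DD, prod_ne_zero_iff]
        exact fun i _ => rt_lf_ne_zero (hli b) i
      have h7 : ((eZ (u b) : ℤ) : Ω) = 1 := by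
        have h8 : (((eZ (u b) : ℤ) : Ω) - 1) * DD (lf fun j => φ (x b j)) = 0 := by
          linear_combination h5
        rcases mul_eq_zero.mp h8 with h9 | h9
        · exact sub_eq_zero.mp h9
        · exact absurd h9 h6
      exact_mod_cast h7
    obtain ⟨g, hgM, hgκ⟩ := h2 u heven
    -- `g` and `γ` agree on a subfield
    let ψ : E →+* Ω := φ.comp (MulSemiringAction.toRingHom G E g)
    let S : Subfield E := RingHom.eqLocusField ψ (γ'.comp φ)
    have hS : ∀ w, w ∈ S ↔ φ (g • w) = γ' (φ w) := fun w => Iff.rfl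
    have hSx : ∀ b j, x b j ∈ S := by
      intro b j
      refine mem_of_lf S (fun a => ?_) j
      rw [hS, hgx, (h1 g hgM b).1, hgκ, map_lf_b, map_lf_b, hu]
    have hall : ∀ w : E, w ∈ S := by
      intro w
      have hw : w ∈ IntermediateField.adjoin M (Set.range fun p : B × Fin 6 => x p.1 p.2) := by
        rw [hgen]; trivial
      induction hw using IntermediateField.adjoin_induction with
      | mem w hw =>
        obtain ⟨p, rfl⟩ := hw
        exact hSx p.1 p.2
      | algebraMap m =>
        rw [hS, hact, hgM]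
        exact (hγE _ (E1.algebraMap_mem m)).symm
      | add a b _ _ ha hb => exact add_mem ha hb
      | inv a _ ha => exact inv_mem ha
      | mul a b _ _ ha hb => exact mul_mem ha hb
    have h10 := (hS z).mp (hall z)
    rw [hz g hgM] at h10
    exact h10.symm
  obtain ⟨z1, hz1⟩ := IntermediateField.mem_bot.mp hmem
  have h11 : φ (z1 : E) = φ z := hz1
  rw [← φ.injective h11]
  exact z1.2

end Pool.Agent.Lib.MP_12adaf_nt.E6
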