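import Pool.Agent.Lib.MP_12adaf_ntE6.E10a
import Pool.Agent.Lib.MP_12adaf_ntE6.E10b

/-!
# `E₆`: fields of invariants modulo normal subgroups which are products of the even Weyl groups
-/

namespace Pool.Agent.Lib.MP_12adaf_nt.E6

open Finset

/-- **The `G`-version.** -/
theorem gversion6 {K M E G B : Type*} [Field K] [Field M] [CharZero M] [Field E]
    [Algebra K M] [Algebra M E] [Algebra K E] [IsScalarTower K M E] [Group G] [Fintype G]
    [MulSemiringAction G M] [MulSemiringAction G E] [SMulCommClass G K M]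
    [Algebra.IsInvariant K M G] [Fintype B] [DecidableEq B]
    [MulAction G B] {x : B → Fin 6 → E} {κ : G → B → W}
    (hact : ∀ (g : G) (m : M), g • algebraMap M E m = algebraMap M E (g • m))
    (hx : AlgebraicIndependent M fun p : B × Fin 6 => x p.1 p.2)
    (hgen : IntermediateField.adjoin M (Set.range fun p : B × Fin 6 => x p.1 p.2) = ⊤)
    (hgx : ∀ (g : G) (b : B) (a : Fin 27), g • lf (x b) a = lf (x (g • b)) (κ g b • a))
    (h1 : ∀ g : G, (∀ m : M, g • m = m) → ∀ b, g • b = b ∧ eZ (κ g b) = 1)
    (h2 : ∀ τ : B → W, (∀ b, eZ (τ b) = 1) → ∃ g : G, (∀ m : M, g • m = m) ∧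
      ∀ b, κ g b = τ b) :
    ∃ t : B × Fin 6 → E, (∀ (g : G) (p : B × Fin 6), g • t p = t p) ∧
      AlgebraicIndependent K t ∧
      ∀ z : E, (∀ g : G, g • z = z) → z ∈ IntermediateField.adjoin K (Set.range t) := by
  classical
  obtain ⟨t, hgt, hbt⟩ := exists_block6 hact hx hgx h1
  obtain ⟨w, hw, hwdet⟩ := exists_invariant_basis (M := M) (G := G) (B := B)
    fun g hg b => (h1 g hg b).1
  let t' : B × Fin 6 → E := fun p => ∑ b, algebraMap M E (w p.1 b) * t b p.2
  have hgt' : ∀ (g : G) (p : B × Fin 6), g • t' p = t' p := by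
    intro g p
    simp only [t']
    rw [Finset.smul_sum]
    refine Fintype.sum_bijective (fun b => g • b) (MulAction.bijective g) _ _ fun b => ?_
    rw [smul_mul', hact, hw, hgt]
  set E1 := IntermediateField.adjoin M (Set.range t') with hE1
  have ht : ∀ b i, t b i ∈ E1 := by
    intro b i
    have hWu : IsUnit (Matrix.of w).det := isUnit_iff_ne_zero.mpr hwdet
    have h3 : t b i = ∑ j, algebraMap M E ((Matrix.of w)⁻¹ b j) * t' (j, i) := by
      simp only [t']
      simp_rw [Finset.mul_sum]
      rw [Finset.sum_comm]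
      have h4 : ∀ c, ∑ j, algebraMap M E ((Matrix.of w)⁻¹ b j) *
          (algebraMap M E (w j c) * t c i) =
          algebraMap M E (((Matrix.of w)⁻¹ * Matrix.of w) b c) * t c i := by
        intro c
        rw [Matrix.mul_apply, map_sum, Finset.sum_mul]
        refine Finset.sum_congr rfl fun j _ => ?_
        rw [map_mul, Matrix.of_apply, mul_assoc]
      simp_rw [h4]
      rw [Matrix.nonsing_inv_mul _ hWu]
      rw [Finset.sum_eq_single b]
      · rw [Matrix.one_apply_eq, map_one, one_mul]
      · intro c _ hc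
        rw [Matrix.one_apply_ne hc.symm, map_zero, zero_mul]
      · intro h; exact absurd (Finset.mem_univ b) h
    rw [h3]
    exact sum_mem fun j _ => mul_mem (E1.algebraMap_mem _)
      (IntermediateField.subset_adjoin M _ ⟨(j, i), rfl⟩)
  obtain ⟨halg, hfix⟩ := fixed_mem_E6 (G := G) hact hx hgen hgx h1 h2
    (fun b => (hbt E1 b (ht b)).1) (fun b => (hbt E1 b (ht b)).2)
  have hind : AlgebraicIndependent M t' := algInd_of_card hx hgen halg
  refine ⟨t', hgt', hind.restrictScalars (algebraMap K M).injective, fun z hz => ?_⟩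
  exact fixed_mem_adjoin hact hgt' (hfix z fun g _ => hz g) hz

end Pool.Agent.Lib.MP_12adaf_nt.E6
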