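import Pool.Agent.Lib.MP_12adaf_ntE6.E08
import Pool.Agent.Lib.MP_12adaf_nt.CM.GVe

/-!
# `E₆`: equivariant parameters of all blocks
-/

namespace Pool.Agent.Lib.MP_12adaf_nt.E6

open Finset

section block6

/-- The sign as a unit. -/
private noncomputable def eU (w : W) : ℤˣ := if eZ w = 1 then 1 else -1

private lemma coe_eU (w : W) : ((eU w : ℤˣ) : ℤ) = eZ w := by
  unfold eU
  rcases eZ_cases w with h | h
  · rw [if_pos h, h]
    rfl
  · rw [if_neg (by rw [h]; decide), h]
    rfl

private lemma eU_mul (u w : W) : eU (u * w) = eU u * eU w := by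
  apply Units.ext
  push_cast
  rw [coe_eU, coe_eU, coe_eU, eZ_mul]

private lemma eU_of {w : W} (h : eZ w = 1) : eU w = 1 := by
  unfold eU
  rw [if_pos h]

private lemma PS_map {E E' : Type*} [Field E] [Field E'] (φ : E →+* E') (j : ℕ) (z : Fin 27 → E) :
    φ (PS j z) = PS j fun a => φ (z a) := by
  simp only [PS, map_sum, map_pow]

private lemma DD_map {E E' : Type*} [Field E] [Field E'] (φ : E →+* E') (z : Fin 27 → E) :
    φ (DD z) = DD fun a => φ (z a) := by
  simp only [DD, rt, map_prod, map_sub]

private lemma PS_comp {E : Type*} [Field E] (j : ℕ) (z : Fin 27 → E) (w : W) :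
    PS j (fun a => z (w • a)) = PS j z := by
  unfold PS
  exact Fintype.sum_bijective (fun a => w • a) (MulAction.bijective w) _ _ fun a => rfl

variable {M E G B : Type*} [Field M] [CharZero M] [Field E] [Algebra M E]
    [Group G] [MulSemiringAction G M] [MulSemiringAction G E] [MulAction G B]
    {x : B → Fin 6 → E} {κ : G → B → W}

omit [CharZero M] [Algebra M E] [MulSemiringAction G M] [Field M] in
private lemma smul_PS (hgx : ∀ (g : G) (b : B) (a : Fin 27),
    g • lf (x b) a = lf (x (g • b)) (κ g b • a)) (g : G) (b : B) (j : ℕ) :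
    g • PS j (lf (x b)) = PS j (lf (x (g • b))) := by
  have h1 : g • PS j (lf (x b)) = MulSemiringAction.toRingHom G E g (PS j (lf (x b))) := rfl
  rw [h1, PS_map]
  have h2 : (fun a => MulSemiringAction.toRingHom G E g (lf (x b) a)) =
      fun a => lf (x (g • b)) (κ g b • a) := by
    funext a
    exact hgx g b a
  rw [h2]
  exact PS_comp j (lf (x (g • b))) (κ g b)

omit [CharZero M] [Algebra M E] [MulSemiringAction G M] [Field M] in
private lemma smul_DD [CharZero E] (hgx : ∀ (g : G) (b : B) (a : Fin 27),
    g • lf (x b) a = lf (x (g • b)) (κ g b • a)) (g : G) (b : B) :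
    g • DD (lf (x b)) = (eZ (κ g b) : E) * DD (lf (x (g • b))) := by
  have h1 : g • DD (lf (x b)) = MulSemiringAction.toRingHom G E g (DD (lf (x b))) := rfl
  rw [h1, DD_map]
  have h2 : (fun a => MulSemiringAction.toRingHom G E g (lf (x b) a)) =
      fun a => lf (x (g • b)) (κ g b • a) := by
    funext a
    exact hgx g b a
  rw [h2]
  exact DD_comp ⟨x (g • b), rfl⟩ (κ g b)

end block6

/-- **Parameters of all blocks.**  Pattern: `exists_block_params` in
`Pool/Agent/Lib/MP_12adaf_nt/CM/GVc.lean` (the same theorem for alternating groups).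
Difference: the parameters `t b` of the block `b` are not canonical functions here, but come from
`field_thm` (E08): choose representatives `b₀` of the `G`-orbits on `B`; `e : B → M` from
`exists_invariant_ne_zero` (GVa.lean) with the signs `eZ (κ g b)` (as units of `ℤ`; the cocycle
identity `κ (g * h) b = κ g (h • b) * κ h b` follows from `hgx` and the injectivity of
`a ↦ lf (x b) a`), so that `e b₀ ^ 2` lies in the fixed field `k` of the stabilizer `G_{b₀}` on `M`
(e.g. `FixedPoints.subfield`); apply `field_thm` over `k` to `x b₀` (algebraically independent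
over `M`, so over `k`) and `algebraMap M E (e b₀)`; the power sums `PS j (lf (x b₀))` and
`DD (lf (x b₀)) / e b₀` are fixed by `G_{b₀}` (`DD_comp`), so the `t b₀ i` are fixed by `G_{b₀}`,
and `t (g • b₀) i := g • t b₀ i` is well defined and equivariant.  For `b = g • b₀` the power sums
`PS j (lf (x b)) = g • PS j (lf (x b₀))` and `DD (lf (x b)) = ± g • DD (lf (x b₀))` are in the
field generated by `M` and the `t b i`, as `g • k ⊆ M`. -/
theorem exists_block6 {M E G B : Type*} [Field M] [CharZero M] [Field E] [Algebra M E]
    [Group G] [Fintype G] [MulSemiringAction G M] [MulSemiringAction G E] [Fintype B]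
    [DecidableEq B] [MulAction G B] {x : B → Fin 6 → E} {κ : G → B → W}
    (hact : ∀ (g : G) (m : M), g • algebraMap M E m = algebraMap M E (g • m))
    (hx : AlgebraicIndependent M fun p : B × Fin 6 => x p.1 p.2)
    (hgx : ∀ (g : G) (b : B) (a : Fin 27), g • lf (x b) a = lf (x (g • b)) (κ g b • a))
    (h1 : ∀ g : G, (∀ m : M, g • m = m) → ∀ b, g • b = b ∧ eZ (κ g b) = 1) :
    ∃ t : B → Fin 6 → E, (∀ (g : G) (b : B) (i : Fin 6), g • t b i = t (g • b) i) ∧
      ∀ (E1 : IntermediateField M E) (b : B), (∀ i, t b i ∈ E1) →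
        (∀ j, PS j (lf (x b)) ∈ E1) ∧ DD (lf (x b)) ∈ E1 := by
  classical
  have : CharZero E := charZero_of_injective_algebraMap (algebraMap M E).injective
  have hxM : ∀ b, AlgebraicIndependent M (x b) := fun b =>
    hx.comp (fun i : Fin 6 => (b, i)) fun i i' h => congrArg Prod.snd h
  have hinj : ∀ b, Function.Injective (lf (x b)) := by
    intro b
    refine lf_injective ?_
    have h2 := (hxM b).linearIndependent
    refine h2.restrict_scalars ?_
    intro r s hrs
    simpa using hrs
  -- the cocycle identity
  have hκ : ∀ g h b, κ (g * h) b = κ g (h • b) * κ h b := by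
    intro g h b
    refine W_ext fun a => ?_
    apply hinj (g • h • b)
    have e1 := hgx (g * h) b a
    have e2 : g • (h • lf (x b) a) = lf (x (g • h • b)) (κ g (h • b) • κ h b • a) := by
      rw [hgx, hgx]
    rw [mul_smul, mul_smul, e2] at e1
    rw [mul_smul]
    exact e1.symm
  obtain ⟨e, he, he0⟩ := exists_invariant_ne_zero (M := M) (G := G) (B := B)
    (fun g b => eU (κ g b)) (fun g h b => by rw [hκ, eU_mul])
    (fun g hg b => ⟨(h1 g hg b).1, eU_of (h1 g hg b).2⟩)
  have he' : ∀ g b, g • e b = (eZ (κ g b) : M) * e (g • b) := by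
    intro g b
    rw [he, coe_eU]
  -- the quotient of the discriminant
  have hy : ∀ (g : G) (b : B), g • (DD (lf (x b)) / algebraMap M E (e b)) =
      DD (lf (x (g • b))) / algebraMap M E (e (g • b)) := by
    intro g b
    have h2 : g • (DD (lf (x b)) / algebraMap M E (e b)) =
        (g • DD (lf (x b))) / (g • algebraMap M E (e b)) :=
      map_div₀ (MulSemiringAction.toRingHom G E g) _ _
    rw [h2, smul_DD hgx, hact, he', map_mul]
    rcases eZ_cases (κ g b) with h | h
    · rw [h]; simp
    · rw [h]; simp
  -- the parameters of one block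
  have hblock : ∀ b : B, ∃ T : Fin 6 → E,
      (∀ (g : G), g • b = b → ∀ i, g • T i = T i) ∧
      ∀ (g : G) (E1 : IntermediateField M E), (∀ i, g • T i ∈ E1) →
        (∀ j, g • PS j (lf (x b)) ∈ E1) ∧
          g • (DD (lf (x b)) / algebraMap M E (e b)) ∈ E1 := by
    intro b
    let k : Subfield M := FixedPoints.subfield (MulAction.stabilizer G b) M
    have hkE : ∀ c : k, algebraMap k E c = algebraMap M E (c : M) := fun c => rfl
    have hxk : AlgebraicIndependent k (x b) :=
      (hxM b).restrictScalars (algebraMap k M).injective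
    have heb : algebraMap M E (e b) ≠ 0 := (map_ne_zero _).2 (he0 b)
    have he2 : ∃ d : k, algebraMap M E (e b) ^ 2 = algebraMap k E d := by
      refine ⟨⟨e b ^ 2, ?_⟩, ?_⟩
      · intro g
        have hg : (g : G) • b = b := g.2
        have h2 : g • e b = (g : G) • e b := rfl
        rw [smul_pow', h2, he', hg, mul_pow]
        have h3 : (eZ (κ (g : G) b) : M) ^ 2 = 1 := by
          rcases eZ_cases (κ (g : G) b) with h | h
          · rw [h]; simp
          · rw [h]; simp
        rw [h3, one_mul]
      · rw [hkE, ← map_pow]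
    obtain ⟨T, hT1, hT2, hT3⟩ := field_thm hxk heb he2
    refine ⟨T, ?_, ?_⟩
    · intro g hg i
      -- the elements fixed by `g`
      refine IntermediateField.adjoin_induction k (p := fun z _ => g • z = z) ?_ ?_ ?_ ?_ ?_
        (hT1 i)
      · rintro z (⟨j, rfl⟩ | hz)
        · have h2 := smul_PS hgx g b j
          rw [hg] at h2
          exact h2
        · rw [Set.mem_singleton_iff] at hz
          have h2 := hy g b
          rw [hg] at h2
          rw [hz]
          exact h2
      · intro c
        rw [hkE, hact]
        congr 1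
        exact c.2 ⟨g, hg⟩
      · intro z w _ _ hz hw
        rw [smul_add, hz, hw]
      · intro z _ hz
        rw [smul_inv'', hz]
      · intro z w _ _ hz hw
        rw [smul_mul', hz, hw]
    · intro g E1 hE1
      have hind : ∀ z ∈ IntermediateField.adjoin k (Set.range T), g • z ∈ E1 := by
        intro z hz
        refine IntermediateField.adjoin_induction k (p := fun z _ => g • z ∈ E1) ?_ ?_ ?_ ?_ ?_ hz
        · rintro z ⟨i, rfl⟩
          exact hE1 i
        · intro c
          rw [hkE, hact]
          exact E1.algebraMap_mem _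
        · intro z w _ _ hz hw
          rw [smul_add]
          exact add_mem hz hw
        · intro z _ hz
          rw [smul_inv'']
          exact inv_mem hz
        · intro z w _ _ hz hw
          rw [smul_mul']
          exact mul_mem hz hw
      exact ⟨fun j => hind _ (hT2 j), hind _ hT3⟩
  choose T hTfix hTmem using hblock
  -- representatives
  let rep : B → B := fun b => (Quotient.out (Quotient.mk (MulAction.orbitRel G B) b))
  have hrep : ∀ (g : G) (b : B), rep (g • b) = rep b := by
    intro g b
    have : Quotient.mk (MulAction.orbitRel G B) (g • b) =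
        Quotient.mk (MulAction.orbitRel G B) b := Quotient.sound ⟨g, rfl⟩
    simp only [rep, this]
  have hγ : ∀ b : B, ∃ γ : G, γ • rep b = b := by
    intro b
    have h2 : (MulAction.orbitRel G B).r (rep b) b :=
      Quotient.exact (Quotient.out_eq (Quotient.mk (MulAction.orbitRel G B) b))
    obtain ⟨g, hg⟩ := h2
    dsimp only at hg
    refine ⟨g⁻¹, ?_⟩
    rw [← hg, inv_smul_smul]
  choose γ hγ using hγ
  refine ⟨fun b i => γ b • T (rep b) i, ?_, ?_⟩
  · intro g b i
    have h2 : ((γ (g • b))⁻¹ * g * γ b) • rep b = rep b := by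
      rw [mul_smul, mul_smul, hγ b, inv_smul_eq_iff]
      have h3 := hγ (g • b)
      rw [hrep] at h3
      exact h3.symm
    have h3 := hTfix (rep b) _ h2 i
    dsimp only
    rw [hrep]
    rw [mul_smul, mul_smul, inv_smul_eq_iff] at h3
    exact h3
  · intro E1 b hb
    obtain ⟨h2, h3⟩ := hTmem (rep b) (γ b) E1 hb
    refine ⟨fun j => ?_, ?_⟩
    · have h4 := h2 j
      rw [smul_PS hgx, hγ b] at h4
      exact h4
    · rw [hy, hγ b] at h3
      have h4 : DD (lf (x b)) = DD (lf (x b)) / algebraMap M E (e b) * algebraMap M E (e b) :=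
        (div_mul_cancel₀ _ ((map_ne_zero _).2 (he0 b))).symm
      rw [h4]
      exact mul_mem h3 (E1.algebraMap_mem _)

end Pool.Agent.Lib.MP_12adaf_nt.E6
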