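import Pool.Agent.Lib.MP_12adaf_ntE6.Defs
import Pool.Agent.Lib.MP_12adaf_ntE6.E02p
import Pool.Agent.Lib.MP_12adaf_ntE6.E09

/-!
# `E₆`: the natural coordinates
-/

namespace Pool.Agent.Lib.MP_12adaf_nt.E6

set_option linter.unusedSectionVars false

open Finset

/-- three times the coefficients of the 27 forms in the natural coordinates -/
def nlL : List (List ℤ) := [[3, 0, 0, 0, 0, 0], [0, 3, 0, 0, 0, 0], [1, -2, 1, 1, -2, 1],
  [-2, 1, 1, 1, -2, 1], [0, 0, 3, 0, 0, 0], [0, 0, 0, 3, 0, 0], [1, 1, 1, -2, -2, 1],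
  [1, 1, -2, 1, -2, 1], [0, 0, 0, 0, 3, 0], [1, 1, -2, -2, 1, 1], [-2, -2, 1, 1, 1, 1],
  [-1, -1, -1, -1, -1, 2], [1, -2, 1, -2, 1, 1], [1, -2, -2, 1, 1, 1], [-2, 1, 1, -2, 1, 1],
  [-2, 1, -2, 1, 1, 1], [1, 1, 1, -2, 1, -2], [1, 1, -2, 1, 1, -2], [-1, -1, 2, -1, -1, -1],
  [-1, -1, -1, 2, -1, -1], [1, -2, 1, 1, 1, -2], [2, -1, -1, -1, -1, -1],
  [-2, 1, 1, 1, 1, -2], [-1, 2, -1, -1, -1, -1], [-1, -1, -1, -1, 2, -1],
  [1, 1, 1, 1, -2, -2], [0, 0, 0, 0, 0, 3]]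

def nl (a : Fin 27) (j : Fin 6) : ℤ := (nlL.getD a []).getD j 0

/-- the weights which are the natural coordinates -/
def wsL : List (List ℤ) := [[1, 1, 0, 0, 1, 0], [1, -1, 0, 0, 1, 0], [0, 0, 1, 1, 1, 0],
  [0, 0, 1, -1, 1, 0], [1, 0, 1, 0, 0, 1], [0, 0, 0, 0, 2, 2]]

def ws (i l : Fin 6) : ℤ := (wsL.getD i []).getD l 0

/-- six times the inverse matrix -/
def qsL : List (List ℤ) := [[2, 2, -1, -1, 2, -1], [3, -3, 0, 0, 0, 0], [-1, -1, 2, 2, 2, -1],
  [0, 0, 3, -3, 0, 0], [1, 1, 1, 1, -2, 1], [-1, -1, -1, -1, 2, 2]]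

def qs (l i : Fin 6) : ℤ := (qsL.getD l []).getD i 0

theorem two_nl : ∀ (a : Fin 27) (j : Fin 6), 2 * nl a j = ∑ l, wt a l * qs l j := by
  decide +kernel

theorem ws_qs : ∀ i j : Fin 6, ∑ l, ws i l * qs l j = if i = j then 6 else 0 := by decide +kernel

theorem qs_ws : ∀ i j : Fin 6, ∑ l, qs i l * ws l j = if i = j then 6 else 0 := by decide +kernel

theorem nl_inj : ∀ a b : Fin 27, (∀ j, nl a j = nl b j) → a = b := by decide +kernel

theorem nl_line1 : ∀ i : Fin 6, ∃ a : Fin 27, ∀ j, nl a j = if j = i then 3 else 0 := by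
  decide +kernel

theorem nl_line2 : ∀ i : Fin 6, ∃ a : Fin 27, ∀ j, nl a j = (if j = i then 3 else 0) - 1 := by
  decide +kernel

theorem nl_line3 : ∀ i j : Fin 6, i < j → ∃ a : Fin 27, ∀ l, nl a l =
    1 - (if l = i then 3 else 0) - (if l = j then 3 else 0) := by
  decide +kernel

theorem nl_cases : ∀ a : Fin 27, (∃ i : Fin 6, ∀ j, nl a j = if j = i then 3 else 0) ∨
    (∃ i : Fin 6, ∀ j, nl a j = (if j = i then 3 else 0) - 1) ∨
    ∃ i j : Fin 6, i < j ∧ ∀ l, nl a l =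
      1 - (if l = i then 3 else 0) - (if l = j then 3 else 0) := by
  decide +kernel

/-- the coefficient vector of the form `a` -/
def nc (a : Fin 27) : Fin 6 → ℚ := fun j => (nl a j : ℚ) / 3

lemma nc_injective : Function.Injective nc := by
  intro a b h
  apply nl_inj
  intro j
  have h1 := congrFun h j
  simp only [nc] at h1
  have h2 : (nl a j : ℚ) = nl b j := by linarith
  exact_mod_cast h2

lemma mem_lines27 (c : Fin 6 → ℚ) : c ∈ lines27 ↔ ∃ a, c = nc a := by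
  constructor
  · rintro (⟨i, rfl⟩ | ⟨i, rfl⟩ | ⟨i, j, hij, rfl⟩)
    · obtain ⟨a, ha⟩ := nl_line1 i
      refine ⟨a, ?_⟩
      funext j
      simp only [nc, ha, Pi.single_apply]
      split_ifs <;> norm_num
    · obtain ⟨a, ha⟩ := nl_line2 i
      refine ⟨a, ?_⟩
      funext j
      simp only [nc, ha, Pi.single_apply, Pi.sub_apply]
      split_ifs <;> norm_num
    · obtain ⟨a, ha⟩ := nl_line3 i j hij
      refine ⟨a, ?_⟩
      funext l
      simp only [nc, ha, Pi.single_apply, Pi.sub_apply]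
      split_ifs <;> norm_num
  · rintro ⟨a, rfl⟩
    rcases nl_cases a with ⟨i, hi⟩ | ⟨i, hi⟩ | ⟨i, j, hij, hi⟩
    · left
      refine ⟨i, ?_⟩
      funext j
      simp only [nc, hi, Pi.single_apply]
      split_ifs <;> norm_num
    · right; left
      refine ⟨i, ?_⟩
      funext j
      simp only [nc, hi, Pi.single_apply, Pi.sub_apply]
      split_ifs <;> norm_num
    · right; right
      refine ⟨i, j, hij, ?_⟩
      funext l
      simp only [nc, hi, Pi.single_apply, Pi.sub_apply]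
      split_ifs <;> norm_num

/-- base change matrices -/
def WS : Matrix (Fin 6) (Fin 6) ℚ := Matrix.of fun i l => (ws i l : ℚ)

def QS : Matrix (Fin 6) (Fin 6) ℚ := Matrix.of fun l i => (qs l i : ℚ) / 6

def wv (a : Fin 27) : Fin 6 → ℚ := fun l => (wt a l : ℚ)

lemma WS_QS : WS * QS = 1 := by
  ext i j
  rw [Matrix.mul_apply]
  have h1 : ((∑ l, ws i l * qs l j : ℤ) : ℚ) = ((if i = j then 6 else 0 : ℤ) : ℚ) := by
    rw [ws_qs]
  push_cast at h1
  simp only [WS, QS, Matrix.of_apply, mul_div_assoc', ← sum_div, h1, Matrix.one_apply]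
  split_ifs <;> norm_num

lemma QS_WS : QS * WS = 1 := mul_eq_one_comm.mp WS_QS

lemma nc_eq (a : Fin 27) : nc a = Matrix.vecMul (wv a) QS := by
  funext j
  have h1 : ((2 * nl a j : ℤ) : ℚ) = ((∑ l, wt a l * qs l j : ℤ) : ℚ) := by rw [two_nl]
  push_cast at h1
  simp only [nc, Matrix.vecMul, dotProduct, wv, QS, Matrix.of_apply, mul_div_assoc', ← sum_div,
    ← h1]
  ring

lemma wv_eq (a : Fin 27) : wv a = Matrix.vecMul (nc a) WS := by
  rw [nc_eq, Matrix.vecMul_vecMul, QS_WS, Matrix.vecMul_one]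

lemma exists_mat' (w : W) : ∃ A : Matrix (Fin 6) (Fin 6) ℚ,
    (∀ a, Matrix.vecMul (wv a) A = wv (w • a)) ∧ A.det = (eZ w : ℚ) := by
  obtain ⟨A, hA⟩ := exists_mat w
  exact ⟨A, fun a => funext fun j => hA a j, det_eq_eZ w A hA⟩

/-- Matrices in the natural coordinates and elements of `W`. -/
lemma exists_W_of_mem {A : Matrix (Fin 6) (Fin 6) ℚ} (hA : A ∈ weylE6) :
    ∃ w : W, (∀ a, Matrix.vecMul (nc a) A = nc (w • a)) ∧ A.det = (eZ w : ℚ) := by
  have h1 : ∀ a, ∃ b, Matrix.vecMul (nc a) A = nc b := fun a =>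
    (mem_lines27 _).mp (hA.mapsTo ((mem_lines27 _).mpr ⟨a, rfl⟩))
  choose f hf using h1
  have hinj : Function.Injective f := by
    intro a b hab
    apply nc_injective
    apply hA.injOn ((mem_lines27 _).mpr ⟨a, rfl⟩) ((mem_lines27 _).mpr ⟨b, rfl⟩)
    change Matrix.vecMul (nc a) A = Matrix.vecMul (nc b) A
    rw [hf, hf, hab]
  let π : Equiv.Perm (Fin 27) := Equiv.ofBijective f (Finite.injective_iff_bijective.mp hinj)
  have h2 : ∀ a, Matrix.vecMul (wv a) (QS * A * WS) = wv (f a) := by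
    intro a
    rw [← Matrix.vecMul_vecMul, ← Matrix.vecMul_vecMul, ← nc_eq, hf, ← wv_eq]
  have h3 : π ∈ W := ⟨QS * A * WS, fun a j => congrFun (h2 a) j⟩
  refine ⟨⟨π, h3⟩, hf, ?_⟩
  rw [← det_eq_eZ ⟨π, h3⟩ (QS * A * WS) fun a j => congrFun (h2 a) j, Matrix.det_mul,
    Matrix.det_mul]
  have h4 : QS.det * WS.det = 1 := by rw [← Matrix.det_mul, QS_WS, Matrix.det_one]
  linear_combination -A.det * h4

lemma exists_mem_of_W (w : W) : ∃ A : Matrix (Fin 6) (Fin 6) ℚ, A ∈ weylE6 ∧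
    (∀ a, Matrix.vecMul (nc a) A = nc (w • a)) ∧ A.det = (eZ w : ℚ) := by
  obtain ⟨A, hA, hdet⟩ := exists_mat' w
  have h1 : ∀ a, Matrix.vecMul (nc a) (WS * A * QS) = nc (w • a) := by
    intro a
    rw [← Matrix.vecMul_vecMul, ← Matrix.vecMul_vecMul, ← wv_eq, hA, ← nc_eq]
  refine ⟨WS * A * QS, ⟨?_, ?_, ?_⟩, h1, ?_⟩
  · intro c hc
    obtain ⟨a, rfl⟩ := (mem_lines27 _).mp hc
    exact (mem_lines27 _).mpr ⟨w • a, h1 a⟩
  · intro c hc c' hc' h
    obtain ⟨a, rfl⟩ := (mem_lines27 _).mp hc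
    obtain ⟨b, rfl⟩ := (mem_lines27 _).mp hc'
    have h2 : Matrix.vecMul (nc a) (WS * A * QS) = Matrix.vecMul (nc b) (WS * A * QS) := h
    rw [h1, h1] at h2
    rw [MulAction.injective w (nc_injective h2)]
  · intro c hc
    obtain ⟨a, rfl⟩ := (mem_lines27 _).mp hc
    refine ⟨nc (w⁻¹ • a), (mem_lines27 _).mpr ⟨_, rfl⟩, ?_⟩
    change Matrix.vecMul (nc (w⁻¹ • a)) (WS * A * QS) = nc a
    rw [h1, smul_inv_smul]
  · rw [Matrix.det_mul, Matrix.det_mul, ← hdet]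
    have h4 : QS.det * WS.det = 1 := by rw [← Matrix.det_mul, QS_WS, Matrix.det_one]
    linear_combination A.det * h4

/-- The 27 vectors determine a matrix. -/
lemma mat_ext {A A' : Matrix (Fin 6) (Fin 6) ℚ}
    (h : ∀ a, Matrix.vecMul (nc a) A = Matrix.vecMul (nc a) A') : A = A' := by
  have h1 : ∀ i : Fin 6, ∃ a, nc a = Pi.single i 1 := by
    intro i
    obtain ⟨a, ha⟩ := (mem_lines27 (Pi.single i 1)).mp (Or.inl ⟨i, rfl⟩)
    exact ⟨a, ha.symm⟩
  ext i j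
  obtain ⟨a, ha⟩ := h1 i
  have h2 := congrFun (h a) j
  rw [ha, Matrix.single_one_vecMul, Matrix.single_one_vecMul] at h2
  exact h2

/-- The coordinates `z = QS x` of the point with natural coordinates `x`. -/
def zc {E : Type*} [Field E] (x : Fin 6 → E) : Fin 6 → E := fun l => ∑ i, ((QS l i : ℚ) : E) * x i

lemma lf_zc {E : Type*} [Field E] [CharZero E] (x : Fin 6 → E) (a : Fin 27) :
    lf (zc x) a = ∑ i, ((nc a i : ℚ) : E) * x i := by
  simp only [lf, zc, mul_sum]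
  rw [sum_comm]
  refine sum_congr rfl fun i _ => ?_
  rw [nc_eq, Matrix.vecMul, dotProduct]
  push_cast
  rw [sum_mul]
  refine sum_congr rfl fun l _ => ?_
  simp only [wv]
  push_cast
  ring

lemma zc_inv {E : Type*} [Field E] [CharZero E] (x : Fin 6 → E) (i : Fin 6) :
    x i = ∑ l, ((WS i l : ℚ) : E) * zc x l := by
  simp only [zc, mul_sum]
  rw [sum_comm]
  have h1 : ∀ j, ∑ l, ((WS i l : ℚ) : E) * (((QS l j : ℚ) : E) * x j) =
      ((((WS * QS) i j : ℚ)) : E) * x j := by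
    intro j
    rw [Matrix.mul_apply]
    push_cast
    rw [sum_mul]
    exact sum_congr rfl fun l _ => by ring
  simp_rw [h1, WS_QS, Matrix.one_apply]
  rw [sum_eq_single i]
  · rw [if_pos rfl, Rat.cast_one, one_mul]
  · intro b _ hb
    rw [if_neg (Ne.symm hb), Rat.cast_zero, zero_mul]
  · intro h; exact absurd (mem_univ i) h

end Pool.Agent.Lib.MP_12adaf_nt.E6
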