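import Pool.Agent.Lib.MP_12adaf_ntE6.E10
import Pool.Agent.Lib.MP_12adaf_ntE6.E11

/-!
# `E₆`: fields of invariants modulo normal subgroups which are products of groups `W(E₆)⁺`
-/

namespace Pool.Agent.Lib.MP_12adaf_nt.E6

set_option linter.unusedSectionVars false

open Finset

/-- **The `G`-version in natural coordinates.** -/
theorem gversion_nat {K M E G B : Type*} [Field K] [Field M] [CharZero M] [Field E]
    [Algebra K M] [Algebra M E] [Algebra K E] [IsScalarTower K M E] [Group G] [Fintype G]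
    [MulSemiringAction G M] [MulSemiringAction G E] [SMulCommClass G K M]
    [Algebra.IsInvariant K M G] [Fintype B] [DecidableEq B] [CharZero E]
    [MulAction G B] {x : B → Fin 6 → E} {A : G → B → Matrix (Fin 6) (Fin 6) ℚ}
    (hact : ∀ (g : G) (m : M), g • algebraMap M E m = algebraMap M E (g • m))
    (hx : AlgebraicIndependent M fun p : B × Fin 6 => x p.1 p.2)
    (hgen : IntermediateField.adjoin M (Set.range fun p : B × Fin 6 => x p.1 p.2) = ⊤)
    (hA : ∀ g b, A g b ∈ weylE6)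
    (hgx : ∀ (g : G) (b : B) (i : Fin 6), g • x b i = ∑ j, (A g b i j : E) * x (g • b) j)
    (h1 : ∀ g : G, (∀ m : M, g • m = m) → ∀ b, g • b = b ∧ (A g b).det = 1)
    (h2 : ∀ τ : B → Matrix (Fin 6) (Fin 6) ℚ, (∀ b, τ b ∈ weylE6 ∧ (τ b).det = 1) →
      ∃ g : G, (∀ m : M, g • m = m) ∧ ∀ b, A g b = τ b) :
    ∃ t : B × Fin 6 → E, (∀ (g : G) (p : B × Fin 6), g • t p = t p) ∧
      AlgebraicIndependent K t ∧
      ∀ z : E, (∀ g : G, g • z = z) → z ∈ IntermediateField.adjoin K (Set.range t) := by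
  classical
  have hκ : ∀ g b, ∃ w : W, (∀ a, Matrix.vecMul (nc a) (A g b) = nc (w • a)) ∧
      (A g b).det = (eZ w : ℚ) := fun g b => exists_W_of_mem (hA g b)
  choose κ hκ1 hκ2 using hκ
  -- the new variables
  let z : B → Fin 6 → E := fun b => zc (x b)
  have hzmem : ∀ (F : IntermediateField M E) (b : B), (∀ l, z b l ∈ F) → ∀ i, x b i ∈ F := by
    intro F b h i
    rw [zc_inv (x b) i]
    exact sum_mem fun l _ => mul_mem (SubfieldClass.ratCast_mem F _) (h l)
  have hgen' : IntermediateField.adjoin M (Set.range fun p : B × Fin 6 => z p.1 p.2) = ⊤ := by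
    rw [← top_le_iff, ← hgen, IntermediateField.adjoin_le_iff]
    rintro _ ⟨p, rfl⟩
    exact hzmem _ p.1 (fun l => IntermediateField.subset_adjoin M
      (Set.range fun p : B × Fin 6 => z p.1 p.2) ⟨(p.1, l), rfl⟩) p.2
  have hz : AlgebraicIndependent M fun p : B × Fin 6 => z p.1 p.2 := by
    apply algInd_of_card hx hgen
    rw [hgen']
    constructor
    intro y
    exact isAlgebraic_algebraMap (⟨y, trivial⟩ : (⊤ : IntermediateField M E))
  have hgz : ∀ (g : G) (b : B) (a : Fin 27), g • lf (z b) a = lf (z (g • b)) (κ g b • a) := by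
    intro g b a
    have hq : ∀ r : ℚ, g • (r : E) = (r : E) := fun r =>
      map_ratCast (MulSemiringAction.toRingHom G E g) r
    simp only [z]
    rw [lf_zc, lf_zc, smul_sum, ← hκ1]
    simp_rw [smul_mul', hq, hgx, mul_sum]
    rw [sum_comm]
    refine sum_congr rfl fun j _ => ?_
    rw [Matrix.vecMul, dotProduct]
    push_cast
    rw [sum_mul]
    exact sum_congr rfl fun i _ => by ring
  refine gversion6 (κ := κ) hact hz hgen' hgz (fun g hg b => ⟨(h1 g hg b).1, ?_⟩) fun τ hτ => ?_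
  · have h3 := (h1 g hg b).2
    rw [hκ2] at h3
    exact_mod_cast h3
  · have h3 : ∀ b, ∃ A' : Matrix (Fin 6) (Fin 6) ℚ, A' ∈ weylE6 ∧
        (∀ a, Matrix.vecMul (nc a) A' = nc (τ b • a)) ∧ A'.det = (eZ (τ b) : ℚ) := fun b =>
      exists_mem_of_W (τ b)
    choose A' h4 h5 h6 using h3
    obtain ⟨g, hg, hgA⟩ := h2 A' fun b => ⟨h4 b, by rw [h6, hτ b]; norm_num⟩
    refine ⟨g, hg, fun b => ?_⟩
    apply W_ext
    intro a
    apply nc_injective
    rw [← hκ1, hgA, h5]

end Pool.Agent.Lib.MP_12adaf_nt.E6
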